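import Pool.Agent.H10R3.SC.Defs

set_option autoImplicit false
set_option linter.unusedSectionVars false

/-! Task Crit of the project H10-SC: the counting lemma for critical edge sets. -/

open Finset

namespace Pool.Agent.H10R3.SC

open Pool.Agent.Helper347.Sab

section

variable {V E : Type} [Fintype V] [DecidableEq V] [Fintype E] [DecidableEq E]

/-- in a critical edge set the degrees of the ends of an edge add up to at least 5 -/
lemma crit_deg (G : MGraph V E) (B : Finset E) (hB : ¬ Clb G B)
    (hmin : ∀ B', B' ⊂ B → Clb G B') (e : E) (he : e ∈ B) (v w : V) (hvw : G.ends e = s(v, w)) :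
    5 ≤ dg G B v + dg G B w := by
  classical
  obtain ⟨col, hcol⟩ := hmin (B.erase e) (Finset.erase_ssubset he)
  by_contra hlt
  push Not at hlt
  set A : Finset E := (B.filter fun f => v ∈ G.ends f).erase e with hA
  set C : Finset E := (B.filter fun f => w ∈ G.ends f).erase e with hC
  have hev : e ∈ B.filter fun f => v ∈ G.ends f := by
    rw [mem_filter]; exact ⟨he, by rw [hvw]; exact Sym2.mem_mk_left v w⟩
  have hew : e ∈ B.filter fun f => w ∈ G.ends f := by
    rw [mem_filter]; exact ⟨he, by rw [hvw]; exact Sym2.mem_mk_right v w⟩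
  have cA : A.card + 1 = dg G B v := by
    rw [hA, Finset.card_erase_add_one hev]; rfl
  have cC : C.card + 1 = dg G B w := by
    rw [hC, Finset.card_erase_add_one hew]; rfl
  have cU : ((A ∪ C).image col).card ≤ 2 := by
    calc ((A ∪ C).image col).card ≤ (A ∪ C).card := Finset.card_image_le
      _ ≤ A.card + C.card := Finset.card_union_le _ _
      _ ≤ 2 := by omega
  have hne : ∃ c : Fin 3, c ∉ (A ∪ C).image col := by
    by_contra hall
    push Not at hall
    have : (univ : Finset (Fin 3)) ⊆ (A ∪ C).image col := fun c _ => hall c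
    have := Finset.card_le_card this
    simp at this
    omega
  obtain ⟨c, hc⟩ := hne
  have hc' : ∀ f, f ∈ B → f ≠ e → (v ∈ G.ends f ∨ w ∈ G.ends f) → col f ≠ c := by
    intro f hf hfe hor heq
    apply hc
    rw [mem_image]
    refine ⟨f, ?_, heq⟩
    rw [mem_union, hA, hC, mem_erase, mem_erase, mem_filter, mem_filter]
    rcases hor with h | h
    · exact Or.inl ⟨hfe, hf, h⟩
    · exact Or.inr ⟨hfe, hf, h⟩
  have hmem : ∀ u, u ∈ G.ends e → u = v ∨ u = w := by
    intro u hu
    rw [hvw] at hu
    exact Sym2.mem_iff.1 hu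
  apply hB
  refine ⟨Function.update col e c, ?_⟩
  intro u f g hf hg hfu hgu hfg
  by_cases h1 : f = e
  · have h2 : g ≠ e := fun h => hfg (h1.trans h.symm)
    rw [h1, Function.update_self, Function.update_of_ne h2]
    rw [h1] at hfu
    refine (hc' g hg h2 ?_).symm
    rcases hmem u hfu with h | h
    · exact Or.inl (h ▸ hgu)
    · exact Or.inr (h ▸ hgu)
  · by_cases h2 : g = e
    · rw [h2, Function.update_self, Function.update_of_ne h1]
      rw [h2] at hgu
      refine hc' f hf h1 ?_
      rcases hmem u hgu with h | h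
      · exact Or.inl (h ▸ hfu)
      · exact Or.inr (h ▸ hfu)
    · rw [Function.update_of_ne h1, Function.update_of_ne h2]
      exact hcol u f g (mem_erase.2 ⟨h1, hf⟩) (mem_erase.2 ⟨h2, hg⟩) hfu hgu hfg

lemma clb_of_card_le (G : MGraph V E) (B : Finset E) (hB : B.card ≤ 3) : Clb G B := by
  classical
  refine ⟨fun e => if h : e ∈ B then Fin.castLE hB (B.equivFin ⟨e, h⟩) else 0, ?_⟩
  intro v e f he hf _ _ hne heq
  simp only [he, hf, dif_pos] at heq
  have h1 := Fin.castLE_injective hB heq
  have h2 := B.equivFin.injective h1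
  exact hne (Subtype.ext_iff.1 h2)

end

theorem crit (h : TKempe) : TCrit := by
  intro V E _ _ _ _ G B hdeg hB hmin
  classical
  have key := crit_deg G B hB hmin
  refine ⟨?_, ?_, ?_⟩
  · intro v hv
    have hpos : 0 < (B.filter fun e => v ∈ G.ends e).card := by
      have : dg G B v = (B.filter fun e => v ∈ G.ends e).card := rfl
      omega
    obtain ⟨e, he⟩ := Finset.card_pos.1 hpos
    rw [mem_filter] at he
    obtain ⟨w, hw⟩ := Sym2.mem_iff_exists.1 he.2
    have := key e he.1 v w hw
    have := hdeg w
    omega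
  · by_contra hlt
    exact hB (clb_of_card_le G B (by omega))
  · set N2 : Finset V := univ.filter fun v => dg G B v = 2 with hN2
    set N3 : Finset V := univ.filter fun v => dg G B v = 3 with hN3
    set P : Finset (Σ _ : V, E) := N2.sigma (fun y => B.filter fun e => y ∈ G.ends e) with hP
    have cP : P.card = 2 * N2.card := by
      rw [hP, Finset.card_sigma]
      have : ∀ y ∈ N2, (B.filter fun e => y ∈ G.ends e).card = 2 := by
        intro y hy
        rw [hN2, mem_filter] at hy
        exact hy.2
      rw [Finset.sum_congr rfl this, Finset.sum_const, smul_eq_mul]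
      ring
    rw [← cP]
    let g : (Σ _ : V, E) → V := fun p => if h : p.1 ∈ G.ends p.2 then Sym2.Mem.other h else p.1
    have hg : ∀ p ∈ P, G.ends p.2 = s(p.1, g p) ∧ p.2 ∈ B ∧ dg G B p.1 = 2 := by
      intro p hp
      rw [hP, mem_sigma, hN2, mem_filter, mem_filter] at hp
      refine ⟨?_, hp.2.1, hp.1.2⟩
      simp only [g, hp.2.2, dif_pos]
      exact (Sym2.other_spec hp.2.2).symm
    refine Finset.card_le_card_of_injOn g ?_ ?_
    · intro p hp
      obtain ⟨h1, h2, h3⟩ := hg p hp
      have := key p.2 h2 p.1 (g p) h1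
      have := hdeg (g p)
      rw [hN3]
      simp only [coe_filter, mem_univ, true_and, Set.mem_ofPred_eq]
      omega
    · intro p hp q hq hpq
      obtain ⟨h1, h2, h3⟩ := hg p hp
      obtain ⟨k1, k2, k3⟩ := hg q hq
      have hpq' : g p = g q := hpq
      by_cases hne : p.2 = q.2
      · have : s(p.1, g p) = s(q.1, g p) := by
          rw [← h1, hne, k1, hpq']
        have h4 : p.1 = q.1 := Sym2.congr_left.1 this
        cases p; cases q
        simp only at hne h4
        subst hne; subst h4; rfl
      · exfalso
        exact h V E G B hdeg hB hmin (g p) p.1 q.1 p.2 q.2 h2 k2 hne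
          (by rw [h1]; exact Sym2.eq_swap) (by rw [k1, hpq']; exact Sym2.eq_swap) h3 k3

end Pool.Agent.H10R3.SC
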