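import Pool.Agent.H10R3.SC.Stmts
import Pool.Agent.H444.FA.Circ
import Pool.Agent.H444.FA.StepE

set_option autoImplicit false
set_option linter.unusedSectionVars false

/-!
Task TExtFr of the project H10-SC: the graph with the gadget satisfies the general conditions.
-/

open Finset

namespace Pool.Agent.H10R3.SC.ExtFr

open Pool.Agent.Helper347.Sab
open Pool.Agent.H444.FA
open Pool.Agent.Helper998.Near (Rch)

theorem third_mem {α : Type} {z : Sym2 α} {a b c : α} (ha : a ∈ z) (hb : b ∈ z) (hab : a ≠ b)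
    (hc : c ∈ z) : c = a ∨ c = b := by
  have h := (Sym2.mem_and_mem_iff hab).1 ⟨ha, hb⟩
  rw [h, Sym2.mem_iff] at hc
  exact hc

section

variable {V E : Type} [Fintype V] [DecidableEq V] [Fintype E] [DecidableEq E]
variable {G : MGraph V E} {H D : Finset E} {X : Finset V} {d : ℕ} {x : Fin d → V} {ℓ : Fin d → E}

theorem leg_of (hL : Lg G H X x ℓ) {e : E} (he : e ∈ H) {u v : V} (hu : u ∈ G.ends e)
    (huX : u ∈ X) (hv : v ∈ G.ends e) (hvX : v ∉ X) : ∃ j, e = ℓ j ∧ v = x j := by
  obtain ⟨j, rfl⟩ := (hL.cut e).1 (by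
    rw [SC.cut, mem_filter]
    exact ⟨he, ⟨u, hu, huX⟩, v, hv, hvX⟩)
  refine ⟨j, rfl, ?_⟩
  have huv : u ≠ v := fun h => hvX (h ▸ huX)
  rcases third_mem hu hv huv (hL.mem j) with h | h
  · exact absurd (h ▸ huX) (hL.xout j)
  · exact h.symm

theorem leg_prop (hL : Lg G H X x ℓ) (j : Fin d) : ℓ j ∈ H ∧ ∃ u, u ∈ G.ends (ℓ j) ∧ u ∈ X := by
  have h := (hL.cut (ℓ j)).2 ⟨j, rfl⟩
  rw [SC.cut, mem_filter] at h
  exact ⟨h.1, h.2.1⟩

theorem dg_ne {e : E} (he : e ∈ H) {v : V} (hv : v ∈ G.ends e) : dg G H v ≠ 0 := by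
  unfold dg
  rw [Ne, card_eq_zero, filter_eq_empty_iff]
  intro h
  exact h he hv

theorem mem_A {e : E} : e ∈ H \ tou G H X ↔ e ∈ H ∧ ∀ u, u ∈ G.ends e → u ∉ X := by
  rw [mem_sdiff, tou, mem_filter]
  constructor
  · rintro ⟨h1, h2⟩
    exact ⟨h1, fun u hu huX => h2 ⟨h1, u, hu, huX⟩⟩
  · rintro ⟨h1, h2⟩
    exact ⟨h1, fun ⟨_, u, hu, huX⟩ => h2 u hu huX⟩

theorem dgA_out (hL : Lg G H X x ℓ) {v : V} (hv : v ∉ X) (hx : ∀ j, v ≠ x j) :
    dg G (H \ tou G H X) v = dg G H v := by
  unfold dg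
  congr 1
  ext e
  rw [mem_filter, mem_filter, mem_A]
  constructor
  · rintro ⟨⟨h1, _⟩, h2⟩
    exact ⟨h1, h2⟩
  · rintro ⟨h1, h2⟩
    refine ⟨⟨h1, fun u hu huX => ?_⟩, h2⟩
    obtain ⟨j, _, hj⟩ := leg_of hL h1 hu huX h2 hv
    exact hx j hj

theorem dgA_in {v : V} (hv : v ∈ X) : dg G (H \ tou G H X) v = 0 := by
  unfold dg
  rw [card_eq_zero, filter_eq_empty_iff]
  intro e he hve
  exact (mem_A.1 he).2 v hve hv

theorem dgA_leg (hL : Lg G H X x ℓ) (j : Fin d) :
    dg G (H \ tou G H X) (x j) + 1 = dg G H (x j) := by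
  unfold dg
  have h1 : (H.filter fun e => x j ∈ G.ends e) =
      insert (ℓ j) ((H \ tou G H X).filter fun e => x j ∈ G.ends e) := by
    ext e
    rw [mem_insert, mem_filter, mem_filter, mem_A]
    constructor
    · rintro ⟨h1, h2⟩
      by_cases h3 : ∀ u, u ∈ G.ends e → u ∉ X
      · exact Or.inr ⟨⟨h1, h3⟩, h2⟩
      · push Not at h3
        obtain ⟨u, hu, huX⟩ := h3
        obtain ⟨j', h4, h5⟩ := leg_of hL h1 hu huX h2 (hL.xout j)
        left
        rw [h4, hL.xinj h5]
    · rintro (rfl | ⟨⟨h1, _⟩, h2⟩)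
      · exact ⟨(leg_prop hL j).1, hL.mem j⟩
      · exact ⟨h1, h2⟩
  rw [h1, card_insert_of_notMem]
  rw [mem_filter, mem_A]
  rintro ⟨⟨_, h2⟩, _⟩
  obtain ⟨_, u, hu, huX⟩ := leg_prop hL j
  exact h2 u hu huX

theorem card_legs (hL : Lg G H X x ℓ) : (SC.cut G H X).card = d := by
  have h1 : SC.cut G H X = univ.image ℓ := by
    ext e
    rw [hL.cut, mem_image]
    constructor
    · rintro ⟨j, rfl⟩
      exact ⟨j, mem_univ _, rfl⟩
    · rintro ⟨j, _, rfl⟩
      exact ⟨j, rfl⟩
  rw [h1, card_image_of_injective _ hL.linj, card_univ, Fintype.card_fin]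

theorem cut_compl (Y : Finset V) : SC.cut G H Yᶜ = SC.cut G H Y := by
  ext e
  rw [SC.cut, SC.cut, mem_filter, mem_filter]
  simp only [mem_compl, not_not]
  tauto

/-- the old vertices off `X` in `Y1` -/
def oldY {a : ℕ} (X : Finset V) (Y1 : Finset (V ⊕ Fin a)) : Finset V :=
  univ.filter fun v => v ∉ X ∧ (Sum.inl v : V ⊕ Fin a) ∈ Y1

theorem card_cut_ext {a b : ℕ} (g : Fin b → Sym2 (V ⊕ Fin a)) (hg : ∀ j, ¬ (g j).IsDiag)
    (Y1 : Finset (V ⊕ Fin a)) :
    (SC.cut (ext G g hg) (inG (H \ tou G H X)) Y1).card =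
      (SC.cut G (H \ tou G H X) (oldY X Y1)).card +
      (univ.filter fun k => (∃ u, u ∈ g k ∧ u ∈ Y1) ∧ ∃ w, w ∈ g k ∧ w ∉ Y1).card := by
  have h1 : SC.cut (ext G g hg) (inG (H \ tou G H X)) Y1 =
      (SC.cut G (H \ tou G H X) (oldY X Y1)).map ⟨Sum.inl, Sum.inl_injective⟩ ∪
      (univ.filter fun k => (∃ u, u ∈ g k ∧ u ∈ Y1) ∧ ∃ w, w ∈ g k ∧ w ∉ Y1).map
        ⟨Sum.inr, Sum.inr_injective⟩ := by
    ext e
    rw [mem_union, mem_map, mem_map]
    rcases e with e | k
    · constructor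
      · intro h
        left
        rw [SC.cut, mem_filter, inl_mem_inG] at h
        obtain ⟨h1, ⟨u, hu, huY⟩, w, hw, hwY⟩ := h
        refine ⟨e, ?_, rfl⟩
        rw [SC.cut, mem_filter]
        refine ⟨h1, ?_, ?_⟩
        · rcases u with u | u
          · rw [ext_inl_inl] at hu
            exact ⟨u, hu, mem_filter.2 ⟨mem_univ _, (mem_A.1 h1).2 u hu, huY⟩⟩
          · exact absurd hu (ext_inr_inl G g hg e u)
        · rcases w with w | w
          · rw [ext_inl_inl] at hw
            exact ⟨w, hw, fun h => hwY (mem_filter.1 h).2.2⟩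
          · exact absurd hw (ext_inr_inl G g hg e w)
      · rintro (⟨e', h, h'⟩ | ⟨k, _, h'⟩)
        · have h2 : e' = e := Sum.inl_injective h'
          subst h2
          rw [SC.cut, mem_filter] at h
          obtain ⟨h1, ⟨u, hu, huY⟩, w, hw, hwY⟩ := h
          rw [SC.cut, mem_filter, inl_mem_inG]
          refine ⟨h1, ⟨Sum.inl u, (ext_inl_inl G g hg _ _).2 hu, (mem_filter.1 huY).2.2⟩,
            Sum.inl w, (ext_inl_inl G g hg _ _).2 hw, fun h => hwY ?_⟩
          exact mem_filter.2 ⟨mem_univ _, (mem_A.1 h1).2 w hw, h⟩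
        · exact absurd h' (by simp)
    · constructor
      · intro h
        right
        rw [SC.cut, mem_filter] at h
        obtain ⟨_, h2⟩ := h
        exact ⟨k, mem_filter.2 ⟨mem_univ _, h2⟩, rfl⟩
      · rintro (⟨e', _, h'⟩ | ⟨k', h, h'⟩)
        · exact absurd h' (by simp)
        · have h2 : k' = k := Sum.inr_injective h'
          subst h2
          rw [SC.cut, mem_filter]
          exact ⟨inr_mem_inG _ _, (mem_filter.1 h).2⟩
  rw [h1, card_union_of_disjoint, card_map, card_map]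
  rw [disjoint_left]
  intro e h2 h3
  rw [mem_map] at h2 h3
  obtain ⟨e1, _, rfl⟩ := h2
  obtain ⟨j, _, h4⟩ := h3
  exact absurd h4 (by simp)

end

theorem extFr (h1 : TCnt) (h2 : TSide) (h3 : TEvCut) : TExtFr := by
  intro V E _ _ _ _ G H D ι _ κ hF i X hM d x ℓ hL a b g hG hg
  have hXD : ∀ v ∈ X, dg G D v = 0 ∧ κ v = i := by
    intro v hv
    have h := hM.sub hv
    rw [cls, mem_filter] at h
    exact ⟨h.2.1, h.2.2.2⟩
  have hDA : ∀ e ∈ D, e ∈ H \ tou G H X := by
    intro e he
    rw [mem_A]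
    exact ⟨hF.sub he, fun u hu huX => dg_ne he hu (hXD u huX).1⟩
  have hleg0 : ∀ v, (∀ j, v ≠ x j) →
      (univ.filter fun k => (Sum.inl v : V ⊕ Fin a) ∈ g k).card = 0 := by
    intro v hv
    rw [card_eq_zero, filter_eq_empty_iff]
    intro k _ hk
    obtain ⟨j, hj⟩ := hG.old k v hk
    exact hv j hj
  have hlab : ∀ j, dg G D (x j) = 0 → κ (x j) = i := by
    intro j hj
    obtain ⟨q1, u, hu, huX⟩ := leg_prop hL j
    rw [← (hXD u huX).2]
    exact hF.lab (ℓ j) q1 (x j) u (hL.mem j) hu hj (hXD u huX).1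
  have hcirc : IsCircuit (ext G g hg) (inE D) := circ V E G a b g hg D hF.circ
  have hdeg : ∀ v, dg (ext G g hg) (inG (H \ tou G H X)) (Sum.inl v) =
      if v ∈ X then 0 else dg G H v := by
    intro v
    rw [dg_inG]
    by_cases hv : v ∈ X
    · rw [if_pos hv, dgA_in hv, hleg0 v fun j hj => hL.xout j (hj ▸ hv)]
    · rw [if_neg hv]
      by_cases hj : ∃ j, v = x j
      · obtain ⟨j, rfl⟩ := hj
        rw [hG.leg j, dgA_leg hL]
      · push Not at hj
        rw [hleg0 v hj, dgA_out hL hv hj, add_zero]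
  have hdeg' : ∀ w : Fin a, dg (ext G g hg) (inG (H \ tou G H X)) (Sum.inr w) = 3 := by
    intro w
    rw [dg_new, ← hG.new w]
    congr 1
    ext k
    simp [inr_mem_inG]
  refine ⟨?_, hcirc, ?_, ?_, ?_, ?_⟩
  · rintro (e | k) he
    · rw [mem_inE] at he
      rw [inl_mem_inG]
      exact hDA e he
    · exact absurd he (inr_notMem_inE _ k)
  · rintro (v | w)
    · rw [hdeg]
      split_ifs
      · exact Nat.zero_le _
      · exact hF.le3 v
    · rw [hdeg']
  · rintro (v | w) hv
    · rw [dg_inE] at hv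
      rw [hdeg]
      split_ifs
      · exact Or.inl rfl
      · exact hF.off v hv
    · exact Or.inr (hdeg' w)
  · rintro (e | k) he u w hu hw hu0 hw0
    · rw [inl_mem_inG] at he
      rcases u with u | u
      · rcases w with w | w
        · rw [ext_inl_inl] at hu hw
          rw [dg_inE] at hu0 hw0
          exact hF.lab e (mem_A.1 he).1 u w hu hw hu0 hw0
        · exact absurd hw (ext_inr_inl G g hg e w)
      · exact absurd hu (ext_inr_inl G g hg e u)
    · have key : ∀ u : V ⊕ Fin a, u ∈ g k → dg (ext G g hg) (inE D) u = 0 →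
          Sum.elim κ (fun _ => i) u = i := by
        rintro (u | u) hu hu0
        · rw [dg_inE] at hu0
          obtain ⟨j, rfl⟩ := hG.old k u hu
          exact hlab j hu0
        · rfl
      rw [key u hu hu0, key w hw hw0]
  · intro Y0 hY0
    -- no vertex of `D` is in `Y1`
    have hcutD : SC.cut (ext G g hg) (inE D) Y0 = ∅ := by
      have q1 : Even (SC.cut (ext G g hg) (inE D) Y0).card := by
        apply h3
        intro v
        rcases hcirc.2.1 v with h | h <;> rw [h]
        · exact Even.zero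
        · exact even_two
      have q2 : (SC.cut (ext G g hg) (inE D) Y0).card ≤
          (SC.cut (ext G g hg) (inG (H \ tou G H X)) Y0).card := by
        apply card_le_card
        intro e he
        rw [SC.cut, mem_filter] at he ⊢
        refine ⟨?_, he.2⟩
        have he1 := he.1
        rcases e with e | k
        · rw [mem_inE] at he1
          rw [inl_mem_inG]
          exact hDA e he1
        · exact absurd he1 (inr_notMem_inE _ k)
      rw [hY0] at q2
      rw [← card_eq_zero]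
      obtain ⟨m, hm⟩ := q1
      omega
    obtain ⟨Y1, hY1, hD1⟩ : ∃ Y1 : Finset (V ⊕ Fin a),
        (SC.cut (ext G g hg) (inG (H \ tou G H X)) Y1).card = 1 ∧
        ∀ v, dg G D v = 2 → (Sum.inl v : V ⊕ Fin a) ∉ Y1 := by
      rcases h2 _ _ _ _ _ hcirc hcutD with h | h
      · refine ⟨Y0ᶜ, by rw [cut_compl]; exact hY0, fun v hv => ?_⟩
        rw [mem_compl, not_not]
        exact h _ (by rw [dg_inE]; exact hv)
      · exact ⟨Y0, hY0, fun v hv => h _ (by rw [dg_inE]; exact hv)⟩
    clear hY0 hcutD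
    set Y := oldY X Y1 with hY
    have hYm : ∀ v, v ∈ Y ↔ v ∉ X ∧ (Sum.inl v : V ⊕ Fin a) ∈ Y1 := by
      intro v
      rw [hY, oldY, mem_filter]
      exact ⟨fun h => h.2, fun h => ⟨mem_univ _, h⟩⟩
    have hYD : ∀ v ∈ Y, dg G D v = 0 := by
      intro v hv
      rcases hF.circ.2.1 v with h | h
      · exact h
      · exact absurd ((hYm v).1 hv).2 (hD1 v h)
    have hXY : Disjoint X Y := by
      rw [disjoint_left]
      intro v hv hv'
      exact ((hYm v).1 hv').1 hv
    obtain ⟨c1, c2⟩ := h1 V E G H X d x ℓ hL Y hXY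
    rw [card_cut_ext, ← hY] at hY1
    by_cases hj : ∃ j, x j ∈ Y
    · obtain ⟨j, hj⟩ := hj
      have hjc : x j ∈ cls G H D κ i := by
        rw [cls, mem_filter]
        exact ⟨mem_univ _, hYD _ hj, dg_ne (leg_prop hL j).1 (hL.mem j), hlab j (hYD _ hj)⟩
      have m1 := hM.max (X ∪ (Y ∩ cls G H D κ i)) (by
        rw [Finset.ssubset_iff_of_subset subset_union_left]
        exact ⟨x j, mem_union_right _ (mem_inter.2 ⟨hj, hjc⟩), hL.xout j⟩)
        (union_subset hM.sub inter_subset_right)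
      have m2 : (SC.cut G H (X ∪ (Y ∩ cls G H D κ i))).card ≤ (SC.cut G H (X ∪ Y)).card := by
        apply card_le_card
        intro e he
        rw [SC.cut, mem_filter] at he ⊢
        obtain ⟨he1, ⟨u, hu, huX⟩, w, hw, hwX⟩ := he
        refine ⟨he1, ⟨u, hu, ?_⟩, w, hw, ?_⟩
        · rw [mem_union, mem_inter] at huX
          rw [mem_union]
          exact huX.imp id And.left
        · rw [mem_union, mem_inter] at huX hwX
          rw [mem_union]
          rintro (h | h)
          · exact hwX (Or.inl h)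
          · have u0 : dg G D u = 0 ∧ κ u = i := by
              rcases huX with h' | h'
              · exact hXD u h'
              · have h4 := h'.2
                rw [cls, mem_filter] at h4
                exact ⟨h4.2.1, h4.2.2.2⟩
            apply hwX
            refine Or.inr ⟨h, ?_⟩
            rw [cls, mem_filter]
            refine ⟨mem_univ _, hYD w h, dg_ne he1 hw, ?_⟩
            rw [hF.lab e he1 w u hw hu (hYD w h) u0.1]
            exact u0.2
      have m3 : (univ.filter fun j => x j ∉ Y).card + 1 ≤ d := by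
        have : (univ.filter fun j => x j ∉ Y).card < (univ : Finset (Fin d)).card := by
          apply card_lt_card
          rw [Finset.ssubset_iff_of_subset (filter_subset _ _)]
          exact ⟨j, mem_univ _, fun h => (mem_filter.1 h).2 hj⟩
        rw [card_univ, Fintype.card_fin] at this
        exact this
      have m4 := hM.four
      rw [card_legs hL] at m4
      omega
    · push Not at hj
      have m1 := hF.br Y
      have m2 : (univ.filter fun j => x j ∈ Y).card = 0 := by
        rw [card_eq_zero, filter_eq_empty_iff]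
        intro j _
        exact hj j
      have m3 := hG.nocut Y1 fun j h => hj j ((hYm _).2 ⟨hL.xout j, h⟩)
      omega

end Pool.Agent.H10R3.SC.ExtFr

namespace Pool.Agent.H10R3.SC

/-- **Task TExtFr.** -/
theorem extFr (h1 : TCnt) (h2 : TSide) (h3 : TEvCut) : TExtFr := ExtFr.extFr h1 h2 h3

end Pool.Agent.H10R3.SC
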