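import Pool.Agent.H10R3.SC.Defs
import Pool.Agent.H444.FA.Path

set_option autoImplicit false
set_option linter.unusedSectionVars false

/-!
Task A1 (TKempe) of project H10-SC, by helper973.
-/

open Finset

namespace Pool.Agent.H10R3.SC.KE

open Pool.Agent.Helper347.Sab

variable {V E : Type} [Fintype V] [DecidableEq V] [Fintype E] [DecidableEq E]

/-- proper colouring of `F` -/
def Prp (G : MGraph V E) (F : Finset E) (col : E → Fin 3) : Prop :=
  ∀ (v : V) (e f : E), e ∈ F → f ∈ F → v ∈ G.ends e → v ∈ G.ends f → e ≠ f → col e ≠ col f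

/-- colours present at `u` -/
def Pr (G : MGraph V E) (F : Finset E) (col : E → Fin 3) (u : V) : Finset (Fin 3) :=
  (F.filter fun e => u ∈ G.ends e).image col

theorem mem_Pr {G : MGraph V E} {F : Finset E} {col : E → Fin 3} {u : V} {x : Fin 3} :
    x ∈ Pr G F col u ↔ ∃ e, e ∈ F ∧ u ∈ G.ends e ∧ col e = x := by
  unfold Pr
  rw [mem_image]
  constructor
  · rintro ⟨e, he, rfl⟩
    rw [mem_filter] at he
    exact ⟨e, he.1, he.2, rfl⟩
  · rintro ⟨e, he, hu, rfl⟩
    exact ⟨e, mem_filter.2 ⟨he, hu⟩, rfl⟩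

theorem card_Pr {G : MGraph V E} {F : Finset E} {col : E → Fin 3} (h : Prp G F col) (u : V) :
    (Pr G F col u).card = dg G F u := by
  unfold Pr dg
  apply card_image_of_injOn
  intro e he f hf hef
  rw [mem_coe, mem_filter] at he hf
  by_contra hne
  exact h u e f he.1 hf.1 he.2 hf.2 hne hef

/-- the edges of two colours -/
def DD (F : Finset E) (col : E → Fin 3) (a c : Fin 3) : Finset E :=
  F.filter fun e => col e = a ∨ col e = c

theorem dg_DD {G : MGraph V E} {F : Finset E} {col : E → Fin 3} (h : Prp G F col) {a c : Fin 3}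
    (hac : a ≠ c) (u : V) : dg G (DD F col a c) u =
      (if a ∈ Pr G F col u then 1 else 0) + (if c ∈ Pr G F col u then 1 else 0) := by
  have h1 : dg G (DD F col a c) u = (({a, c} : Finset (Fin 3)).filter fun x => x ∈ Pr G F col u).card := by
    have h2 : (({a, c} : Finset (Fin 3)).filter fun x => x ∈ Pr G F col u) =
        ((DD F col a c).filter fun e => u ∈ G.ends e).image col := by
      ext x
      rw [mem_filter, mem_Pr, mem_image, mem_insert, mem_singleton]
      constructor
      · rintro ⟨hx, e, he, hu, rfl⟩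
        exact ⟨e, mem_filter.2 ⟨mem_filter.2 ⟨he, hx⟩, hu⟩, rfl⟩
      · rintro ⟨e, he, rfl⟩
        rw [mem_filter, DD, mem_filter] at he
        exact ⟨he.1.2, e, he.1.1, he.2, rfl⟩
    rw [h2]
    unfold dg
    rw [card_image_of_injOn]
    intro e he f hf hef
    rw [mem_coe, mem_filter, DD, mem_filter] at he hf
    by_contra hne
    exact h u e f he.1.1 hf.1.1 he.2 hf.2 hne hef
  rw [h1, card_filter, sum_pair hac]

theorem odd_DD {G : MGraph V E} {F : Finset E} {col : E → Fin 3} (h : Prp G F col) {a c : Fin 3}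
    (hac : a ≠ c) (u : V) : Odd (dg G (DD F col a c) u) ↔
      ¬ (a ∈ Pr G F col u ↔ c ∈ Pr G F col u) := by
  rw [dg_DD h hac]
  by_cases h1 : a ∈ Pr G F col u <;> by_cases h2 : c ∈ Pr G F col u <;> simp [h1, h2]

/-- the swapped colouring -/
def swp (col : E → Fin 3) (a c : Fin 3) (P : Finset E) (e : E) : Fin 3 :=
  if e ∈ P then Equiv.swap a c (col e) else col e

theorem all_or_none {G : MGraph V E} {F : Finset E} {col : E → Fin 3} (h : Prp G F col) {a c : Fin 3}
    (hac : a ≠ c) {P : Finset E} (hP : P ⊆ DD F col a c)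
    (hodd : ∀ u, Odd (dg G P u) → Odd (dg G (DD F col a c) u)) (u : V) :
    (P.filter fun e => u ∈ G.ends e) = ∅ ∨
      (P.filter fun e => u ∈ G.ends e) = (DD F col a c).filter fun e => u ∈ G.ends e := by
  by_contra hcon
  rw [not_or] at hcon
  have hsub : (P.filter fun e => u ∈ G.ends e) ⊆ (DD F col a c).filter fun e => u ∈ G.ends e :=
    filter_subset_filter _ hP
  have hlt := card_lt_card (hsub.ssubset_of_ne hcon.2)
  have hpos := card_pos.2 (nonempty_iff_ne_empty.2 hcon.1)
  have h1 := dg_DD h hac u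
  have h2 : ((DD F col a c).filter fun e => u ∈ G.ends e).card = dg G (DD F col a c) u := rfl
  have h3 : (P.filter fun e => u ∈ G.ends e).card = dg G P u := rfl
  rw [h2, h3] at hlt
  rw [h3] at hpos
  have h4 : dg G (DD F col a c) u ≤ 2 := by
    rw [h1]
    split_ifs <;> omega
  have h5 : dg G P u = 1 := by omega
  have h6 : dg G (DD F col a c) u = 2 := by omega
  have h7 := hodd u (by rw [h5]; exact odd_one)
  rw [h6] at h7
  exact absurd h7 (by decide)

theorem swap_col {G : MGraph V E} {F : Finset E} {col : E → Fin 3} {a c : Fin 3} {P : Finset E}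
    (hP : P ⊆ DD F col a c) {u : V}
    (hall : (P.filter fun e => u ∈ G.ends e) = (DD F col a c).filter fun e => u ∈ G.ends e)
    {e : E} (he : e ∈ F) (hu : u ∈ G.ends e) : swp col a c P e = Equiv.swap a c (col e) := by
  unfold swp
  split_ifs with h1
  · rfl
  · have h2 : ¬ (col e = a ∨ col e = c) := by
      intro h3
      have h4 : e ∈ (DD F col a c).filter fun e => u ∈ G.ends e :=
        mem_filter.2 ⟨mem_filter.2 ⟨he, h3⟩, hu⟩
      rw [← hall, mem_filter] at h4
      exact h1 h4.1
    rw [not_or] at h2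
    rw [Equiv.swap_apply_of_ne_of_ne h2.1 h2.2]

theorem swap_spec {G : MGraph V E} {F : Finset E} {col : E → Fin 3} (h : Prp G F col) {a c : Fin 3}
    (hac : a ≠ c) {P : Finset E} (hP : P ⊆ DD F col a c)
    (hodd : ∀ u, Odd (dg G P u) → Odd (dg G (DD F col a c) u)) :
    Prp G F (swp col a c P) ∧
      (∀ u, Odd (dg G P u) → ∀ x, x ∈ Pr G F (swp col a c P) u ↔ Equiv.swap a c x ∈ Pr G F col u) ∧
      (∀ u, ¬ Odd (dg G P u) → ∀ x, x ∈ Pr G F (swp col a c P) u ↔ x ∈ Pr G F col u) := by
  have hnone : ∀ u, (P.filter fun e => u ∈ G.ends e) = ∅ → ∀ e, u ∈ G.ends e →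
      swp col a c P e = col e := by
    intro u hu e he
    unfold swp
    rw [if_neg]
    intro h1
    have : e ∈ P.filter fun e => u ∈ G.ends e := mem_filter.2 ⟨h1, he⟩
    rw [hu] at this
    exact notMem_empty _ this
  have hswap : ∀ u, (P.filter fun e => u ∈ G.ends e) = (DD F col a c).filter (fun e => u ∈ G.ends e) →
      ∀ x, x ∈ Pr G F (swp col a c P) u ↔ Equiv.swap a c x ∈ Pr G F col u := by
    intro u hu x
    rw [mem_Pr, mem_Pr]
    constructor
    · rintro ⟨e, he, heu, rfl⟩
      refine ⟨e, he, heu, ?_⟩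
      rw [swap_col hP hu he heu]
      simp
    · rintro ⟨e, he, heu, hx⟩
      refine ⟨e, he, heu, ?_⟩
      rw [swap_col hP hu he heu, hx]
      simp
  refine ⟨?_, ?_, ?_⟩
  · intro u e f he hf hue huf hne
    rcases all_or_none h hac hP hodd u with h1 | h1
    · rw [hnone u h1 e hue, hnone u h1 f huf]
      exact h u e f he hf hue huf hne
    · rw [swap_col hP h1 he hue, swap_col hP h1 hf huf]
      intro h2
      exact h u e f he hf hue huf hne ((Equiv.swap a c).injective h2)
  · intro u hu x
    rcases all_or_none h hac hP hodd u with h1 | h1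
    · exfalso
      have : dg G P u = 0 := by
        unfold dg; rw [h1]; rfl
      rw [this] at hu
      exact absurd hu (by decide)
    · exact hswap u h1 x
  · intro u hu x
    rcases all_or_none h hac hP hodd u with h1 | h1
    · rw [mem_Pr, mem_Pr]
      constructor
      · rintro ⟨e, he, heu, rfl⟩
        exact ⟨e, he, heu, (hnone u h1 e heu).symm⟩
      · rintro ⟨e, he, heu, rfl⟩
        exact ⟨e, he, heu, hnone u h1 e heu⟩
    · rw [hswap u h1 x]
      have h2 : dg G P u = dg G (DD F col a c) u := by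
        unfold dg; rw [h1]
      rw [h2, odd_DD h hac, not_not] at hu
      by_cases hxa : x = a
      · subst hxa
        rw [Equiv.swap_apply_left]
        exact hu.symm
      · by_cases hxc : x = c
        · subst hxc
          rw [Equiv.swap_apply_right]
          exact hu
        · rw [Equiv.swap_apply_of_ne_of_ne hxa hxc]

theorem kempe : TKempe := by
  intro V E _ _ _ _ G B hdeg hB hsub v y1 y2 e1 e2 he1 he2 hne hend1 hend2 hy1 hy2
  set F := B.erase e1 with hF
  have hFB : F ⊂ B := erase_ssubset he1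
  have he2F : e2 ∈ F := mem_erase.2 ⟨hne.symm, he2⟩
  have hv1 : v ∈ G.ends e1 := by rw [hend1]; exact Sym2.mem_mk_left _ _
  have hy1m : y1 ∈ G.ends e1 := by rw [hend1]; exact Sym2.mem_mk_right _ _
  have hv2 : v ∈ G.ends e2 := by rw [hend2]; exact Sym2.mem_mk_left _ _
  have hy2m : y2 ∈ G.ends e2 := by rw [hend2]; exact Sym2.mem_mk_right _ _
  have hvy1 : v ≠ y1 := by
    intro h
    apply G.loopless e1
    rw [hend1, h]
    exact Sym2.mk_isDiag_iff.mpr rfl
  have hvy2 : v ≠ y2 := by
    intro h
    apply G.loopless e2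
    rw [hend2, h]
    exact Sym2.mk_isDiag_iff.mpr rfl
  have hm1 : ∀ u, u ∈ G.ends e1 ↔ u = v ∨ u = y1 := by
    intro u; rw [hend1, Sym2.mem_iff]
  have hm2 : ∀ u, u ∈ G.ends e2 ↔ u = v ∨ u = y2 := by
    intro u; rw [hend2, Sym2.mem_iff]
  have hdF : ∀ u, dg G B u = dg G F u + (if u ∈ G.ends e1 then 1 else 0) := fun u =>
    Pool.Agent.H444.FA.path_dg_erase G B e1 he1 u
  have hdv : dg G F v ≤ 2 := by
    have h1 := hdF v
    rw [if_pos hv1] at h1
    have h2 := hdeg v
    omega
  have hdy1 : dg G F y1 = 1 := by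
    have h1 := hdF y1
    rw [if_pos hy1m] at h1
    omega
  -- Lemma A
  have hA : ∀ col : E → Fin 3, Prp G F col → ∀ x, x ∈ Pr G F col v ∨ x ∈ Pr G F col y1 := by
    intro col hcol x
    by_contra hcon
    rw [not_or] at hcon
    apply hB
    refine ⟨Function.update col e1 x, ?_⟩
    have hmiss : ∀ u f, u ∈ G.ends e1 → f ∈ F → u ∈ G.ends f → col f ≠ x := by
      intro u f hu hf huf hfx
      rcases (hm1 u).1 hu with h | h
      · subst h
        exact hcon.1 (mem_Pr.2 ⟨f, hf, huf, hfx⟩)
      · subst h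
        exact hcon.2 (mem_Pr.2 ⟨f, hf, huf, hfx⟩)
    intro u e f he hf hue huf hef
    by_cases h1 : e = e1
    · subst h1
      have hfF : f ∈ F := mem_erase.2 ⟨hef.symm, hf⟩
      rw [Function.update_self, Function.update_of_ne hef.symm]
      exact (hmiss u f hue hfF huf).symm
    · by_cases h2 : f = e1
      · subst h2
        have heF : e ∈ F := mem_erase.2 ⟨hef, he⟩
        rw [Function.update_self, Function.update_of_ne hef]
        exact hmiss u e huf heF hue
      · rw [Function.update_of_ne h1, Function.update_of_ne h2]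
        exact hcol u e f (mem_erase.2 ⟨h1, he⟩) (mem_erase.2 ⟨h2, hf⟩) hue huf hef
  -- Lemma B
  have hBB : ∀ col : E → Fin 3, Prp G F col → ∀ a, (∀ x, x ∈ Pr G F col y1 ↔ x = a) →
      (∀ x, x ∈ Pr G F col v ↔ x ≠ a) → a ∈ Pr G F col y2 := by
    intro col hcol a ha1 hav
    by_contra hcon
    have hbv : col e2 ∈ Pr G F col v := mem_Pr.2 ⟨e2, he2F, hv2, rfl⟩
    have hba : col e2 ≠ a := (hav _).1 hbv
    have hmiss : ∀ u f, u ∈ G.ends e2 → f ∈ F → u ∈ G.ends f → col f ≠ a := by
      intro u f hu hf huf hfa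
      rcases (hm2 u).1 hu with h | h
      · subst h
        exact (hav a).1 (mem_Pr.2 ⟨f, hf, huf, hfa⟩) rfl
      · subst h
        exact hcon (mem_Pr.2 ⟨f, hf, huf, hfa⟩)
    have hcol2 : Prp G F (Function.update col e2 a) := by
      intro u e f he hf hue huf hef
      by_cases h1 : e = e2
      · subst h1
        rw [Function.update_self, Function.update_of_ne hef.symm]
        exact (hmiss u f hue hf huf).symm
      · by_cases h2 : f = e2
        · subst h2
          rw [Function.update_self, Function.update_of_ne hef]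
          exact hmiss u e huf he hue
        · rw [Function.update_of_ne h1, Function.update_of_ne h2]
          exact hcol u e f he hf hue huf hef
    rcases hA _ hcol2 (col e2) with h1 | h1
    · obtain ⟨e, he, hve, hce⟩ := mem_Pr.1 h1
      by_cases h2 : e = e2
      · rw [h2, Function.update_self] at hce
        exact hba hce.symm
      · rw [Function.update_of_ne h2] at hce
        exact hcol v e e2 he he2F hve hv2 h2 hce
    · obtain ⟨e, he, hve, hce⟩ := mem_Pr.1 h1
      by_cases h2 : e = e2
      · rw [h2, Function.update_self] at hce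
        exact hba hce.symm
      · rw [Function.update_of_ne h2] at hce
        exact hba ((ha1 _).1 (mem_Pr.2 ⟨e, he, hve, hce⟩))
  -- a colouring
  obtain ⟨col, hcol⟩ := hsub F hFB
  have hcol' : Prp G F col := hcol
  have hcv := card_Pr hcol' v
  have hcy1 := card_Pr hcol' y1
  have hunion : Pr G F col v ∪ Pr G F col y1 = univ := by
    ext x
    simp only [mem_union, mem_univ, iff_true]
    exact hA col hcol' x
  have hcardu : (Pr G F col v ∪ Pr G F col y1).card = 3 := by
    rw [hunion]; simp
  have hinter : (Pr G F col v ∩ Pr G F col y1).card = 0 := by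
    have := card_union_add_card_inter (Pr G F col v) (Pr G F col y1)
    omega
  rw [card_eq_zero] at hinter
  obtain ⟨a, ha⟩ := card_eq_one.1 (hcy1.trans hdy1)
  have ha1 : ∀ x, x ∈ Pr G F col y1 ↔ x = a := by
    intro x; rw [ha, mem_singleton]
  have hav : ∀ x, x ∈ Pr G F col v ↔ x ≠ a := by
    intro x
    constructor
    · rintro hx rfl
      have : x ∈ Pr G F col v ∩ Pr G F col y1 := mem_inter.2 ⟨hx, (ha1 x).2 rfl⟩
      rw [hinter] at this
      exact notMem_empty _ this
    · intro hx
      rcases hA col hcol' x with h | h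
      · exact h
      · exact absurd ((ha1 x).1 h) hx
  have hbv : col e2 ∈ Pr G F col v := mem_Pr.2 ⟨e2, he2F, hv2, rfl⟩
  have hba : col e2 ≠ a := (hav _).1 hbv
  have hby2 : col e2 ∈ Pr G F col y2 := mem_Pr.2 ⟨e2, he2F, hy2m, rfl⟩
  have hay2 : a ∈ Pr G F col y2 := hBB col hcol' a ha1 hav
  have hy12 : y1 ≠ y2 := by
    intro h
    rw [← h] at hby2
    exact hba ((ha1 _).1 hby2)
  have hcy2 : (Pr G F col y2).card = 2 := by
    rw [card_Pr hcol']
    have h1 := hdF y2
    rw [if_neg] at h1
    · omega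
    · rw [hm1]
      rintro (h | h)
      · exact hvy2 h.symm
      · exact hy12 h.symm
  obtain ⟨c, hca, hcb⟩ : ∃ c : Fin 3, c ≠ a ∧ c ≠ col e2 := by
    have : ∀ p q : Fin 3, ∃ c : Fin 3, c ≠ p ∧ c ≠ q := by decide
    exact this a (col e2)
  have hcy2' : c ∉ Pr G F col y2 := by
    intro h
    have h1 : ({a, col e2, c} : Finset (Fin 3)) ⊆ Pr G F col y2 := by
      intro x hx
      rw [mem_insert, mem_insert, mem_singleton] at hx
      rcases hx with rfl | rfl | rfl
      · exact hay2
      · exact hby2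
      · exact h
    have h2 := card_le_card h1
    have h3 : ({a, col e2, c} : Finset (Fin 3)).card = 3 := by
      rw [card_insert_of_notMem, card_pair hcb.symm]
      rw [mem_insert, mem_singleton]
      rintro (h | h)
      · exact hba h.symm
      · exact hca h.symm
    omega
  have hac : a ≠ c := hca.symm
  set D := DD F col a c with hD
  have hcv' : c ∈ Pr G F col v := (hav c).2 hca
  have hav' : a ∉ Pr G F col v := fun h => (hav a).1 h rfl
  have hcy1' : c ∉ Pr G F col y1 := fun h => hca ((ha1 c).1 h)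
  have hay1 : a ∈ Pr G F col y1 := (ha1 a).2 rfl
  have hD1 : Odd (dg G D y1) := by
    rw [odd_DD hcol' hac]
    intro h
    exact hcy1' (h.1 hay1)
  have hD2 : Odd (dg G D y2) := by
    rw [odd_DD hcol' hac]
    intro h
    exact hcy2' (h.1 hay2)
  -- a swap touching y1 but not v
  have key : ∀ P : Finset E, P ⊆ D → (∀ u, Odd (dg G P u) → Odd (dg G D u)) →
      Odd (dg G P y1) → ¬ Odd (dg G P v) → False := by
    intro P hP hodd h1 h2
    obtain ⟨h3, h4, h5⟩ := swap_spec hcol' hac hP hodd
    rcases hA _ h3 a with h6 | h6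
    · exact hav' ((h5 v h2 a).1 h6)
    · have h7 := (h4 y1 h1 a).1 h6
      rw [Equiv.swap_apply_left] at h7
      exact hcy1' h7
  obtain ⟨t1, ht1, ht1o, P1, hP1, hP1o⟩ := Pool.Agent.H444.FA.path V E G D y1 hD1
  have hP1D : ∀ u, Odd (dg G P1 u) → Odd (dg G D u) := by
    intro u hu
    rcases (hP1o u).1 hu with h | h
    · rw [h]; exact hD1
    · rw [h]; exact ht1o
  have ht1v : t1 = v := by
    by_contra hcon
    refine key P1 hP1 hP1D ((hP1o y1).2 (Or.inl rfl)) ?_
    rw [hP1o]
    rintro (h | h)
    · exact hvy1 h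
    · exact hcon h.symm
  subst ht1v
  obtain ⟨t2, ht2, ht2o, P2, hP2, hP2o⟩ := Pool.Agent.H444.FA.path V E G D y2 hD2
  have hP2D : ∀ u, Odd (dg G P2 u) → Odd (dg G D u) := by
    intro u hu
    rcases (hP2o u).1 hu with h | h
    · rw [h]; exact hD2
    · rw [h]; exact ht2o
  by_cases h21 : t2 = y1
  · subst h21
    refine key P2 hP2 hP2D ((hP2o t2).2 (Or.inr rfl)) ?_
    rw [hP2o]
    rintro (h | h)
    · exact hvy2 h
    · exact hvy1 h
  · by_cases h2v : t2 = t1
    · subst h2v
      have hsd : ∀ u, Odd (dg G (symmDiff P1 P2) u) ↔ ¬ (Odd (dg G P1 u) ↔ Odd (dg G P2 u)) := by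
        intro u
        have h := Pool.Agent.Helper347.Sab.dg_symmDiff G P1 P2 u
        rw [Nat.odd_iff, Nat.odd_iff, Nat.odd_iff]
        omega
      refine key (symmDiff P1 P2) ?_ ?_ ?_ ?_
      · intro e he
        rcases mem_symmDiff.1 he with h | h
        · exact hP1 h.1
        · exact hP2 h.1
      · intro u hu
        rw [hsd] at hu
        by_cases h : Odd (dg G P1 u)
        · exact hP1D u h
        · by_cases h' : Odd (dg G P2 u)
          · exact hP2D u h'
          · exact absurd (iff_of_false h h') hu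
      · rw [hsd, hP1o, hP2o]
        intro h
        have := h.1 (Or.inl rfl)
        rcases this with h | h
        · exact hy12 h
        · exact h21 h.symm
      · rw [hsd, not_not, hP1o, hP2o]
        exact iff_of_true (Or.inr rfl) (Or.inr rfl)
    · -- swap P2, then a is missing at y2
      obtain ⟨h3, h4, h5⟩ := swap_spec hcol' hac hP2 hP2D
      have hn1 : ¬ Odd (dg G P2 y1) := by
        rw [hP2o]
        rintro (h | h)
        · exact hy12 h
        · exact h21 h.symm
      have hnv : ¬ Odd (dg G P2 t1) := by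
        rw [hP2o]
        rintro (h | h)
        · exact hvy2 h
        · exact h2v h.symm
      have h6 := hBB _ h3 a (fun x => (h5 y1 hn1 x).trans (ha1 x)) (fun x => (h5 t1 hnv x).trans (hav x))
      rw [h4 y2 ((hP2o y2).2 (Or.inl rfl)), Equiv.swap_apply_left] at h6
      exact hcy2' h6

end Pool.Agent.H10R3.SC.KE

namespace Pool.Agent.H10R3.SC

theorem kempe : TKempe := KE.kempe

end Pool.Agent.H10R3.SC
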