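import Pool.Agent.H10R3.SC.Stmts
import Pool.Agent.H444.FA.Cdc

set_option autoImplicit false
set_option linter.unusedSectionVars false

/-!
The final theorem from the main theorem (project H10-SC, task TResult; helper811).
-/

open Finset

namespace Pool.Agent.H10R3.SC

open Pool.Agent.Helper347.Sab
open Pool.Agent.H444.FA

section

variable {V E : Type} [Fintype V] [DecidableEq V] [Fintype E] [DecidableEq E]

theorem mem_cut {G : MGraph V E} {H : Finset E} {Y : Finset V} {e : E} :
    e ∈ cut G H Y ↔ e ∈ H ∧ (∃ u, u ∈ G.ends e ∧ u ∈ Y) ∧ ∃ w, w ∈ G.ends e ∧ w ∉ Y := by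
  unfold cut
  rw [mem_filter]

theorem cut_mono {G : MGraph V E} {H H' : Finset E} (h : H ⊆ H') (Y : Finset V) :
    cut G H Y ⊆ cut G H' Y := by
  intro e he
  rw [mem_cut] at he ⊢
  exact ⟨h he.1, he.2⟩

theorem ins_mono {G : MGraph V E} {H H' : Finset E} (h : H ⊆ H') (Y : Finset V) :
    ins G H Y ⊆ ins G H' Y := by
  intro e he
  unfold ins at he ⊢
  rw [mem_filter] at he ⊢
  exact ⟨h he.1, he.2⟩

theorem Clb.mono {G : MGraph V E} {B B' : Finset E} (h : B ⊆ B') (hB : Clb G B') : Clb G B := by
  obtain ⟨col, hcol⟩ := hB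
  exact ⟨col, fun v e f he hf => hcol v e f (h he) (h hf)⟩

theorem sameComp_off {G : MGraph V E} {D : Finset E} {v u : V} (hv : dg G D v = 0)
    (h : SameComp G D v u) : dg G D u = 0 := by
  unfold SameComp at h
  induction h with
  | refl => exact hv
  | tail _ h2 _ => exact h2.1

theorem sameComp_symm {G : MGraph V E} {D : Finset E} {v u : V} (hv : dg G D v = 0)
    (h : SameComp G D v u) : SameComp G D u v := by
  unfold SameComp at h ⊢
  induction h with
  | refl => exact Relation.ReflTransGen.refl
  | @tail b c h1 h2 ih =>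
    obtain ⟨hc, e, he⟩ := h2
    refine Relation.ReflTransGen.head ⟨sameComp_off hv h1, e, ?_⟩ ih
    rw [he, Sym2.eq_swap]

theorem dg_pos_mem {G : MGraph V E} {H : Finset E} {e : E} {v : V} (he : e ∈ H) (hv : v ∈ G.ends e) :
    0 < dg G H v := by
  unfold dg
  exact card_pos.mpr ⟨e, mem_filter.mpr ⟨he, hv⟩⟩

theorem circ_ev {G : MGraph V E} {X : Finset E} (h : IsCircuit G X) : Ev G X := by
  intro v
  rcases h.2.1 v with h | h
  · rw [h]; exact Even.zero
  · rw [h]; exact even_two

end

theorem res (hm : TMain) (h2 : TSide) (h3 : TEvCut) : TResult := by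
  intro V E _ _ _ _ G hG hbr C hC D hD hCD hK
  suffices h : ∃ F : Multiset (Finset E), (∀ X ∈ F, IsCircuit G X) ∧
      (∀ e, F.countP (e ∈ ·) = if e ∈ (univ : Finset E) then 2 else 0) ∧ C ∈ F by
    obtain ⟨F, h1, h2, h3⟩ := h
    exact ⟨F, ⟨h1, fun e => by rw [h2 e, if_pos (mem_univ e)]⟩, h3⟩
  apply exchange G univ C D (subset_univ _) (subset_univ _) hC hD (fun w => (hG w).le)
  -- vertices of removed edges lie on D
  have hrem : ∀ f, f ∉ (univ : Finset E) \ (C \ D) → ∀ v ∈ G.ends f, dg G D v = 2 := by
    intro f hf v hv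
    have hf' : f ∈ C \ D := by
      by_contra h5
      exact hf (mem_sdiff.2 ⟨mem_univ _, h5⟩)
    rw [mem_sdiff] at hf'
    refine hCD v ((hC.2.1 v).resolve_left ?_)
    have := dg_pos_mem (G := G) hf'.1 hv
    omega
  obtain ⟨H, hH⟩ : ∃ H : Finset E, H = univ \ (C \ D) := ⟨_, rfl⟩
  rw [← hH] at hrem ⊢
  have hDH : D ⊆ H := by
    intro f hf
    rw [hH, mem_sdiff]
    exact ⟨mem_univ _, fun h => (mem_sdiff.1 h).2 hf⟩
  have hH3 : ∀ v, dg G H v ≤ 3 := fun v => by
    rw [← hG v]
    exact card_le_card (filter_subset_filter _ (subset_univ _))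
  have hoffH : ∀ v, dg G D v = 0 → ∀ e, v ∈ G.ends e → e ∈ H := by
    intro v hv e he
    by_contra hcon
    have := hrem e hcon v he
    omega
  have hoff : ∀ v, dg G D v = 0 → dg G H v = 3 := by
    intro v hv
    rw [← hG v]
    unfold dg
    congr 1
    ext e
    rw [mem_filter, mem_filter]
    exact ⟨fun h => ⟨mem_univ _, h.2⟩, fun h => ⟨hoffH v hv e h.2, h.2⟩⟩
  obtain ⟨κ, hκ⟩ : ∃ κ : V → Finset V, ∀ v u, u ∈ κ v ↔ SameComp G D v u := by
    classical
    exact ⟨fun v => univ.filter (fun u => SameComp G D v u), fun v u => by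
      rw [mem_filter]; exact ⟨fun h => h.2, fun h => ⟨mem_univ _, h⟩⟩⟩
  have hκeq : ∀ u w, dg G D u = 0 → SameComp G D u w → κ u = κ w := by
    intro u w hu huw
    have hwu := sameComp_symm hu huw
    ext x
    rw [hκ, hκ]
    exact ⟨fun h => Relation.ReflTransGen.trans hwu h, fun h => Relation.ReflTransGen.trans huw h⟩
  have hFr : Fr G H D κ := by
    refine ⟨hDH, hD, hH3, fun v hv => Or.inr (hoff v hv), ?_, ?_⟩
    · intro e _ u w hu hw hu0 hw0
      by_cases huw : u = w
      · rw [huw]
      · apply hκeq u w hu0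
        refine Relation.ReflTransGen.single ⟨hw0, e, ?_⟩
        exact ((Sym2.mem_and_mem_iff huw).mp ⟨hu, hw⟩)
    · intro Y hY
      obtain ⟨e, he⟩ := card_eq_one.mp hY
      have hDcut : cut G D Y = ∅ := by
        have h4 : cut G D Y ⊆ {e} := he ▸ cut_mono hDH Y
        have h5 := h3 V E G D Y (circ_ev hD)
        rcases subset_singleton_iff.mp h4 with h6 | h6
        · exact h6
        · rw [h6, card_singleton] at h5
          exact absurd h5 (by decide)
      have hside := h2 V E G D Y hD hDcut
      have huniv : cut G univ Y = {e} := by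
        rw [← he]
        apply subset_antisymm _ (cut_mono (subset_univ _) Y)
        intro f hf
        rw [mem_cut] at hf ⊢
        refine ⟨?_, hf.2⟩
        by_contra hcon
        obtain ⟨_, ⟨u, hu, huY⟩, ⟨w, hw, hwY⟩⟩ := hf
        have hu2 := hrem f hcon u hu
        have hw2 := hrem f hcon w hw
        rcases hside with h | h
        · exact hwY (h w hw2)
        · exact h u hu2 huY
      obtain ⟨X, hX, heX⟩ := hbr e
      have h4 : cut G X Y ⊆ {e} := huniv ▸ cut_mono (subset_univ _) Y
      have h5 : e ∈ cut G X Y := by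
        have h6 : e ∈ cut G univ Y := by rw [huniv]; exact mem_singleton_self e
        rw [mem_cut] at h6 ⊢
        exact ⟨heX, h6.2⟩
      have h6 : cut G X Y = {e} := subset_antisymm h4 (singleton_subset_iff.mpr h5)
      have h7 := h3 V E G X Y (circ_ev hX)
      rw [h6, card_singleton] at h7
      exact absurd h7 (by decide)
  have hOk : ∀ i, Ok G H D κ i := by
    intro i
    rcases (cls G H D κ i).eq_empty_or_nonempty with hemp | ⟨v, hv⟩
    · right; right; left
      rw [hemp, card_empty]; norm_num
    · have hv' := hv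
      unfold cls at hv'
      rw [mem_filter] at hv'
      obtain ⟨_, hv0, _, hvi⟩ := hv'
      have hcls : cls G H D κ i = i := by
        ext u
        unfold cls
        rw [mem_filter]
        constructor
        · rintro ⟨_, hu0, _, hui⟩
          rw [← hui, hκ]
          exact Relation.ReflTransGen.refl
        · intro hu
          rw [← hvi, hκ] at hu
          have hu0 := sameComp_off hv0 hu
          refine ⟨mem_univ _, hu0, ?_, ?_⟩
          · rw [hoff u hu0]; norm_num
          · rw [← hκeq v u hv0 hu, hvi]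
      have hKi := hK v hv0 i (by intro u; rw [← hvi]; exact hκ v u)
      unfold Ok
      rcases hKi with h | h | h | h
      · left
        rw [hcls]
        exact h.mono (ins_mono (subset_univ _) i)
      · right; left
        rw [hcls]
        exact (card_le_card (cut_mono (subset_univ _) i)).trans h
      · right; right; left
        rw [hcls]; exact h
      · right; right; right
        refine le_trans (card_le_card ?_) h
        intro u hu
        unfold inn at hu
        rw [mem_filter] at hu
        have hu1 := hu.1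
        rw [hcls] at hu1
        have hu0 : dg G D u = 0 := by
          have := hu.1
          unfold cls at this
          rw [mem_filter] at this
          exact this.2.1
        rw [mem_filter]
        exact ⟨hu1, fun e he w hw => hu.2 e (hoffH u hu0 e he) he w hw⟩
  have hgood : Good G H D := hm H.card V E G H D (Finset V) κ hFr hOk rfl
  obtain ⟨F, h1, h2, h3⟩ := Pool.Agent.H444.FA.cdc V E G H D hDH hH3 hD.2.1 hgood
  exact ⟨F, h1, h2, h3 D hD (Subset.refl _)⟩

end Pool.Agent.H10R3.SC
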