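import Pool.Agent.H10R3.SC.Stmts

set_option autoImplicit false
set_option linter.unusedSectionVars false

/-!
Counting the edges of `H` that cross `Y` and `X ∪ Y` (task TCnt of project H10-SC).
-/

open Finset

namespace Pool.Agent.H10R3.SC

open Pool.Agent.Helper347.Sab

namespace Cnt

variable {V E : Type} [Fintype V] [DecidableEq V] [Fintype E] [DecidableEq E]

/-- an edge with an end `u` in `X` and an end `v` outside is a leg with outer end `v` -/
theorem uniq (G : MGraph V E) (H : Finset E) (X : Finset V) {d : ℕ} (x : Fin d → V)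
    (ℓ : Fin d → E) (hL : Lg G H X x ℓ) {e : E} (he : e ∈ H) {u v : V} (hu : u ∈ G.ends e)
    (huX : u ∈ X) (hv : v ∈ G.ends e) (hvX : v ∉ X) : ∃ j, e = ℓ j ∧ v = x j := by
  have hc : e ∈ cut G H X := by
    simp only [cut, mem_filter]
    exact ⟨he, ⟨u, hu, huX⟩, v, hv, hvX⟩
  obtain ⟨j, rfl⟩ := (hL.cut e).mp hc
  refine ⟨j, rfl, ?_⟩
  have hne : u ≠ v := fun h => hvX (h ▸ huX)
  have hends : G.ends (ℓ j) = s(u, v) := (Sym2.mem_and_mem_iff hne).mp ⟨hu, hv⟩
  have hx := hL.mem j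
  rw [hends, Sym2.mem_iff] at hx
  rcases hx with hx | hx
  · exact absurd (hx ▸ huX) (hL.xout j)
  · exact hx.symm

/-- the inner end of a leg -/
theorem inner (G : MGraph V E) (H : Finset E) (X : Finset V) {d : ℕ} (x : Fin d → V)
    (ℓ : Fin d → E) (hL : Lg G H X x ℓ) (j : Fin d) :
    ℓ j ∈ H ∧ ∃ u, u ∈ X ∧ G.ends (ℓ j) = s(u, x j) := by
  have hc : ℓ j ∈ cut G H X := (hL.cut _).mpr ⟨j, rfl⟩
  simp only [cut, mem_filter] at hc
  obtain ⟨hH, ⟨u, hu, huX⟩, -⟩ := hc
  refine ⟨hH, u, huX, ?_⟩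
  have hne : u ≠ x j := fun h => hL.xout j (h ▸ huX)
  exact (Sym2.mem_and_mem_iff hne).mp ⟨hu, hL.mem j⟩

theorem cutY (G : MGraph V E) (H : Finset E) (X : Finset V) {d : ℕ} (x : Fin d → V)
    (ℓ : Fin d → E) (hL : Lg G H X x ℓ) (Y : Finset V) (hXY : Disjoint X Y) :
    cut G H Y = cut G (H \ tou G H X) Y ∪ (univ.filter fun j => x j ∈ Y).image ℓ := by
  ext e
  simp only [mem_union, mem_image, mem_filter, mem_univ, true_and]
  constructor
  · intro he
    have he' := he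
    simp only [cut, mem_filter] at he'
    obtain ⟨heH, ⟨u, hu, huY⟩, w, hw, hwY⟩ := he'
    have huX : u ∉ X := fun h => (Finset.disjoint_left.mp hXY h) huY
    by_cases ht : e ∈ tou G H X
    · right
      simp only [tou, mem_filter] at ht
      obtain ⟨-, a, ha, haX⟩ := ht
      obtain ⟨j, rfl, hj⟩ := uniq G H X x ℓ hL heH ha haX hu huX
      exact ⟨j, hj ▸ huY, rfl⟩
    · left
      simp only [cut, mem_filter, mem_sdiff]
      exact ⟨⟨heH, ht⟩, ⟨u, hu, huY⟩, w, hw, hwY⟩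
  · rintro (he | ⟨j, hj, rfl⟩)
    · simp only [cut, mem_filter, mem_sdiff] at he ⊢
      exact ⟨he.1.1, he.2⟩
    · obtain ⟨hH, u, huX, hends⟩ := inner G H X x ℓ hL j
      simp only [cut, mem_filter]
      refine ⟨hH, ⟨x j, hL.mem j, hj⟩, u, ?_, Finset.disjoint_left.mp hXY huX⟩
      rw [hends]
      exact Sym2.mem_mk_left _ _

theorem cutXY (G : MGraph V E) (H : Finset E) (X : Finset V) {d : ℕ} (x : Fin d → V)
    (ℓ : Fin d → E) (hL : Lg G H X x ℓ) (Y : Finset V) (hXY : Disjoint X Y) :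
    cut G H (X ∪ Y) = cut G (H \ tou G H X) Y ∪ (univ.filter fun j => x j ∉ Y).image ℓ := by
  ext e
  simp only [mem_union, mem_image, mem_filter, mem_univ, true_and]
  constructor
  · intro he
    have he' := he
    simp only [cut, mem_filter, mem_union, not_or] at he'
    obtain ⟨heH, ⟨u, hu, huXY⟩, w, hw, hwX, hwY⟩ := he'
    by_cases ht : e ∈ tou G H X
    · right
      simp only [tou, mem_filter] at ht
      obtain ⟨-, a, ha, haX⟩ := ht
      obtain ⟨j, rfl, hj⟩ := uniq G H X x ℓ hL heH ha haX hw hwX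
      exact ⟨j, hj ▸ hwY, rfl⟩
    · left
      have huX : u ∉ X := by
        intro h
        apply ht
        simp only [tou, mem_filter]
        exact ⟨heH, u, hu, h⟩
      simp only [cut, mem_filter, mem_sdiff]
      exact ⟨⟨heH, ht⟩, ⟨u, hu, huXY.resolve_left huX⟩, w, hw, hwY⟩
  · rintro (he | ⟨j, hj, rfl⟩)
    · simp only [cut, mem_filter, mem_sdiff, mem_union, not_or] at he ⊢
      obtain ⟨⟨heH, ht⟩, ⟨u, hu, huY⟩, w, hw, hwY⟩ := he
      refine ⟨heH, ⟨u, hu, Or.inr huY⟩, w, hw, ?_, hwY⟩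
      intro h
      apply ht
      simp only [tou, mem_filter]
      exact ⟨heH, w, hw, h⟩
    · obtain ⟨hH, u, huX, hends⟩ := inner G H X x ℓ hL j
      simp only [cut, mem_filter, mem_union, not_or]
      refine ⟨hH, ⟨u, ?_, Or.inl huX⟩, x j, hL.mem j, hL.xout j, hj⟩
      rw [hends]
      exact Sym2.mem_mk_left _ _

theorem disj (G : MGraph V E) (H : Finset E) (X : Finset V) {d : ℕ} (x : Fin d → V)
    (ℓ : Fin d → E) (hL : Lg G H X x ℓ) (Y : Finset V) (S : Finset (Fin d)) :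
    Disjoint (cut G (H \ tou G H X) Y) (S.image ℓ) := by
  rw [Finset.disjoint_left]
  intro e he hS
  obtain ⟨j, -, rfl⟩ := mem_image.mp hS
  simp only [cut, mem_filter, mem_sdiff] at he
  apply he.1.2
  obtain ⟨hH, u, huX, hends⟩ := inner G H X x ℓ hL j
  simp only [tou, mem_filter]
  refine ⟨hH, u, ?_, huX⟩
  rw [hends]
  exact Sym2.mem_mk_left _ _

end Cnt

theorem cnt : TCnt := by
  intro V E _ _ _ _ G H X d x ℓ hL Y hXY
  constructor
  · rw [Cnt.cutY G H X x ℓ hL Y hXY, card_union_of_disjoint (Cnt.disj G H X x ℓ hL Y _),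
      card_image_of_injective _ hL.linj]
  · rw [Cnt.cutXY G H X x ℓ hL Y hXY, card_union_of_disjoint (Cnt.disj G H X x ℓ hL Y _),
      card_image_of_injective _ hL.linj]

end Pool.Agent.H10R3.SC
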