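import Pool.Agent.H10R3.SC.Stmts
import Pool.Agent.Helper998.Near.Core

set_option autoImplicit false
set_option linter.unusedSectionVars false

/-!
Strong circuit double covers (project H10-SC): tasks TCutBr, TEvCut, TSide (helper191).
-/

open Finset

namespace Pool.Agent.H10R3.SC

open Pool.Agent.Helper347.Sab
open Pool.Agent.H444.FA
open Pool.Agent.Helper998.Near
open Pool.Agent.Results.MP_0c3aa4_co.ThroughDominating

section

variable {V E : Type} [Fintype V] [DecidableEq V] [Fintype E] [DecidableEq E]

theorem dg_insert_cb (G : MGraph V E) {J : Finset E} {e : E} (he : e ∉ J) (x : V) :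
    dg G (insert e J) x = dg G J x + if x ∈ G.ends e then 1 else 0 := by
  unfold dg
  by_cases hx : x ∈ G.ends e
  · rw [filter_insert, if_pos hx, card_insert_of_notMem (fun h => he (mem_filter.1 h).1), if_pos hx]
  · rw [filter_insert, if_neg hx, if_neg hx, add_zero]

end

/-- C1 -/
theorem cutBr : TCutBr := by
  classical
  intro V E _ _ _ _ G H hcut e he
  obtain ⟨u, v, huv, hends⟩ := exists_ends G e
  by_cases hR : Rch G (H.erase e) u v
  · obtain ⟨J, hJ, hJd⟩ := join G (H.erase e) (fun x => if x = u then 1 else 0) (fun _ => v) (by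
      intro w hw
      by_cases h : w = u
      · subst h; exact hR
      · simp [h] at hw)
    have heJ : e ∉ J := fun h => by simpa using hJ h
    refine ⟨insert e J, ?_, mem_insert_self _ _, ?_⟩
    · intro f hf
      rcases mem_insert.1 hf with rfl | hf
      · exact he
      · exact mem_of_mem_erase (hJ hf)
    · intro x
      rw [even_iff_cast, dg_insert_cb G heJ x]
      push_cast
      rw [hJd x]
      have h1 : ∑ w : V, (if x = v then (if w = u then (1 : ZMod 2) else 0) else 0) =
          if x = v then 1 else 0 := by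
        by_cases h : x = v
        · simp [h]
        · simp [h]
      rw [h1, hends]
      simp only [Sym2.mem_iff]
      by_cases h2 : x = u
      · have h3 : x ≠ v := fun h => huv (h2.symm.trans h)
        simp only [h2, true_or, if_true]
        rw [if_neg huv]
        decide
      · by_cases h3 : x = v
        · simp only [h3, or_true, if_true]
          rw [if_neg (fun h => huv h.symm)]
          decide
        · simp [h2, h3]
  · exfalso
    apply hcut (univ.filter fun y => Rch G (H.erase e) u y)
    rw [card_eq_one]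
    refine ⟨e, ?_⟩
    ext f
    simp only [cut, mem_filter, mem_univ, true_and, mem_singleton]
    constructor
    · rintro ⟨hf, ⟨a, ha, hua⟩, b, hb, hub⟩
      by_contra hfe
      apply hub
      have hab : a ≠ b := by rintro rfl; exact hub hua
      exact Relation.ReflTransGen.tail hua
        ⟨f, mem_erase.2 ⟨hfe, hf⟩, (Sym2.mem_and_mem_iff hab).1 ⟨ha, hb⟩⟩
    · rintro rfl
      exact ⟨he, ⟨u, by rw [hends]; simp, Relation.ReflTransGen.refl⟩,
        v, by rw [hends]; simp, hR⟩

/-- C2 -/
theorem evCut : TEvCut := by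
  classical
  intro V E _ _ _ _ G Z Y hZ
  have h1 : ∑ y ∈ Y, ((dg G Z y : ℕ) : ZMod 2) = 0 := by
    refine sum_eq_zero fun y _ => ?_
    exact (even_iff_cast _).1 (hZ y)
  have h2 : ∑ y ∈ Y, ((dg G Z y : ℕ) : ZMod 2) =
      ∑ e ∈ Z, ∑ y ∈ Y, (if y ∈ G.ends e then (1 : ZMod 2) else 0) := by
    rw [sum_comm]
    refine sum_congr rfl fun y _ => ?_
    unfold dg
    rw [card_filter, Nat.cast_sum]
    refine sum_congr rfl fun e _ => ?_
    by_cases h : y ∈ G.ends e <;> simp [h]
  have h3 : ∀ e, ∑ y ∈ Y, (if y ∈ G.ends e then (1 : ZMod 2) else 0) =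
      if (∃ u, u ∈ G.ends e ∧ u ∈ Y) ∧ ∃ w, w ∈ G.ends e ∧ w ∉ Y then 1 else 0 := by
    intro e
    obtain ⟨u, v, huv, hends⟩ := exists_ends G e
    have h4 : ∑ y ∈ Y, (if y ∈ G.ends e then (1 : ZMod 2) else 0) =
        (if u ∈ Y then 1 else 0) + (if v ∈ Y then 1 else 0) := by
      have h5 : ∀ y, (if y ∈ G.ends e then (1 : ZMod 2) else 0) =
          (if y = u then 1 else 0) + (if y = v then 1 else 0) := by
        intro y
        rw [hends]
        simp only [Sym2.mem_iff]
        by_cases h6 : y = u
        · subst h6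
          simp [huv]
        · by_cases h7 : y = v
          · subst h7
            simp [h6]
          · simp [h6, h7]
      simp only [h5]
      rw [sum_add_distrib, sum_ite_eq', sum_ite_eq']
    rw [h4]
    have h8 : ((∃ w, w ∈ G.ends e ∧ w ∈ Y) ∧ ∃ w, w ∈ G.ends e ∧ w ∉ Y) ↔
        ((u ∈ Y ∨ v ∈ Y) ∧ (u ∉ Y ∨ v ∉ Y)) := by
      rw [hends]
      simp only [Sym2.mem_iff]
      constructor
      · rintro ⟨⟨w, h | h, hw⟩, ⟨w', h' | h', hw'⟩⟩ <;> subst h <;> subst h' <;> tauto
      · rintro ⟨h | h, h' | h'⟩
        · exact absurd h h'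
        · exact ⟨⟨u, Or.inl rfl, h⟩, v, Or.inr rfl, h'⟩
        · exact ⟨⟨v, Or.inr rfl, h⟩, u, Or.inl rfl, h'⟩
        · exact absurd h h'
    by_cases a : u ∈ Y <;> by_cases b : v ∈ Y
    · rw [if_pos a, if_pos b, if_neg (by rw [h8]; tauto)]; decide
    · rw [if_pos a, if_neg b, if_pos (by rw [h8]; tauto)]; decide
    · rw [if_neg a, if_pos b, if_pos (by rw [h8]; tauto)]; decide
    · rw [if_neg a, if_neg b, if_neg (by rw [h8]; tauto)]; decide
  rw [even_iff_cast]
  unfold cut
  rw [card_filter, Nat.cast_sum, ← h1, h2]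
  refine sum_congr rfl fun e _ => ?_
  rw [h3 e]
  split_ifs <;> simp

/-- C3 -/
theorem side : TSide := by
  classical
  intro V E _ _ _ _ G D Y hD hcut
  by_cases h : ∃ p, dg G D p = 2 ∧ p ∈ Y
  · obtain ⟨p, hp, hpY⟩ := h
    left
    intro q hq
    have hR := circ_reach G D hD p q hp hq
    clear hq
    induction hR with
    | refl => exact hpY
    | tail _ h2 ih =>
      rename_i b c _
      obtain ⟨e, he, hends⟩ := h2
      by_contra hc
      have : e ∈ cut G D Y := by
        unfold cut
        rw [mem_filter]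
        exact ⟨he, ⟨b, by rw [hends]; simp, ih⟩, c, by rw [hends]; simp, hc⟩
      rw [hcut] at this
      exact absurd this (notMem_empty _)
  · right
    intro v hv hvY
    exact h ⟨v, hv, hvY⟩

end Pool.Agent.H10R3.SC
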