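import Pool.Agent.H10R3.SC.Stmts

set_option autoImplicit false
set_option linter.unusedSectionVars false

/-!
Project H10-SC, task TExtOk (helper808): the label classes of the new graph are good again.
-/

open Finset

namespace Pool.Agent.H10R3.SC

namespace ExtOk

open Pool.Agent.Helper347.Sab
open Pool.Agent.H444.FA
open Pool.Agent.Helper998.Near (Rch)

variable {V E : Type} [Fintype V] [DecidableEq V] [Fintype E] [DecidableEq E]

theorem dg_ne_zero (G : MGraph V E) (F : Finset E) (v : V) :
    dg G F v ≠ 0 ↔ ∃ e, e ∈ F ∧ v ∈ G.ends e := by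
  unfold dg
  rw [card_ne_zero]
  constructor
  · rintro ⟨e, he⟩
    rw [mem_filter] at he
    exact ⟨e, he.1, he.2⟩
  · rintro ⟨e, he, hv⟩
    exact ⟨e, mem_filter.2 ⟨he, hv⟩⟩

/-- an edge of `H` with an end in `X` and an end `v` outside is a leg with outer end `v` -/
theorem leg_uniq {G : MGraph V E} {H : Finset E} {X : Finset V} {d : ℕ} {x : Fin d → V}
    {ℓ : Fin d → E} (hL : Lg G H X x ℓ) {e : E} (he : e ∈ H) {u v : V} (hu : u ∈ G.ends e)
    (huX : u ∈ X) (hv : v ∈ G.ends e) (hvX : v ∉ X) : ∃ j, e = ℓ j ∧ v = x j := by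
  have hc : e ∈ cut G H X := by
    unfold cut
    rw [mem_filter]
    exact ⟨he, ⟨u, hu, huX⟩, v, hv, hvX⟩
  obtain ⟨j, hj⟩ := (hL.cut e).1 hc
  refine ⟨j, hj, ?_⟩
  have hxj := hL.mem j
  rw [← hj] at hxj
  have hxX := hL.xout j
  have huv : u ≠ v := by
    rintro rfl
    exact hvX huX
  have hends : G.ends e = s(u, v) := (Sym2.mem_and_mem_iff huv).1 ⟨hu, hv⟩
  rw [hends, Sym2.mem_iff] at hxj
  rcases hxj with h | h
  · rw [h] at hxX
    exact absurd huX hxX
  · exact h.symm

theorem mem_cls {ι : Type} [DecidableEq ι] (G : MGraph V E) (H D : Finset E) (κ : V → ι) (i : ι)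
    (v : V) : v ∈ cls G H D κ i ↔ dg G D v = 0 ∧ dg G H v ≠ 0 ∧ κ v = i := by
  unfold cls
  rw [mem_filter]
  simp only [mem_univ, true_and]

theorem mem_inn {ι : Type} [DecidableEq ι] (G : MGraph V E) (H D : Finset E) (κ : V → ι) (i : ι)
    (v : V) : v ∈ inn G H D κ i ↔ v ∈ cls G H D κ i ∧
      ∀ e, e ∈ H → v ∈ G.ends e → ∀ w, w ∈ G.ends e → dg G D w = 0 := by
  unfold inn
  rw [mem_filter]

theorem mem_cut (G : MGraph V E) (H : Finset E) (Y : Finset V) (e : E) :
    e ∈ cut G H Y ↔ e ∈ H ∧ (∃ u, u ∈ G.ends e ∧ u ∈ Y) ∧ ∃ w, w ∈ G.ends e ∧ w ∉ Y := by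
  unfold cut
  rw [mem_filter]

theorem mem_ins (G : MGraph V E) (H : Finset E) (Y : Finset V) (e : E) :
    e ∈ ins G H Y ↔ e ∈ H ∧ ∀ u, u ∈ G.ends e → u ∈ Y := by
  unfold ins
  rw [mem_filter]

theorem mem_tou (G : MGraph V E) (H : Finset E) (Y : Finset V) (e : E) :
    e ∈ tou G H Y ↔ e ∈ H ∧ ∃ u, u ∈ G.ends e ∧ u ∈ Y := by
  unfold tou
  rw [mem_filter]

/-- a leg end off `D` has label `i` -/
theorem leg_lab {ι : Type} [DecidableEq ι] {G : MGraph V E} {H D : Finset E} {κ : V → ι}
    (hF : Fr G H D κ) {i : ι} {X : Finset V} (hM : Mx G H D κ i X) {d : ℕ} {x : Fin d → V}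
    {ℓ : Fin d → E} (hL : Lg G H X x ℓ) (j : Fin d) (h0 : dg G D (x j) = 0) : κ (x j) = i := by
  have hc : ℓ j ∈ cut G H X := (hL.cut _).2 ⟨j, rfl⟩
  rw [mem_cut] at hc
  obtain ⟨hH, ⟨u, hu, huX⟩, _⟩ := hc
  have hcls := (mem_cls G H D κ i u).1 (hM.sub huX)
  rw [← hcls.2.2]
  exact hF.lab (ℓ j) hH _ _ (hL.mem j) hu h0 hcls.1

theorem exists_mem_sym2 {α : Type} (z : Sym2 α) : ∃ u, u ∈ z := by
  induction z using Sym2.ind with
  | _ u v => exact ⟨u, Sym2.mem_mk_left u v⟩

section

variable {ι : Type} [DecidableEq ι] {G : MGraph V E} {H D : Finset E} {κ : V → ι}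

theorem inl_mem_cls {i : ι} {X : Finset V} {d : ℕ} {x : Fin d → V}
    {ℓ : Fin d → E} (hL : Lg G H X x ℓ) {a b : ℕ} {g : Fin b → Sym2 (V ⊕ Fin a)} (hG : Gdt x g)
    (hg : ∀ j, ¬ (g j).IsDiag) (v : V) (i' : ι) :
    (Sum.inl v : V ⊕ Fin a) ∈ cls (ext G g hg) (inG (H \ tou G H X)) (inE D)
      (Sum.elim κ fun _ => i) i' ↔ v ∈ cls G H D κ i' ∧ v ∉ X := by
  rw [mem_cls, mem_cls, dg_inE, Sum.elim_inl]
  have key : dg (ext G g hg) (inG (H \ tou G H X)) (Sum.inl v) ≠ 0 ↔ dg G H v ≠ 0 ∧ v ∉ X := by
    rw [dg_ne_zero, dg_ne_zero]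
    constructor
    · rintro ⟨e' | k, he, hv⟩
      · rw [inl_mem_inG, mem_sdiff, mem_tou] at he
        rw [ext_inl_inl] at hv
        exact ⟨⟨e', he.1, hv⟩, fun hX => he.2 ⟨he.1, v, hv, hX⟩⟩
      · rw [ext_inr] at hv
        obtain ⟨j, rfl⟩ := hG.old k v hv
        have hc : ℓ j ∈ cut G H X := (hL.cut _).2 ⟨j, rfl⟩
        rw [mem_cut] at hc
        exact ⟨⟨ℓ j, hc.1, hL.mem j⟩, hL.xout j⟩
    · rintro ⟨⟨e, he, hv⟩, hX⟩
      by_cases ht : e ∈ tou G H X
      · rw [mem_tou] at ht
        obtain ⟨_, u, hu, huX⟩ := ht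
        obtain ⟨j, _, rfl⟩ := leg_uniq hL he hu huX hv hX
        have h1 := hG.leg j
        have h2 : (univ.filter fun k => (Sum.inl (x j) : V ⊕ Fin a) ∈ g k).Nonempty := by
          rw [← card_ne_zero, h1]
          exact one_ne_zero
        obtain ⟨k, hk⟩ := h2
        rw [mem_filter] at hk
        exact ⟨Sum.inr k, inr_mem_inG _ k, hk.2⟩
      · refine ⟨Sum.inl e, ?_, ?_⟩
        · rw [inl_mem_inG, mem_sdiff]
          exact ⟨he, ht⟩
        · rw [ext_inl_inl]
          exact hv
  rw [key]
  tauto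

theorem inr_mem_cls {i : ι} {X : Finset V} {a b : ℕ} {g : Fin b → Sym2 (V ⊕ Fin a)}
    (hg : ∀ j, ¬ (g j).IsDiag) (w : Fin a) (i' : ι)
    (h : (Sum.inr w : V ⊕ Fin a) ∈ cls (ext G g hg) (inG (H \ tou G H X)) (inE D)
      (Sum.elim κ fun _ => i) i') : i' = i := by
  rw [mem_cls] at h
  exact h.2.2.symm

end

end ExtOk

open Pool.Agent.Helper347.Sab
open Pool.Agent.H444.FA
open ExtOk

theorem extOk : TExtOk := by
  intro V E _ _ _ _ G H D ι _ κ hF i X hM d x ℓ hL a b g hG hg hOk hNC hX2 hX i'
  by_cases hi : i' = i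
  · subst hi
    -- the class `i` itself
    have hK : cls (ext G g hg) (inG (H \ tou G H X)) (inE D) (Sum.elim κ fun _ => i') i' ⊆
        (cls G H D κ i' \ X).map ⟨Sum.inl, Sum.inl_injective⟩ ∪
          (univ : Finset (Fin a)).map ⟨Sum.inr, Sum.inr_injective⟩ := by
      rintro (v | w) hv
      · rw [inl_mem_cls hL hG] at hv
        rw [mem_union]
        left
        rw [mem_map]
        exact ⟨v, mem_sdiff.2 hv, rfl⟩
      · rw [mem_union]
        right
        rw [mem_map]
        exact ⟨w, mem_univ _, rfl⟩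
    have hN : inn (ext G g hg) (inG (H \ tou G H X)) (inE D) (Sum.elim κ fun _ => i') i' ⊆
        (inn G H D κ i' \ X).map ⟨Sum.inl, Sum.inl_injective⟩ ∪
          (univ : Finset (Fin a)).map ⟨Sum.inr, Sum.inr_injective⟩ := by
      rintro (v | w) hv
      · rw [mem_inn, inl_mem_cls hL hG] at hv
        obtain ⟨⟨hv1, hv2⟩, hv3⟩ := hv
        rw [mem_union]
        left
        rw [mem_map]
        refine ⟨v, mem_sdiff.2 ⟨?_, hv2⟩, rfl⟩
        rw [mem_inn]
        refine ⟨hv1, ?_⟩
        intro e he hve w hw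
        by_cases ht : e ∈ tou G H X
        · rw [mem_tou] at ht
          obtain ⟨_, u, hu, huX⟩ := ht
          have huv : u ≠ v := by
            rintro rfl
            exact hv2 huX
          have hends : G.ends e = s(u, v) := (Sym2.mem_and_mem_iff huv).1 ⟨hu, hve⟩
          rw [hends, Sym2.mem_iff] at hw
          rcases hw with rfl | rfl
          · exact ((mem_cls G H D κ i' w).1 (hM.sub huX)).1
          · exact ((mem_cls G H D κ i' w).1 hv1).1
        · have h1 := hv3 (Sum.inl e) (by
            rw [inl_mem_inG, mem_sdiff]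
            exact ⟨he, ht⟩) (by
            rw [ext_inl_inl]
            exact hve) (Sum.inl w) (by
            rw [ext_inl_inl]
            exact hw)
          rw [dg_inE] at h1
          exact h1
      · rw [mem_union]
        right
        rw [mem_map]
        exact ⟨w, mem_univ _, rfl⟩
    have ha := hG.a2
    have hcK : (cls (ext G g hg) (inG (H \ tou G H X)) (inE D)
        (Sum.elim κ fun _ => i') i').card ≤ (cls G H D κ i' \ X).card + a := by
      refine (card_le_card hK).trans ((card_union_le _ _).trans ?_)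
      rw [card_map, card_map, card_univ, Fintype.card_fin]
    have hcN : (inn (ext G g hg) (inG (H \ tou G H X)) (inE D)
        (Sum.elim κ fun _ => i') i').card ≤ (inn G H D κ i' \ X).card + a := by
      refine (card_le_card hN).trans ((card_union_le _ _).trans ?_)
      rw [card_map, card_map, card_univ, Fintype.card_fin]
    by_cases hXK : X = cls G H D κ i'
    · right; right; left
      rw [← hXK, sdiff_self] at hcK
      have h0 : (⊥ : Finset V).card = 0 := by simp
      rw [h0] at hcK
      omega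
    · have hXi : 2 ≤ (X ∩ inn G H D κ i').card := by
        rcases hX with h | h
        · exact h
        · exact absurd h hXK
      have hsub : X ⊂ cls G H D κ i' := (hM.sub).ssubset_of_ne hXK
      have hcard1 : (cls G H D κ i' \ X).card + X.card = (cls G H D κ i').card :=
        card_sdiff_add_card_eq_card hM.sub
      have hcard2 : (inn G H D κ i' \ X).card + (X ∩ inn G H D κ i').card =
          (inn G H D κ i').card := by
        rw [inter_comm]
        exact card_sdiff_add_card_inter _ _
      rcases hOk i' with h | h | h | h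
      · exact absurd h hNC
      · have h5 := hM.max _ hsub (Subset.refl _)
        omega
      · right; right; left
        omega
      · right; right; right
        omega
  · -- the other classes
    have hnoleg : ∀ v, v ∈ cls G H D κ i' → ∀ j, v ≠ x j := by
      rintro v hv j rfl
      rw [mem_cls] at hv
      exact hi (hv.2.2.symm.trans (leg_lab hF hM hL j hv.1))
    have hnoX : ∀ v, v ∈ cls G H D κ i' → v ∉ X := by
      intro v hv hvX
      rw [mem_cls] at hv
      have h2 := (mem_cls G H D κ i v).1 (hM.sub hvX)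
      exact hi (hv.2.2.symm.trans h2.2.2)
    have hK : cls (ext G g hg) (inG (H \ tou G H X)) (inE D) (Sum.elim κ fun _ => i) i' =
        (cls G H D κ i').map ⟨Sum.inl, Sum.inl_injective⟩ := by
      ext v
      rcases v with v | w
      · rw [inl_mem_cls hL hG, mem_map]
        constructor
        · rintro ⟨h1, _⟩
          exact ⟨v, h1, rfl⟩
        · rintro ⟨v', h1, h2⟩
          have h3 : v' = v := Sum.inl_injective h2
          rw [h3] at h1
          exact ⟨h1, hnoX v h1⟩
      · constructor
        · intro h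
          exact absurd (inr_mem_cls hg w i' h) hi
        · intro h
          rw [mem_map] at h
          obtain ⟨v', _, h2⟩ := h
          exact absurd h2 (by simp)
    -- membership of old vertices in the image
    have hmem : ∀ v : V, (Sum.inl v : V ⊕ Fin a) ∈
        (cls G H D κ i').map ⟨Sum.inl, Sum.inl_injective⟩ ↔ v ∈ cls G H D κ i' := by
      intro v
      rw [mem_map]
      constructor
      · rintro ⟨v', h1, h2⟩
        have h3 : v' = v := Sum.inl_injective h2
        rw [h3] at h1
        exact h1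
      · intro h
        exact ⟨v, h, rfl⟩
    have hgk : ∀ (k : Fin b) (u : V ⊕ Fin a), u ∈ g k →
        u ∉ (cls G H D κ i').map ⟨Sum.inl, Sum.inl_injective⟩ := by
      intro k u hu hu2
      rw [mem_map] at hu2
      obtain ⟨v, hv, rfl⟩ := hu2
      obtain ⟨j, hj⟩ := hG.old k v hu
      exact hnoleg v hv j hj
    rcases hOk i' with h | h | h | h
    · left
      obtain ⟨col, hcol⟩ := h
      refine ⟨Sum.elim col fun _ => 0, ?_⟩
      rw [hK]
      have hred : ∀ e', e' ∈ ins (ext G g hg) (inG (H \ tou G H X))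
          ((cls G H D κ i').map ⟨Sum.inl, Sum.inl_injective⟩) →
          ∃ e, e' = Sum.inl e ∧ e ∈ ins G H (cls G H D κ i') := by
        rintro (e | k) he
        · refine ⟨e, rfl, ?_⟩
          rw [mem_ins, inl_mem_inG, mem_sdiff] at he
          rw [mem_ins]
          refine ⟨he.1.1, ?_⟩
          intro u hu
          have h1 := he.2 (Sum.inl u) (by
            rw [ext_inl_inl]
            exact hu)
          rwa [hmem] at h1
        · exfalso
          rw [mem_ins] at he
          obtain ⟨u, hu⟩ := exists_mem_sym2 (g k)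
          exact hgk k u hu (he.2 u hu)
      intro v e' f' he hf hve hvf hne
      obtain ⟨e, rfl, he1⟩ := hred e' he
      obtain ⟨f, rfl, hf1⟩ := hred f' hf
      rcases v with v | w
      · rw [ext_inl_inl] at hve hvf
        rw [Sum.elim_inl, Sum.elim_inl]
        refine hcol v e f he1 hf1 hve hvf ?_
        rintro rfl
        exact hne rfl
      · exact absurd hve (ext_inr_inl G g hg e w)
    · right; left
      rw [hK]
      refine le_trans (card_le_card (t := (cut G H (cls G H D κ i')).map
        ⟨Sum.inl, Sum.inl_injective⟩) ?_) (by rw [card_map]; exact h)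
      rintro (e | k) he
      · rw [mem_cut, inl_mem_inG, mem_sdiff] at he
        obtain ⟨⟨h1, _⟩, ⟨u, hu, huK⟩, w, hw, hwK⟩ := he
        rw [mem_map]
        refine ⟨e, ?_, rfl⟩
        rw [mem_cut]
        refine ⟨h1, ?_, ?_⟩
        · rcases u with u | u
          · rw [ext_inl_inl] at hu
            rw [hmem] at huK
            exact ⟨u, hu, huK⟩
          · exact absurd hu (ext_inr_inl G g hg e u)
        · rcases w with w | w
          · rw [ext_inl_inl] at hw
            rw [hmem] at hwK
            exact ⟨w, hw, hwK⟩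
          · exact absurd hw (ext_inr_inl G g hg e w)
      · exfalso
        rw [mem_cut] at he
        obtain ⟨_, ⟨u, hu, huK⟩, _⟩ := he
        exact hgk k u hu huK
    · right; right; left
      rw [hK, card_map]
      exact h
    · right; right; right
      refine le_trans (card_le_card (t := (inn G H D κ i').map
        ⟨Sum.inl, Sum.inl_injective⟩) ?_) (by rw [card_map]; exact h)
      rintro (v | w) hv
      · rw [mem_inn, hK, hmem] at hv
        obtain ⟨hv1, hv2⟩ := hv
        rw [mem_map]
        refine ⟨v, ?_, rfl⟩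
        rw [mem_inn]
        refine ⟨hv1, ?_⟩
        intro e he hve w hw
        have ht : e ∉ tou G H X := by
          intro ht
          rw [mem_tou] at ht
          obtain ⟨_, u, hu, huX⟩ := ht
          obtain ⟨j, _, hj⟩ := leg_uniq hL he hu huX hve (hnoX v hv1)
          exact hnoleg v hv1 j hj
        have h1 := hv2 (Sum.inl e) (by
          rw [inl_mem_inG, mem_sdiff]
          exact ⟨he, ht⟩) (by
          rw [ext_inl_inl]
          exact hve) (Sum.inl w) (by
          rw [ext_inl_inl]
          exact hw)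
        rw [dg_inE] at h1
        exact h1
      · exfalso
        rw [mem_inn] at hv
        exact hi (inr_mem_cls hg w i' hv.1)

end Pool.Agent.H10R3.SC
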