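import Pool.Agent.H10R3.SC.Stmts

set_option autoImplicit false
set_option linter.unusedSectionVars false

/-! Project H10-SC: theorem `find`. -/

open Finset

namespace Pool.Agent.H10R3.SC.Find

open Pool.Agent.Helper347.Sab
open Pool.Agent.H10R3.SC

section

variable {V E : Type} [Fintype V] [DecidableEq V] [Fintype E] [DecidableEq E]

theorem dg_mono (G : MGraph V E) {A B : Finset E} (h : A ⊆ B) (v : V) :
    dg G A v ≤ dg G B v :=
  card_le_card (filter_subset_filter _ h)

theorem ends_pair (G : MGraph V E) (e : E) : ∃ a b : V, a ≠ b ∧ G.ends e = s(a, b) := by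
  have hl := G.loopless e
  induction h : G.ends e using Sym2.ind with
  | _ a b =>
    rw [h] at hl
    exact ⟨a, b, fun hab => hl (by rw [hab]; exact Sym2.diag_isDiag b), rfl⟩

/-- handshake lemma -/
theorem handshake (G : MGraph V E) (B : Finset E) : ∑ v, dg G B v = 2 * B.card := by
  have h1 : ∑ v, dg G B v = ∑ e ∈ B, (univ.filter fun v => v ∈ G.ends e).card := by
    simp only [dg, card_filter]
    rw [sum_comm]
  rw [h1]
  have h2 : ∀ e ∈ B, (univ.filter fun v => v ∈ G.ends e).card = 2 := by
    intro e _
    obtain ⟨a, b, hab, hE⟩ := ends_pair G e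
    have : (univ.filter fun v => v ∈ G.ends e) = {a, b} := by
      ext v
      simp [hE]
    rw [this, card_pair hab]
  rw [sum_congr rfl h2, sum_const, smul_eq_mul, mul_comm]

theorem clb_of_card_le (G : MGraph V E) (B : Finset E) (h : B.card ≤ 3) : Clb G B := by
  obtain ⟨f⟩ : Nonempty (B ↪ Fin 3) := Function.Embedding.nonempty_of_card_le (by simpa using h)
  refine ⟨fun e => if he : e ∈ B then f ⟨e, he⟩ else 0, ?_⟩
  intro v e e' he he' _ _ hne
  simp only [he, he', dif_pos]
  intro h
  exact hne (by simpa using f.injective h)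

theorem exists_min (G : MGraph V E) (S : Finset E) (h : ¬ Clb G S) :
    ∃ B ⊆ S, ¬ Clb G B ∧ ∀ B', B' ⊂ B → Clb G B' := by
  induction S using Finset.strongInduction with
  | H S ih =>
    by_cases hc : ∀ B', B' ⊂ S → Clb G B'
    · exact ⟨S, subset_rfl, h, hc⟩
    · push Not at hc
      obtain ⟨B', hB', hn⟩ := hc
      obtain ⟨B, hB, h1, h2⟩ := ih B' hB' hn
      exact ⟨B, hB.trans hB'.subset, h1, h2⟩

theorem filter_eq_of_le (G : MGraph V E) {B H : Finset E} (hBH : B ⊆ H) (v : V)
    (h : dg G H v ≤ dg G B v) {e : E} (he : e ∈ H) (hv : v ∈ G.ends e) : e ∈ B := by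
  have h1 : B.filter (fun e => v ∈ G.ends e) = H.filter (fun e => v ∈ G.ends e) :=
    eq_of_subset_of_card_le (filter_subset_filter _ hBH) h
  have h2 : e ∈ H.filter (fun e => v ∈ G.ends e) := mem_filter.2 ⟨he, hv⟩
  rw [← h1] at h2
  exact (mem_filter.1 h2).1

end

theorem find (h : TCrit) : TFind := by
  intro V E _ _ _ _ G H D ι _ κ hF i hOk hn
  classical
  have hins4 : 4 ≤ (ins G H (cls G H D κ i)).card := by
    by_contra hlt
    exact hn (clb_of_card_le G _ (by omega))
  by_cases h4 : (cut G H (cls G H D κ i)).card ≤ 4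
  · refine ⟨cls G H D κ i, subset_rfl, h4, hins4, ?_, Or.inr rfl⟩
    obtain ⟨e, he⟩ : (ins G H (cls G H D κ i)).Nonempty := card_pos.1 (by omega)
    obtain ⟨a, b, hab, hE⟩ := ends_pair G e
    have he' := (mem_filter.1 he).2
    have hsub : ({a, b} : Finset V) ⊆ cls G H D κ i := by
      intro v hv
      refine he' v ?_
      rw [hE]
      simpa using hv
    calc 2 = ({a, b} : Finset V).card := (card_pair hab).symm
      _ ≤ _ := card_le_card hsub
  · obtain ⟨B, hBs, hBn, hBm⟩ := exists_min G _ hn
    have hBH : B ⊆ H := hBs.trans (filter_subset _ _)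
    have hB3 : ∀ v, dg G B v ≤ 3 := fun v => (dg_mono G hBH v).trans (hF.le3 v)
    obtain ⟨hd1, hB4, hcount⟩ := h V E G B hB3 hBn hBm
    set N2 := univ.filter fun v => dg G B v = 2 with hN2
    set N3 := univ.filter fun v => dg G B v = 3 with hN3
    have hmem : ∀ v, v ∈ N2 ∪ N3 ↔ dg G B v ≠ 0 := by
      intro v
      have h1 := hd1 v
      have h3 := hB3 v
      simp only [hN2, hN3, mem_union, mem_filter, mem_univ, true_and]
      omega
    have hend : ∀ v, dg G B v ≠ 0 → ∃ e ∈ B, v ∈ G.ends e := by
      intro v hv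
      obtain ⟨e, he⟩ := card_pos.1 (Nat.pos_of_ne_zero hv)
      exact ⟨e, (mem_filter.1 he).1, (mem_filter.1 he).2⟩
    have hX0 : N2 ∪ N3 ⊆ cls G H D κ i := by
      intro v hv
      obtain ⟨e, he, hve⟩ := hend v ((hmem v).1 hv)
      exact (mem_filter.1 (hBs he)).2 v hve
    have hs : ∑ v, dg G B v = 2 * N2.card + 3 * N3.card := by
      rw [hN2, hN3, card_filter, card_filter, mul_sum, mul_sum, ← sum_add_distrib]
      refine sum_congr rfl fun v _ => ?_
      have h1 := hd1 v
      have h3 := hB3 v
      by_cases h2 : dg G B v = 2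
      · simp [h2]
      · by_cases h33 : dg G B v = 3
        · simp [h33]
        · simp [h2, h33]
          omega
    rw [handshake] at hs
    have hn3 : 2 ≤ N3.card := by omega
    have hinn : N3 ⊆ inn G H D κ i := by
      intro v hv
      have hv3 : dg G B v = 3 := by simpa [hN3] using hv
      refine mem_filter.2 ⟨hX0 (mem_union_right _ hv), ?_⟩
      intro e he hve w hw
      have heB : e ∈ B := filter_eq_of_le G hBH v (by rw [hv3]; exact hF.le3 v) he hve
      have hwc := (mem_filter.1 (hBs heB)).2 w hw
      exact (mem_filter.1 hwc).2.1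
    have hdisj : Disjoint N2 N3 := by
      rw [disjoint_left]
      intro v h2 h3
      have h2' : dg G B v = 2 := by simpa [hN2] using h2
      have h3' : dg G B v = 3 := by simpa [hN3] using h3
      omega
    have hn2 : N2.card ≤ 4 := by
      rcases hOk with hO | hO | hO | hO
      · exact absurd hO hn
      · exact absurd hO h4
      · have := card_le_card hX0
        rw [card_union_of_disjoint hdisj] at this
        omega
      · have := card_le_card hinn
        omega
    have hcut : (cut G H (N2 ∪ N3)).card ≤ N2.card := by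
      have hsub : cut G H (N2 ∪ N3) ⊆
          N2.biUnion (fun u => (H \ B).filter (fun e => u ∈ G.ends e)) := by
        intro e he
        obtain ⟨heH, ⟨u, hu, huX⟩, w, hw, hwX⟩ := mem_filter.1 he
        have heB : e ∉ B := by
          intro heB
          apply hwX
          rw [hmem]
          exact (card_pos.2 ⟨e, mem_filter.2 ⟨heB, hw⟩⟩).ne'
        have hu2 : u ∈ N2 := by
          rcases mem_union.1 huX with h2 | h3
          · exact h2
          · exfalso
            have hv3 : dg G B u = 3 := by simpa [hN3] using h3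
            exact heB (filter_eq_of_le G hBH u (by rw [hv3]; exact hF.le3 u) heH hu)
        exact mem_biUnion.2 ⟨u, hu2, mem_filter.2 ⟨mem_sdiff.2 ⟨heH, heB⟩, hu⟩⟩
      refine (card_le_card hsub).trans ?_
      have := card_biUnion_le_card_mul N2
        (fun u => (H \ B).filter (fun e => u ∈ G.ends e)) 1 (by
          intro u hu
          have hu2 : dg G B u = 2 := by simpa [hN2] using hu
          have hsd : (H \ B).filter (fun e => u ∈ G.ends e) =
              H.filter (fun e => u ∈ G.ends e) \ B.filter (fun e => u ∈ G.ends e) := by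
            ext e
            simp only [mem_filter, mem_sdiff]
            tauto
          show ((H \ B).filter (fun e => u ∈ G.ends e)).card ≤ 1
          rw [hsd, card_sdiff_of_subset (filter_subset_filter _ hBH)]
          have h3 := hF.le3 u
          unfold dg at h3 hu2
          omega)
      simpa using this
    refine ⟨N2 ∪ N3, hX0, hcut.trans hn2, ?_, ?_, Or.inl ?_⟩
    · refine hB4.trans (card_le_card ?_)
      intro e he
      refine mem_filter.2 ⟨hBH he, ?_⟩
      intro u hu
      rw [hmem]
      exact (card_pos.2 ⟨e, mem_filter.2 ⟨he, hu⟩⟩).ne'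
    · exact hn3.trans (card_le_card subset_union_right)
    · refine hn3.trans (card_le_card ?_)
      intro v hv
      exact mem_inter.2 ⟨mem_union_right _ hv, hinn hv⟩

end Pool.Agent.H10R3.SC.Find
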