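import Pool.Agent.H10R3.SC.Stmts

set_option autoImplicit false

/-!
The four gadgets (task TGad of project H10-SC).
-/

open Finset

namespace Pool.Agent.H10R3.SC.TGadF

open Pool.Agent.Helper347.Sab
open Pool.Agent.H444.FA
open Pool.Agent.H10R3.SC


theorem cross {W : Type} [DecidableEq W] (p q : W) (Y : Finset W) :
    ((∃ u, u ∈ s(p, q) ∧ u ∈ Y) ∧ ∃ w, w ∈ s(p, q) ∧ w ∉ Y) ↔
      ((p ∈ Y ∧ q ∉ Y) ∨ (q ∈ Y ∧ p ∉ Y)) := by
  constructor
  · rintro ⟨⟨u, hu, huY⟩, w, hw, hwY⟩
    rw [Sym2.mem_iff] at hu hw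
    rcases hu with rfl | rfl <;> rcases hw with rfl | rfl
    · exact absurd huY hwY
    · exact Or.inl ⟨huY, hwY⟩
    · exact Or.inr ⟨huY, hwY⟩
    · exact absurd huY hwY
  · rintro (⟨h1, h2⟩ | ⟨h1, h2⟩)
    · exact ⟨⟨p, Sym2.mem_mk_left p q, h1⟩, q, Sym2.mem_mk_right p q, h2⟩
    · exact ⟨⟨q, Sym2.mem_mk_right p q, h1⟩, p, Sym2.mem_mk_left p q, h2⟩

theorem dec1 : ∀ j k l l' : Fin 4, k ≠ 0 → l ≠ 0 → l' ≠ 0 → k ≠ l → k ≠ l' → l ≠ l' →
    ((if j = 0 ∨ j = k then 1 else 0) + (if j = l ∨ j = l' then 1 else 0) : ℕ) = 1 := by decide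

theorem dec2 : ∀ j k l l' : Fin 4, k ≠ 0 → l ≠ 0 → l' ≠ 0 → k ≠ l → k ≠ l' → l ≠ l' →
    ((if j = 0 then 1 else 0) + (if j = k then 1 else 0) + (if j = l then 1 else 0)
      + (if j = l' then 1 else 0) : ℕ) = 1 := by decide

theorem par {V : Type} [Fintype V] [DecidableEq V] (x : Fin 4 → V) (hx : Function.Injective x)
    (k l l' : Fin 4) (hk : k ≠ 0) (hl : l ≠ 0) (hl' : l' ≠ 0) (h1 : k ≠ l) (h2 : k ≠ l')
    (h3 : l ≠ l') : Gdt x (gPar x k l l') where
  a2 := by norm_num
  bd := by norm_num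
  old := by
    intro i u hu
    fin_cases i
    · simp only [gPar, Fin.zero_eta, Matrix.cons_val_zero, Sym2.mem_iff, Sum.inl.injEq] at hu
      rcases hu with hu | hu <;> exact ⟨_, hu⟩
    · simp only [gPar, Fin.mk_one, Matrix.cons_val_one, Matrix.cons_val_zero, Sym2.mem_iff,
        Sum.inl.injEq] at hu
      rcases hu with hu | hu <;> exact ⟨_, hu⟩
  leg := by
    intro j
    rw [Finset.card_filter, Fin.sum_univ_two]
    simp only [gPar, Matrix.cons_val_zero, Matrix.cons_val_one, Sym2.mem_iff, Sum.inl.injEq,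
      hx.eq_iff]
    exact dec1 j k l l' hk hl hl' h1 h2 h3
  new := fun w => w.elim0
  nocut := by
    intro Y hY
    rw [Finset.card_filter, Fin.sum_univ_two]
    simp only [gPar, Matrix.cons_val_zero, Matrix.cons_val_one, cross, hY, false_and, or_self,
      if_false]
    norm_num

theorem tree {V : Type} [Fintype V] [DecidableEq V] (x : Fin 4 → V) (hx : Function.Injective x)
    (k l l' : Fin 4) (hk : k ≠ 0) (hl : l ≠ 0) (hl' : l' ≠ 0) (h1 : k ≠ l) (h2 : k ≠ l')
    (h3 : l ≠ l') : Gdt x (gTree x k l l') where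
  a2 := by norm_num
  bd := by norm_num
  old := by
    intro i u hu
    fin_cases i
    all_goals simp [gTree] at hu
    all_goals exact ⟨_, hu⟩
  leg := by
    intro j
    rw [Finset.card_filter, Fin.sum_univ_five]
    simp only [gTree, Matrix.cons_val, Sym2.mem_iff, Sum.inl.injEq, reduceCtorEq, or_false,
      or_self, if_false, hx.eq_iff, add_zero]
    exact dec2 j k l l' hk hl hl' h1 h2 h3
  new := by
    intro w
    rw [Finset.card_filter, Fin.sum_univ_five]
    fin_cases w
    all_goals simp [gTree]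
  nocut := by
    intro Y hY
    rw [Finset.card_filter, Fin.sum_univ_five]
    simp only [gTree, Matrix.cons_val, cross, hY, false_and, false_or, not_false_eq_true,
      and_true]
    by_cases ha : (Sum.inr 0 : V ⊕ Fin 2) ∈ Y <;> by_cases hb : (Sum.inr 1 : V ⊕ Fin 2) ∈ Y <;>
      simp [ha, hb]

theorem claw {V : Type} [Fintype V] [DecidableEq V] (x : Fin 3 → V) (hx : Function.Injective x) :
    Gdt x (gClaw x) where
  a2 := by norm_num
  bd := by norm_num
  old := by
    intro i u hu
    fin_cases i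
    all_goals simp [gClaw] at hu
    all_goals exact ⟨_, hu⟩
  leg := by
    intro j
    rw [Finset.card_filter, Fin.sum_univ_three]
    simp only [gClaw, Matrix.cons_val, Sym2.mem_iff, Sum.inl.injEq, reduceCtorEq, or_false,
      hx.eq_iff]
    revert j
    decide
  new := by
    intro w
    rw [Finset.card_filter, Fin.sum_univ_three]
    fin_cases w
    simp [gClaw]
  nocut := by
    intro Y hY
    rw [Finset.card_filter, Fin.sum_univ_three]
    simp only [gClaw, Matrix.cons_val, cross, hY, false_and, false_or, not_false_eq_true,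
      and_true]
    by_cases ha : (Sum.inr 0 : V ⊕ Fin 1) ∈ Y <;> simp [ha]

theorem edge {V : Type} [Fintype V] [DecidableEq V] (x : Fin 2 → V) (hx : Function.Injective x) :
    Gdt x (gEdge x) where
  a2 := by norm_num
  bd := by norm_num
  old := by
    intro i u hu
    fin_cases i
    simp only [gEdge, Fin.zero_eta, Matrix.cons_val_fin_one, Sym2.mem_iff,
      Sum.inl.injEq] at hu
    rcases hu with hu | hu <;> exact ⟨_, hu⟩
  leg := by
    intro j
    rw [Finset.card_filter, Fin.sum_univ_one]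
    simp only [gEdge, Matrix.cons_val_fin_one, Sym2.mem_iff, Sum.inl.injEq, hx.eq_iff]
    revert j
    decide
  new := fun w => w.elim0
  nocut := by
    intro Y hY
    rw [Finset.card_filter, Fin.sum_univ_one]
    simp only [gEdge, Matrix.cons_val_fin_one, cross, hY, false_and, or_self, if_false]
    norm_num

theorem gad : TGad := by
  intro V _ _
  exact ⟨fun x hx k l l' hk hl hl' h1 h2 h3 =>
    ⟨par x hx k l l' hk hl hl' h1 h2 h3, tree x hx k l l' hk hl hl' h1 h2 h3⟩,
    fun x hx => claw x hx, fun x hx => edge x hx⟩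

end Pool.Agent.H10R3.SC.TGadF
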