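import Pool.Agent.H10R3.SC.Stmts
import Pool.Agent.Helper998.Near.Bridge

set_option autoImplicit false
set_option linter.unusedSectionVars false

/-!
From colourings of all label classes to local nowhere-zero 4-flows (task TLoc of H10-SC).
-/

open Finset

namespace Pool.Agent.H10R3.SC

open Pool.Agent.Helper347.Sab
open Pool.Agent.H444.FA
open Pool.Agent.Helper998.Near (Rch)

namespace Loc1

variable {V E : Type} [Fintype V] [DecidableEq V] [Fintype E] [DecidableEq E]

/-- T-join inside the circuit C -/
theorem circ_compl (G : MGraph V E) (C M : Finset E) (hC : IsCircuit G C)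
    (hCM : Disjoint C M) (hM : ∀ v, dg G C v = 0 → Even (dg G M v)) :
    ∃ J ⊆ C, Ev G (M ∪ J) := by
  obtain ⟨e0, he0⟩ := hC.1
  obtain ⟨p0, p1, hp01, hends0⟩ := exists_ends G e0
  have hp0 : dg G C p0 = 2 := (hC.2.1 p0).resolve_left (by
    have := dg_pos_of_mem (G := G) he0 (show p0 ∈ G.ends e0 by rw [hends0]; simp); omega)
  obtain ⟨J, hJC, hJ⟩ := Pool.Agent.Helper998.Near.join G C
    (fun v => ((dg G M v : ℕ) : ZMod 2)) (fun _ => p0) (by
    intro v hv
    apply Pool.Agent.Helper998.Near.circ_reach G C hC v p0 _ hp0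
    rcases hC.2.1 v with h | h
    · exact absurd ((Pool.Agent.Helper998.Near.even_iff_cast _).1 (hM v h)) hv
    · exact h)
  have hJ' : ∀ x, ((dg G J x : ℕ) : ZMod 2) = ((dg G M x : ℕ) : ZMod 2) := by
    intro x
    rw [hJ x]
    have h1 : ∑ v, ((dg G M v : ℕ) : ZMod 2) = 0 := by
      rw [← Nat.cast_sum]
      exact (Pool.Agent.Helper998.Near.even_iff_cast _).1 (handshake G M)
    by_cases hx : x = p0
    · simp [hx, h1]
    · simp [hx]
  refine ⟨J, hJC, fun v => ?_⟩
  have h1 := dg_sdiff (G := G) (X := M ∪ J) (Y := M) subset_union_left v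
  have h3 : (M ∪ J) \ M = J := by
    rw [union_sdiff_left]
    exact sdiff_eq_self_of_disjoint (disjoint_of_subset_left hJC hCM)
  rw [h3] at h1
  rw [Pool.Agent.Helper998.Near.even_iff_cast, ← h1, Nat.cast_add, hJ' v]
  exact CharTwo.add_self_eq_zero _

/-- one colouring of the edges of `H` meeting the outside of `D` -/
theorem glue (G : MGraph V E) (H D : Finset E) {ι : Type} [DecidableEq ι] (κ : V → ι)
    (hF : Fr G H D κ) (hc : ∀ i, Clb G (ins G H (cls G H D κ i))) :
    ∃ c : E → Fin 3, ∀ v, dg G D v = 0 → ∀ e f, e ∈ H → f ∈ H → v ∈ G.ends e → v ∈ G.ends f →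
      e ≠ f → c e ≠ c f := by
  classical
  choose colc hcolc using hc
  have hw : ∀ e : E, ∃ w : V, w ∈ G.ends e := by
    intro e
    obtain ⟨a, b, _, h⟩ := exists_ends G e
    exact ⟨a, by rw [h]; simp⟩
  choose w hw using hw
  obtain ⟨col, hcoldef⟩ : ∃ col : E → Fin 3, ∀ e, col e = colc (κ (w e)) e := ⟨_, fun _ => rfl⟩
  have hmem : ∀ e ∈ H, (∀ u ∈ G.ends e, dg G D u = 0) → ∀ v ∈ G.ends e,
      e ∈ ins G H (cls G H D κ (κ v)) := by
    intro e he hoff v hv
    unfold ins cls
    rw [mem_filter]
    refine ⟨he, fun u hu => ?_⟩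
    rw [mem_filter]
    refine ⟨mem_univ _, hoff u hu, ?_, hF.lab e he u v hu hv (hoff u hu) (hoff v hv)⟩
    have := dg_pos_of_mem (G := G) he hu
    omega
  have hcol : ∀ (v : V) (e f : E), e ∈ H → f ∈ H → (∀ u ∈ G.ends e, dg G D u = 0) →
      (∀ u ∈ G.ends f, dg G D u = 0) → v ∈ G.ends e → v ∈ G.ends f → e ≠ f → col e ≠ col f := by
    intro v e f he hf hoe hof hve hvf hne
    rw [hcoldef e, hcoldef f]
    have h1 : κ (w e) = κ v := hF.lab e he _ _ (hw e) hve (hoe _ (hw e)) (hoe _ hve)
    have h2 : κ (w f) = κ v := hF.lab f hf _ _ (hw f) hvf (hof _ (hw f)) (hof _ hvf)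
    rw [h1, h2]
    exact hcolc (κ v) v e f (hmem e he hoe v hve) (hmem f hf hof v hvf) hve hvf hne
  have hg : ∀ v, ∃ g : E → Fin 3, dg G D v = 0 →
      (∀ e f, e ∈ H → f ∈ H → v ∈ G.ends e → v ∈ G.ends f → e ≠ f → g e ≠ g f) ∧
      ∀ e, e ∈ H → v ∈ G.ends e → (∀ w ∈ G.ends e, dg G D w = 0) → g e = col e := by
    intro v
    by_cases hv : dg G D v = 0 ∧ dg G H v = 3
    · have hcard : Fintype.card {e : E // e ∈ H ∧ v ∈ G.ends e} =
          (univ : Finset (Fin 3)).card := by
        rw [Fintype.card_subtype]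
        have h3 := hv.2
        unfold dg at h3
        have h4 : (univ.filter fun e => e ∈ H ∧ v ∈ G.ends e) =
            H.filter fun e => v ∈ G.ends e := by
          ext e
          simp
        rw [h4, h3]
        simp
      obtain ⟨g, hg⟩ := Finset.exists_equiv_extend_of_card_eq hcard
        (s := univ.filter fun e : {e : E // e ∈ H ∧ v ∈ G.ends e} =>
          ∀ w ∈ G.ends e.1, dg G D w = 0)
        (f := fun e => col e.1) (subset_univ _) (by
          intro e he f hf hef
          rw [mem_coe, mem_filter] at he hf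
          by_contra hne
          exact hcol v e.1 f.1 e.2.1 f.2.1 he.2 hf.2 e.2.2 f.2.2
            (fun h => hne (Subtype.ext h)) hef)
      refine ⟨fun e => if he : e ∈ H ∧ v ∈ G.ends e then (g ⟨e, he⟩ : Fin 3) else 0,
        fun _ => ⟨?_, ?_⟩⟩
      · intro e f heH hfH he hf hef
        have he' : e ∈ H ∧ v ∈ G.ends e := ⟨heH, he⟩
        have hf' : f ∈ H ∧ v ∈ G.ends f := ⟨hfH, hf⟩
        simp only [dif_pos he', dif_pos hf']
        intro h
        have h1 := g.injective (Subtype.ext h)
        exact hef (congrArg Subtype.val h1)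
      · intro e heH he hw
        have he' : e ∈ H ∧ v ∈ G.ends e := ⟨heH, he⟩
        simp only [dif_pos he']
        exact hg ⟨e, he'⟩ (mem_filter.2 ⟨mem_univ _, hw⟩)
    · refine ⟨fun _ => 0, fun h => ?_⟩
      have h0 : dg G H v = 0 := by
        rcases hF.off v h with h1 | h1
        · exact h1
        · exact absurd ⟨h, h1⟩ hv
      have h1 : ∀ e, e ∈ H → v ∈ G.ends e → False := by
        intro e he hve
        have := dg_pos_of_mem (G := G) he hve
        omega
      exact ⟨fun e f he _ hve _ _ => absurd hve (fun hh => h1 e he hh),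
        fun e he hve _ => absurd hve (fun hh => h1 e he hh)⟩
  choose g hg using hg
  let P : E → Prop := fun e => ∃ v ∈ G.ends e, dg G D v = 0
  let c' : E → Fin 3 := fun e => if h : P e then g h.choose e else 0
  have hc' : ∀ v, dg G D v = 0 → ∀ e ∈ H, v ∈ G.ends e → c' e = g v e := by
    intro v hv e heH he
    have h : P e := ⟨v, he, hv⟩
    have h1 : c' e = g h.choose e := dif_pos h
    rw [h1]
    obtain ⟨h2, h3⟩ := h.choose_spec
    by_cases h4 : h.choose = v
    · rw [h4]
    · have h5 : G.ends e = s(h.choose, v) := (Sym2.mem_and_mem_iff h4).1 ⟨h2, he⟩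
      have h6 : ∀ w ∈ G.ends e, dg G D w = 0 := by
        intro w hw
        rw [h5, Sym2.mem_iff] at hw
        rcases hw with h7 | h7
        · rw [h7]; exact h3
        · rw [h7]; exact hv
      rw [(hg _ h3).2 e heH h2 h6, (hg v hv).2 e heH he h6]
  refine ⟨c', fun v hv e f he hf hve hvf hne => ?_⟩
  rw [hc' v hv e he hve, hc' v hv f hf hvf]
  exact (hg v hv).1 e f he hf hve hvf hne

end Loc1

theorem tLoc : TLoc := by
  classical
  intro V E _ _ _ _ G H D ι _ κ hF hc v0
  obtain ⟨c, hcc⟩ := Loc1.glue G H D κ hF hc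
  -- every colour appears once at every vertex of degree 3 off D
  have hone : ∀ v, dg G D v = 0 → dg G H v = 3 → ∀ k : Fin 3,
      ((H.filter fun e => v ∈ G.ends e).filter fun e => c e = k).card = 1 := by
    intro v hv hv3
    have hle : ∀ k : Fin 3,
        ((H.filter fun e => v ∈ G.ends e).filter fun e => c e = k).card ≤ 1 := by
      intro k
      rw [card_le_one]
      intro e he f hf
      rw [mem_filter, mem_filter] at he hf
      by_contra hne
      apply hcc v hv e f he.1.1 hf.1.1 he.1.2 hf.1.2 hne
      rw [he.2, hf.2]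
    have hsum := card_eq_sum_card_fiberwise (f := c) (s := H.filter fun e => v ∈ G.ends e)
      (t := (univ : Finset (Fin 3))) (fun _ _ => mem_univ _)
    rw [Fin.sum_univ_three] at hsum
    have h3 := hv3
    unfold dg at h3
    rw [h3] at hsum
    have h0 := hle 0
    have h1 := hle 1
    have h2 := hle 2
    intro k
    fin_cases k
    · show ((H.filter fun e => v ∈ G.ends e).filter fun e => c e = 0).card = 1
      omega
    · show ((H.filter fun e => v ∈ G.ends e).filter fun e => c e = 1).card = 1
      omega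
    · show ((H.filter fun e => v ∈ G.ends e).filter fun e => c e = 2).card = 1
      omega
  have hnotD : ∀ v, dg G D v = 0 → ∀ e, v ∈ G.ends e → e ∉ D := by
    intro v hv e he h
    have := dg_pos_of_mem (G := G) h he
    omega
  -- the set of the edges of the component of v0 with colour different from k
  have hkey : ∀ k : Fin 3, ∃ J ⊆ D, Ev G
      ((H.filter fun e => e ∉ D ∧ (∀ u ∈ G.ends e, Rch G (H \ D) v0 u) ∧ c e ≠ k) ∪ J) := by
    intro k
    apply Loc1.circ_compl G D _ hF.circ
    · rw [disjoint_left]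
      intro e he h
      exact (mem_filter.1 h).2.1 he
    · intro v hv
      by_cases hR : Rch G (H \ D) v0 v
      · have h1 : ((H.filter fun e => e ∉ D ∧ (∀ u ∈ G.ends e, Rch G (H \ D) v0 u) ∧
            c e ≠ k).filter fun e => v ∈ G.ends e) =
            (H.filter fun e => v ∈ G.ends e).filter fun e => ¬ c e = k := by
          ext e
          simp only [mem_filter]
          constructor
          · rintro ⟨⟨h2, _, _, h3⟩, h4⟩
            exact ⟨⟨h2, h4⟩, h3⟩
          · rintro ⟨⟨h2, h4⟩, h3⟩
            refine ⟨⟨h2, hnotD v hv e h4, ?_, h3⟩, h4⟩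
            intro u hu
            by_cases huv : v = u
            · rw [← huv]; exact hR
            · exact hR.tail ⟨e, mem_sdiff.2 ⟨h2, hnotD v hv e h4⟩,
                (Sym2.mem_and_mem_iff huv).1 ⟨h4, hu⟩⟩
        unfold dg
        rw [h1]
        rcases hF.off v hv with h0 | h3
        · have h5 : (H.filter fun e => v ∈ G.ends e) = ∅ := by
            unfold dg at h0
            exact card_eq_zero.1 h0
          rw [h5]
          simp
        · have h2 := card_filter_add_card_filter_not (s := H.filter fun e => v ∈ G.ends e)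
            (fun e => c e = k)
          rw [hone v hv h3 k] at h2
          unfold dg at h3
          rw [h3] at h2
          have : ((H.filter fun e => v ∈ G.ends e).filter fun e => ¬ c e = k).card = 2 := by
            omega
          rw [this]
          decide
      · have h1 : ((H.filter fun e => e ∉ D ∧ (∀ u ∈ G.ends e, Rch G (H \ D) v0 u) ∧
            c e ≠ k).filter fun e => v ∈ G.ends e) = ∅ := by
          rw [filter_eq_empty_iff]
          intro e he hve
          exact hR ((mem_filter.1 he).2.2.1 v hve)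
        unfold dg
        rw [h1]
        simp
  obtain ⟨J1, hJ1, hE1⟩ := hkey 2
  obtain ⟨J2, hJ2, hE2⟩ := hkey 1
  refine ⟨_, _, hE1, hE2, ?_, ?_, ?_, ?_⟩
  · exact union_subset (filter_subset _ _) (hJ1.trans hF.sub)
  · exact union_subset (filter_subset _ _) (hJ2.trans hF.sub)
  · intro f hfD hf
    rcases hf with hf | hf
    · rcases mem_union.1 hf with h | h
      · exact (mem_filter.1 h).2.2.1
      · exact absurd (hJ1 h) hfD
    · rcases mem_union.1 hf with h | h
      · exact (mem_filter.1 h).2.2.1
      · exact absurd (hJ2 h) hfD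
  · intro f hfH hfD hR
    by_cases h : c f = 2
    · right
      apply mem_union_left
      rw [mem_filter]
      refine ⟨hfH, hfD, hR, ?_⟩
      rw [h]
      decide
    · left
      apply mem_union_left
      rw [mem_filter]
      exact ⟨hfH, hfD, hR, h⟩

end Pool.Agent.H10R3.SC
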