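import Pool.Agent.H10R3.SC.Main
import Pool.Agent.H10R3.SC.Kempe
import Pool.Agent.H10R3.SC.Crit
import Pool.Agent.H10R3.SC.TLoc
import Pool.Agent.H10R3.SC.TCutBr
import Pool.Agent.H10R3.SC.TCnt
import Pool.Agent.H10R3.SC.TGad
import Pool.Agent.H10R3.SC.TExtOk
import Pool.Agent.H10R3.SC.ExtFr
import Pool.Agent.H10R3.SC.TFind
import Pool.Agent.H10R3.SC.Result
import Pool.Agent.H884R3.SC.TLegs

set_option autoImplicit false

/-! Assembly (project H10-SC). -/

namespace Pool.Agent.H10R3.SC

theorem allMain : TMain :=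
  mainThm cutBr tLoc (Find.find (crit kempe)) legs TGadF.gad (extFr cnt side evCut) extOk

theorem allResult : TResult := res allMain side evCut

end Pool.Agent.H10R3.SC
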