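import Pool.Agent.H10R3.SC.Stmts3
import Pool.Agent.H444.FA.StepE

set_option autoImplicit false
set_option linter.unusedSectionVars false

/-!
Project H10-CX, part 6: the new circuit if `C` crosses the cut twice.
-/

open Finset

namespace Pool.Agent.H10R3.SC.CX6

open Pool.Agent.Helper347.Sab
open Pool.Agent.H444.FA

section

variable {V E : Type} [Fintype V] [DecidableEq V] [Fintype E] [DecidableEq E]
variable {G : MGraph V E} {C : Finset E} {X : Finset V}

theorem inl_mem_newD {b : ℕ} (T : Finset (Fin b)) (e : E) :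
    (Sum.inl e : E ⊕ Fin b) ∈ newD G C X T ↔ e ∈ C ∩ ins G univ X := by
  unfold newD
  rw [mem_union, mem_inE]
  constructor
  · rintro (h | h)
    · exact h
    · rw [mem_map] at h
      obtain ⟨j, _, h⟩ := h
      exact absurd h (by simp)
  · exact Or.inl

theorem inr_mem_newD {b : ℕ} (T : Finset (Fin b)) (k : Fin b) :
    (Sum.inr k : E ⊕ Fin b) ∈ newD G C X T ↔ k ∈ T := by
  unfold newD
  rw [mem_union, mem_map]
  constructor
  · rintro (h | ⟨j, hj, h⟩)
    · exact absurd h (inr_notMem_inE _ k)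
    · have : j = k := by simpa using h
      rw [← this]
      exact hj
  · intro h
    exact Or.inr ⟨k, h, rfl⟩

theorem oldP_newD {b : ℕ} (T : Finset (Fin b)) :
    oldP (newD G C X T : Finset (E ⊕ Fin b)) = C ∩ ins G univ X := by
  ext e
  rw [mem_oldP, inl_mem_newD]

theorem mem_ins' (e : E) : e ∈ ins G univ X ↔ ∀ u, u ∈ G.ends e → u ∈ X := by
  unfold ins
  rw [mem_filter]
  exact ⟨fun h => h.2, fun h => ⟨mem_univ _, h⟩⟩

/-- degrees of the new circuit at old vertices -/
theorem dg_newD_old {a b : ℕ} (g : Fin b → Sym2 (V ⊕ Fin a)) (hg : ∀ j, ¬ (g j).IsDiag)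
    (T : Finset (Fin b)) (v : V) :
    dg (ext G g hg) (newD G C X T) (Sum.inl v) = dg G (C ∩ ins G univ X) v +
      (T.filter fun k => (Sum.inl v : V ⊕ Fin a) ∈ g k).card := by
  rw [dg_old, oldP_newD]
  congr 2
  ext k
  rw [mem_filter, mem_filter, inr_mem_newD]
  simp

theorem dg_newD_new {a b : ℕ} (g : Fin b → Sym2 (V ⊕ Fin a)) (hg : ∀ j, ¬ (g j).IsDiag)
    (T : Finset (Fin b)) (w : Fin a) :
    dg (ext G g hg) (newD G C X T) (Sum.inr w) =
      (T.filter fun k => (Sum.inr w : V ⊕ Fin a) ∈ g k).card := by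
  rw [dg_new]
  congr 1
  ext k
  rw [mem_filter, mem_filter, inr_mem_newD]
  simp

theorem dg_out {v : V} (hv : v ∉ X) : dg G (C ∩ ins G univ X) v = 0 := by
  unfold dg
  rw [card_eq_zero, filter_eq_empty_iff]
  intro e he hve
  rw [mem_inter, mem_ins'] at he
  exact hv (he.2 v hve)

/-- edges of `C` at a vertex of `X` are inside `X` or legs -/
theorem in_or_leg {d : ℕ} {y x : Fin d → V} {ℓ : Fin d → E} (hc : Cr G X y x ℓ) {v : V}
    (hv : v ∈ X) {e : E} (hve : v ∈ G.ends e) : e ∈ ins G univ X ∨ ∃ j, e = ℓ j ∧ v = y j := by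
  by_cases h : ∀ u, u ∈ G.ends e → u ∈ X
  · exact Or.inl ((mem_ins' e).2 h)
  · right
    push Not at h
    obtain ⟨u, hu, huX⟩ := h
    have h1 : e ∈ cut G univ X := by
      unfold cut
      rw [mem_filter]
      exact ⟨mem_univ _, ⟨v, hve, hv⟩, u, hu, huX⟩
    obtain ⟨j, rfl⟩ := (hc.cut e).1 h1
    refine ⟨j, rfl, ?_⟩
    rw [hc.ends j, Sym2.mem_iff] at hve
    rcases hve with h | h
    · exact h
    · exact absurd (h ▸ hv) (hc.xout j)

theorem leg_notMem_ins {d : ℕ} {y x : Fin d → V} {ℓ : Fin d → E} (hc : Cr G X y x ℓ)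
    (j : Fin d) : ℓ j ∉ ins G univ X := by
  rw [mem_ins']
  intro h
  exact hc.xout j (h (x j) (by rw [hc.ends j]; exact Sym2.mem_mk_right _ _))

theorem dg_in_nonleg {d : ℕ} {y x : Fin d → V} {ℓ : Fin d → E} (hc : Cr G X y x ℓ) {v : V}
    (hv : v ∈ X) (h : ∀ j, v = y j → ℓ j ∉ C) : dg G (C ∩ ins G univ X) v = dg G C v := by
  unfold dg
  congr 1
  ext e
  rw [mem_filter, mem_filter, mem_inter]
  constructor
  · rintro ⟨⟨h1, _⟩, h2⟩
    exact ⟨h1, h2⟩
  · rintro ⟨h1, h2⟩
    rcases in_or_leg hc hv h2 with h3 | ⟨j, rfl, hj⟩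
    · exact ⟨⟨h1, h3⟩, h2⟩
    · exact absurd h1 (h j hj)

theorem dg_in_leg {d : ℕ} {y x : Fin d → V} {ℓ : Fin d → E} (hc : Cr G X y x ℓ) (j : Fin d)
    (h : ℓ j ∈ C) : dg G (C ∩ ins G univ X) (y j) + 1 = dg G C (y j) := by
  unfold dg
  have h1 : (C.filter fun e => y j ∈ G.ends e) =
      insert (ℓ j) ((C ∩ ins G univ X).filter fun e => y j ∈ G.ends e) := by
    ext e
    rw [mem_insert, mem_filter, mem_filter, mem_inter]
    constructor
    · rintro ⟨h1, h2⟩
      rcases in_or_leg hc (hc.yin j) h2 with h3 | ⟨j', h4, h5⟩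
      · exact Or.inr ⟨⟨h1, h3⟩, h2⟩
      · left
        rw [h4, hc.yinj h5]
    · rintro (rfl | ⟨⟨h1, _⟩, h2⟩)
      · exact ⟨h, by rw [hc.ends j]; exact Sym2.mem_mk_left _ _⟩
      · exact ⟨h1, h2⟩
  rw [h1, card_insert_of_notMem]
  rw [mem_filter, mem_inter]
  rintro ⟨⟨_, h2⟩, _⟩
  exact leg_notMem_ins hc j h2

/-- an even subset of the new circuit without gadget edges is empty -/
theorem no_gadget (h : TMinCirc) (hC : IsCircuit G C) {e0 : E} (he0 : e0 ∈ C)
    (he0' : e0 ∉ ins G univ X) {a b : ℕ} (g : Fin b → Sym2 (V ⊕ Fin a))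
    (hg : ∀ j, ¬ (g j).IsDiag) (T : Finset (Fin b)) (Z : Finset (E ⊕ Fin b))
    (hZ : Z ⊆ newD G C X T) (hev : Ev (ext G g hg) Z) (hno : ∀ k, (Sum.inr k : E ⊕ Fin b) ∉ Z) :
    Z = ∅ := by
  by_contra hne
  have hne' : Z.Nonempty := nonempty_iff_ne_empty.2 hne
  have h1 : (oldP Z).Nonempty := by
    obtain ⟨e | k, he⟩ := hne'
    · exact ⟨e, (mem_oldP Z e).2 he⟩
    · exact absurd he (hno k)
  have h2 : oldP Z ⊆ C ∩ ins G univ X := by
    intro e he
    rw [mem_oldP] at he
    exact (inl_mem_newD T e).1 (hZ he)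
  have h3 : Ev G (oldP Z) := by
    intro v
    have h4 := hev (Sum.inl v)
    rw [dg_old] at h4
    have h5 : (univ.filter fun j : Fin b => (Sum.inr j : E ⊕ Fin b) ∈ Z ∧
        (Sum.inl v : V ⊕ Fin a) ∈ g j) = ∅ := by
      rw [filter_eq_empty_iff]
      rintro j _ ⟨h6, _⟩
      exact hno j h6
    rw [h5, card_empty, add_zero] at h4
    exact h4
  have h4 := (h V E G C).1 hC (oldP Z) (h2.trans inter_subset_left) h1 h3
  have h5 := h2 (h4 ▸ he0)
  exact he0' (mem_inter.1 h5).2

end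

theorem circ2 (h : TMinCirc) : TCirc2 := by
  intro V E _ _ _ _ G C hC X d y x ℓ hc i0 i1 hi hℓ a b g hgd hg T hT1 hT2 hT3
  have hdeg : ∀ v, dg (ext G g hg) (newD G C X T) v = 0 ∨
      dg (ext G g hg) (newD G C X T) v = 2 := by
    rintro (v | w)
    · rw [dg_newD_old]
      by_cases hv : v ∈ X
      · by_cases hy : ∃ j, v = y j
        · obtain ⟨j, rfl⟩ := hy
          rw [hT1 j]
          by_cases hj : j = i0 ∨ j = i1
          · have h1 := dg_in_leg hc j ((hℓ j).2 hj)
            rw [if_pos hj]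
            have h2 := hC.2.1 (y j)
            omega
          · rw [if_neg hj, add_zero, dg_in_nonleg hc hv]
            · exact hC.2.1 (y j)
            · intro j' hj' h3
              rw [← hc.yinj hj'] at h3
              exact hj ((hℓ j).1 h3)
        · have h1 : (T.filter fun k => (Sum.inl v : V ⊕ Fin a) ∈ g k) = ∅ := by
            rw [filter_eq_empty_iff]
            intro k _ hk
            obtain ⟨j, hj⟩ := hgd.old k v hk
            exact hy ⟨j, hj⟩
          rw [h1, card_empty, add_zero, dg_in_nonleg hc hv]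
          · exact hC.2.1 v
          · intro j hj
            exact absurd ⟨j, hj⟩ hy
      · left
        rw [dg_out hv, zero_add, card_eq_zero, filter_eq_empty_iff]
        intro k _ hk
        obtain ⟨j, hj⟩ := hgd.old k v hk
        exact hv (hj ▸ hc.yin j)
    · rw [dg_newD_new]
      exact hT2 w
  have hev : Ev (ext G g hg) (newD G C X T) := by
    intro v
    rcases hdeg v with h1 | h1
    · rw [h1]; exact Even.zero
    · rw [h1]; exact even_two
  have hℓ0 : ℓ i0 ∈ C := (hℓ i0).2 (Or.inl rfl)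
  have hℓ0' := leg_notMem_ins hc i0
  refine (h _ _ (ext G g hg) (newD G C X T)).2 ?_ hdeg ?_
  · have h1 := hT1 i0
    rw [if_pos (Or.inl rfl)] at h1
    obtain ⟨k, hk⟩ := card_pos.1 (by rw [h1]; exact one_pos)
    exact ⟨Sum.inr k, (inr_mem_newD T k).2 (mem_filter.1 hk).1⟩
  · intro Z hZ hne hZev
    have hT0 : (univ.filter fun k => (Sum.inr k : E ⊕ Fin b) ∈ Z) ⊆ T := by
      intro k hk
      rw [mem_filter] at hk
      exact (inr_mem_newD T k).1 (hZ hk.2)
    have hT0' : ∀ w : Fin a, Even ((univ.filter fun k => (Sum.inr k : E ⊕ Fin b) ∈ Z).filter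
        fun k => (Sum.inr w : V ⊕ Fin a) ∈ g k).card := by
      intro w
      have h1 := hZev (Sum.inr w)
      rw [dg_new] at h1
      rw [filter_filter]
      exact h1
    rcases hT3 _ hT0 hT0' with h1 | h1
    · exfalso
      have h2 := no_gadget h hC hℓ0 hℓ0' g hg T Z hZ hZev (fun k hk => by
        have h3 : k ∈ (univ.filter fun k => (Sum.inr k : E ⊕ Fin b) ∈ Z) :=
          mem_filter.2 ⟨mem_univ _, hk⟩
        rw [h1] at h3
        exact absurd h3 (notMem_empty k))
      rw [h2] at hne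
      exact not_nonempty_empty hne
    · have h2 := no_gadget h hC hℓ0 hℓ0' g hg T (newD G C X T \ Z) sdiff_subset (by
          intro v
          have h3 := dg_sd (ext G g hg) (newD G C X T) Z hZ v
          have h4 := hev v
          rw [h3] at h4
          exact (Nat.even_add.1 h4).1 (hZev v)) (fun k hk => by
        rw [mem_sdiff, inr_mem_newD] at hk
        have h3 : k ∈ (univ.filter fun k => (Sum.inr k : E ⊕ Fin b) ∈ Z) := by
          rw [h1]; exact hk.1
        exact hk.2 (mem_filter.1 h3).2)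
      exact Subset.antisymm hZ (sdiff_eq_empty_iff_subset.1 h2)

end Pool.Agent.H10R3.SC.CX6

namespace Pool.Agent.H10R3.SC

theorem circ2 (h : TMinCirc) : TCirc2 := CX6.circ2 h

end Pool.Agent.H10R3.SC
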