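import Pool.Agent.H10R3.SC.Stmts

set_option autoImplicit false
set_option linter.unusedSectionVars false

/-!
Smallest counterexamples to the strong circuit double cover conjecture: statements of the parts
(project H10-MC).
-/

open Finset

namespace Pool.Agent.H10R3.SC

open Pool.Agent.Helper347.Sab
open Pool.Agent.H444.FA

/-- M1: the subgraph with edge set `H` without isolated vertices as a graph of its own -/
def TSubG : Prop :=
  ∀ (V E : Type) [Fintype V] [DecidableEq V] [Fintype E] [DecidableEq E] (G : MGraph V E)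
    (H : Finset E), ∃ (V' E' : Type) (_ : Fintype V') (_ : DecidableEq V') (_ : Fintype E')
    (_ : DecidableEq E') (G' : MGraph V' E') (f : V' → V) (g : E' → E),
    Function.Injective f ∧ Function.Injective g ∧ (∀ e, e ∈ H ↔ ∃ e', g e' = e) ∧
    (∀ e' v', v' ∈ G'.ends e' ↔ f v' ∈ G.ends (g e')) ∧ (∀ v, dg G H v ≠ 0 ↔ ∃ v', f v' = v) ∧
    Fintype.card E' = H.card

/-- M2: a circuit double cover containing `C` gives a good cover -/
def TCdcGood : Prop :=
  ∀ (V E : Type) [Fintype V] [DecidableEq V] [Fintype E] [DecidableEq E] (G : MGraph V E)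
    (C : Finset E) (F : Multiset (Finset E)), IsCDC G F → C ∈ F → Good G univ C

/-- M3: without one-element cuts every edge lies on a circuit -/
def TCutCirc : Prop :=
  ∀ (V E : Type) [Fintype V] [DecidableEq V] [Fintype E] [DecidableEq E] (G : MGraph V E),
    (∀ v, dg G univ v ≤ 3) → (∀ Y : Finset V, (cut G univ Y).card ≠ 1) →
    ∀ e : E, ∃ X : Finset E, IsCircuit G X ∧ e ∈ X

/-- a smallest counterexample has at least `n` edges -/
def MinEdges (n : ℕ) : Prop :=
  ∀ (V' E' : Type) [Fintype V'] [DecidableEq V'] [Fintype E'] [DecidableEq E']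
    (G' : MGraph V' E'), IsCubic G' → (∀ e : E', ∃ X : Finset E', IsCircuit G' X ∧ e ∈ X) →
    ∀ C' : Finset E', IsCircuit G' C' → (¬ ∃ F : Multiset (Finset E'), IsCDC G' F ∧ C' ∈ F) →
    n ≤ Fintype.card E'

/-- M4: small instances with degrees 0 and 3 are good -/
def TSmallGood : Prop :=
  ∀ (n : ℕ), MinEdges n → ∀ (V E : Type) [Fintype V] [DecidableEq V] [Fintype E] [DecidableEq E]
    (G : MGraph V E) (H D : Finset E), D ⊆ H → IsCircuit G D →
    (∀ v, dg G H v = 0 ∨ dg G H v = 3) → (∀ Y : Finset V, (cut G H Y).card ≠ 1) → H.card < n →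
    Good G H D

end Pool.Agent.H10R3.SC
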