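import Pool.Agent.H10R3.SC.All
import Pool.Agent.H10R3.SC.Stmts2

set_option autoImplicit false
set_option linter.unusedSectionVars false

/-!
Smallest counterexamples to the strong circuit double cover conjecture (project H10-MC).
-/

open Finset

namespace Pool.Agent.H10R3.SC

open Pool.Agent.Helper347.Sab
open Pool.Agent.H444.FA
open Pool.Agent.Helper998.Near (Rch)

/-- one reduction step -/
theorem step (hcb : TCutBr) (hlegs : TLegs) (hgad : TGad)
    (V E : Type) [Fintype V] [DecidableEq V] [Fintype E] [DecidableEq E] (G : MGraph V E)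
    (H D : Finset E) (ι : Type) [DecidableEq ι] (κ : V → ι) (hF : Fr G H D κ) (i : ι)
    (X : Finset V) (hX : Mx G H D κ i X)
    (key0 : ∀ (d : ℕ), (cut G H X).card = d → ∀ (x : Fin d → V) (ℓ : Fin d → E),
      Lg G H X x ℓ → ∀ (a b : ℕ) (g : Fin b → Sym2 (V ⊕ Fin a)), Gdt x g →
      ∀ hg : ∀ j, ¬ (g j).IsDiag, Good (ext G g hg) (inG (H \ tou G H X)) (inE D)) :
    Good G H D := by
  obtain ⟨F, hFdef⟩ : ∃ F, F = tou G H X := ⟨_, rfl⟩
  have hFH : F ⊆ H := by rw [hFdef]; exact filter_subset _ _
  have hDA : D ⊆ H \ F := by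
    intro e he
    rw [mem_sdiff]
    refine ⟨hF.sub he, fun h => ?_⟩
    rw [hFdef] at h
    unfold tou at h
    rw [mem_filter] at h
    obtain ⟨-, u, hu, huX⟩ := h
    have h6 := hX.sub huX
    unfold cls at h6
    rw [mem_filter] at h6
    have h7 := dg_pos_of_mem (G := G) he hu
    omega
  have key := key0
  rw [← hFdef] at key
  have hunion : H \ F ∪ F = H := sdiff_union_of_subset hFH
  have hd4 := hX.four
  have hd1 := hF.br X
  have hd : (cut G H X).card = 0 ∨ (cut G H X).card = 2 ∨ (cut G H X).card = 3 ∨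
      (cut G H X).card = 4 := by omega
  have hle : ∀ v, dg G F v ≤ 3 := fun v => (dg_mono hFH v).trans (hF.le3 v)
  rw [← hunion]
  rcases hd with hd | hd | hd | hd
  · obtain ⟨x, ℓ, hL⟩ := hlegs V E G H D ι κ hF i X hX 0 hd
    obtain ⟨Y, hY⟩ := touCover hcb G H hF.le3 hF.br X x ℓ hL
    rw [← hFdef] at hY
    have hG : Gdt x (fun k : Fin 0 => (Fin.elim0 k : Sym2 (V ⊕ Fin 0))) :=
      ⟨by norm_num, by norm_num, fun k => Fin.elim0 k, fun j => Fin.elim0 j, fun w => Fin.elim0 w,
        fun Y _ => by simp⟩
    have hgood := key 0 hd x ℓ hL 0 0 _ hG (fun k => Fin.elim0 k)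
    obtain ⟨m, Z, hZ, -⟩ := good_pat G (H \ F) D x _ _ (fun k => Fin.elim0 k)
      (fun j => Fin.elim0 j) (fun j => Fin.elim0 j) hgood
    exact glue V E G (H \ F) F D sdiff_disjoint hDA 0 x (Fin m) Z hZ Y hY
      (Fin 0) ⟨Fin.elim0, fun i => Fin.elim0 i⟩ ⟨Fin.elim0, fun i => Fin.elim0 i⟩
      (fun i => Fin.elim0 i) (fun i => Fin.elim0 i) (fun i => Fin.elim0 i)
  · obtain ⟨x, ℓ, hL⟩ := hlegs V E G H D ι κ hF i X hX 2 hd
    have hcovY := touCover hcb G H hF.le3 hF.br X x ℓ hL
    have hone := hL.one
    rw [← hFdef] at hcovY hone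
    exact core2 glue patEven V E G (H \ F) F D sdiff_disjoint hDA x hL.xinj hone hcovY
      (edge V E G (H \ F) D hDA x hL.xinj (edge_diag x hL.xinj)
        (key 2 hd x ℓ hL _ _ _ ((hgad V).2.2 x hL.xinj) (edge_diag x hL.xinj)))
  · obtain ⟨x, ℓ, hL⟩ := hlegs V E G H D ι κ hF i X hX 3 hd
    have hcovY := touCover hcb G H hF.le3 hF.br X x ℓ hL
    have hone := hL.one
    rw [← hFdef] at hcovY hone
    exact core3 glue patEven V E G (H \ F) F D sdiff_disjoint hDA x hL.xinj hone hcovY
      (claw V E G (H \ F) D hDA x hL.xinj (claw_diag x)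
        (key 3 hd x ℓ hL _ _ _ ((hgad V).2.1 x hL.xinj) (claw_diag x)))
  · obtain ⟨x, ℓ, hL⟩ := hlegs V E G H D ι κ hF i X hX 4 hd
    have hcovY := touCover hcb G H hF.le3 hF.br X x ℓ hL
    have hone := hL.one
    rw [← hFdef] at hcovY hone
    have hinj := hL.xinj
    have hP : ∀ k l l' : Fin 4, k ≠ 0 → l ≠ 0 → l' ≠ 0 → k ≠ l → k ≠ l' → l ≠ l' →
        ∃ (n : ℕ) (X : Fin n → Finset E), PC G (H \ F) (mS D) x X ∧
          (∀ i, (pat G x X i).card = 2) ∧ pat G x X 0 = pat G x X k := by
      intro k l l' hk hl hl' hkl hkl' hll'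
      exact par V E G (H \ F) D hDA x hinj k l l' hk hl hl' hkl hkl' hll'
        (par_diag x hinj k l l' hk hll')
        (key 4 hd x ℓ hL _ _ _ ((hgad V).1 x hinj k l l' hk hl hl' hkl hkl' hll').1
          (par_diag x hinj k l l' hk hll'))
    have hT : ∀ k l l' : Fin 4, k ≠ 0 → l ≠ 0 → l' ≠ 0 → k ≠ l → k ≠ l' → l ≠ l' →
        ∃ (n : ℕ) (X : Fin n → Finset E), PC G (H \ F) (mS D) x X ∧
          (∀ i, (pat G x X i).card = 2) ∧ (pat G x X 0 ∩ pat G x X k).card = 1 := by
      intro k l l' hk hl hl' hkl hkl' hll'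
      exact tree V E G (H \ F) D hDA x hinj k l l' hk hl hl' hkl hkl' hll'
        (tree_diag x k l l')
        (key 4 hd x ℓ hL _ _ _ ((hgad V).1 x hinj k l l' hk hl hl' hkl hkl' hll').2
          (tree_diag x k l l'))
    have f4 : ∀ k : Fin 4, k = 0 ∨ k = 1 ∨ k = 2 ∨ k = 3 := by decide
    refine all_core4 V E G (H \ F) F D sdiff_disjoint hDA hle x hinj hone hcovY ?_ ?_
    · intro k hk
      rcases f4 k with rfl | rfl | rfl | rfl
      · exact absurd rfl hk
      · exact hP 1 2 3 (by decide) (by decide) (by decide) (by decide) (by decide) (by decide)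
      · exact hP 2 1 3 (by decide) (by decide) (by decide) (by decide) (by decide) (by decide)
      · exact hP 3 1 2 (by decide) (by decide) (by decide) (by decide) (by decide) (by decide)
    · intro k hk
      rcases f4 k with rfl | rfl | rfl | rfl
      · exact absurd rfl hk
      · exact hT 1 2 3 (by decide) (by decide) (by decide) (by decide) (by decide) (by decide)
      · exact hT 2 1 3 (by decide) (by decide) (by decide) (by decide) (by decide) (by decide)
      · exact hT 3 1 2 (by decide) (by decide) (by decide) (by decide) (by decide) (by decide)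


section

variable {V E : Type} [Fintype V] [DecidableEq V] [Fintype E] [DecidableEq E]

/-- the degrees in `X` -/
theorem sum_dg_le (G : MGraph V E) (H : Finset E) (X : Finset V) :
    ∑ v ∈ X, dg G H v = 2 * (ins G H X).card + (cut G H X).card := by
  have h1 : ∑ v ∈ X, dg G H v = ∑ e ∈ H, (X.filter fun v => v ∈ G.ends e).card := by
    simp only [dg, card_filter]
    rw [sum_comm]
  have h2 : ∀ e ∈ H, (X.filter fun v => v ∈ G.ends e).card =
      2 * (if ∀ u, u ∈ G.ends e → u ∈ X then 1 else 0) +
      (if (∃ u, u ∈ G.ends e ∧ u ∈ X) ∧ ∃ w, w ∈ G.ends e ∧ w ∉ X then 1 else 0) := by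
    intro e _
    obtain ⟨a, b, hab, hE⟩ := exists_ends G e
    rw [hE]
    by_cases ha : a ∈ X
    · by_cases hb : b ∈ X
      · have h3 : (X.filter fun v => v ∈ s(a, b)) = {a, b} := by
          ext v
          rw [mem_filter, mem_insert, mem_singleton, Sym2.mem_iff]
          constructor
          · exact fun h => h.2
          · rintro (rfl | rfl)
            · exact ⟨ha, Or.inl rfl⟩
            · exact ⟨hb, Or.inr rfl⟩
        rw [h3, card_pair hab, if_pos, if_neg]
        · rintro ⟨_, w, hw, hwX⟩
          rw [Sym2.mem_iff] at hw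
          rcases hw with rfl | rfl
          · exact hwX ha
          · exact hwX hb
        · intro u hu
          rw [Sym2.mem_iff] at hu
          rcases hu with rfl | rfl
          · exact ha
          · exact hb
      · have h3 : (X.filter fun v => v ∈ s(a, b)) = {a} := by
          ext v
          rw [mem_filter, mem_singleton, Sym2.mem_iff]
          constructor
          · rintro ⟨hv, rfl | rfl⟩
            · rfl
            · exact absurd hv hb
          · rintro rfl
            exact ⟨ha, Or.inl rfl⟩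
        rw [h3, card_singleton, if_neg, if_pos]
        · exact ⟨⟨a, Sym2.mem_mk_left _ _, ha⟩, b, Sym2.mem_mk_right _ _, hb⟩
        · intro h
          exact hb (h b (Sym2.mem_mk_right _ _))
    · by_cases hb : b ∈ X
      · have h3 : (X.filter fun v => v ∈ s(a, b)) = {b} := by
          ext v
          rw [mem_filter, mem_singleton, Sym2.mem_iff]
          constructor
          · rintro ⟨hv, rfl | rfl⟩
            · exact absurd hv ha
            · rfl
          · rintro rfl
            exact ⟨hb, Or.inr rfl⟩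
        rw [h3, card_singleton, if_neg, if_pos]
        · exact ⟨⟨b, Sym2.mem_mk_right _ _, hb⟩, a, Sym2.mem_mk_left _ _, ha⟩
        · intro h
          exact ha (h a (Sym2.mem_mk_left _ _))
      · have h3 : (X.filter fun v => v ∈ s(a, b)) = ∅ := by
          rw [filter_eq_empty_iff]
          intro v hv hv'
          rw [Sym2.mem_iff] at hv'
          rcases hv' with rfl | rfl
          · exact ha hv
          · exact hb hv
        rw [h3, card_empty, if_neg, if_neg]
        · rintro ⟨⟨u, hu, huX⟩, _⟩
          rw [Sym2.mem_iff] at hu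
          rcases hu with rfl | rfl
          · exact ha huX
          · exact hb huX
        · intro h
          exact ha (h a (Sym2.mem_mk_left _ _))
  rw [h1, sum_congr rfl h2, sum_add_distrib, ← mul_sum]
  unfold ins cut
  rw [card_filter, card_filter]

end

end Pool.Agent.H10R3.SC
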