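import Pool.Agent.H10R3.SC.Stmts3
import Pool.Agent.H10R3.SC.Min

set_option autoImplicit false
set_option linter.unusedSectionVars false

/-! Moving a vertex to the other side of a cut (project H10-CX). -/

open Finset

namespace Pool.Agent.H10R3.SC.Erase

open Pool.Agent.Helper347.Sab
open Pool.Agent.H444.FA
open Pool.Agent.H10R3.SC

theorem erase : TErase := by
  intro V E _ _ _ _ G hG X v hv
  have h1 := sum_dg_le G univ X
  have h2 := sum_dg_le G univ (X.erase v)
  have h3 : ∑ v ∈ X, dg G univ v = 3 * X.card := by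
    rw [sum_congr rfl fun v _ => hG v, sum_const, smul_eq_mul, mul_comm]
  have h4 : ∑ v ∈ X.erase v, dg G univ v = 3 * (X.erase v).card := by
    rw [sum_congr rfl fun v _ => hG v, sum_const, smul_eq_mul, mul_comm]
  rw [h3] at h1
  rw [h4, card_erase_of_mem hv] at h2
  have h5 : 0 < X.card := card_pos.2 ⟨v, hv⟩
  have h6 : dg G (ins G univ X) v + dg G (cut G univ X) v = 3 := by
    rw [← hG v]
    unfold dg
    rw [← card_union_of_disjoint]
    · congr 1
      ext e
      rw [mem_union, mem_filter, mem_filter, mem_filter]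
      unfold ins cut
      rw [mem_filter, mem_filter]
      constructor
      · rintro (⟨_, h⟩ | ⟨_, h⟩)
        · exact ⟨mem_univ _, h⟩
        · exact ⟨mem_univ _, h⟩
      · rintro ⟨_, h⟩
        by_cases hin : ∀ u, u ∈ G.ends e → u ∈ X
        · exact Or.inl ⟨⟨mem_univ _, hin⟩, h⟩
        · push Not at hin
          exact Or.inr ⟨⟨mem_univ _, ⟨v, h, hv⟩, hin⟩, h⟩
    · rw [disjoint_left]
      intro e q1 q2
      rw [mem_filter] at q1 q2
      have q3 := q1.1
      have q4 := q2.1
      unfold ins at q3
      unfold cut at q4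
      rw [mem_filter] at q3 q4
      obtain ⟨w, hw, hwX⟩ := q4.2.2
      exact hwX (q3.2 w hw)
  have h7 : (ins G univ X).card = (ins G univ (X.erase v)).card + dg G (ins G univ X) v := by
    unfold dg
    rw [← card_union_of_disjoint]
    · congr 1
      ext e
      rw [mem_union, mem_filter]
      unfold ins
      rw [mem_filter, mem_filter]
      constructor
      · rintro ⟨_, h⟩
        by_cases hve : v ∈ G.ends e
        · exact Or.inr ⟨⟨mem_univ _, h⟩, hve⟩
        · refine Or.inl ⟨mem_univ _, fun u hu => ?_⟩
          rw [mem_erase]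
          exact ⟨fun h' => hve (h' ▸ hu), h u hu⟩
      · rintro (⟨_, h⟩ | ⟨h, _⟩)
        · exact ⟨mem_univ _, fun u hu => (mem_erase.1 (h u hu)).2⟩
        · exact h
    · rw [disjoint_left]
      intro e q1 q2
      rw [mem_filter] at q2
      unfold ins at q1
      rw [mem_filter] at q1
      exact (mem_erase.1 (q1.2 v q2.2)).1 rfl
  omega

end Pool.Agent.H10R3.SC.Erase
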