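import Pool.Agent.H10R3.SC.Stmts3

set_option autoImplicit false

/-!
Task CX16-legsX (helper54): the legs of a cut which is a matching, those in `C` first.
-/

open Finset

namespace Pool.Agent.H10R3.SC

open Pool.Agent.Helper347.Sab
open Pool.Agent.H444.FA

namespace LegsX54

theorem ends_of {V E : Type} [Fintype V] [DecidableEq V] [Fintype E] [DecidableEq E]
    (G : MGraph V E) (H : Finset E) (X : Finset V) (e : E) (he : e ∈ cut G H X) :
    ∃ u w, G.ends e = s(u, w) ∧ u ∈ X ∧ w ∉ X := by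
  unfold cut at he
  obtain ⟨_, ⟨u, hu, huX⟩, w, hw, hwX⟩ := Finset.mem_filter.1 he
  have huw : u ≠ w := fun h => hwX (h ▸ huX)
  exact ⟨u, w, (Sym2.mem_and_mem_iff huw).1 ⟨hu, hw⟩, huX, hwX⟩

theorem eq_of_dg {V E : Type} [Fintype V] [DecidableEq V] [Fintype E] [DecidableEq E]
    (G : MGraph V E) (K : Finset E) (h : ∀ v, dg G K v ≤ 1) {e f : E} (he : e ∈ K) (hf : f ∈ K)
    {v : V} (hev : v ∈ G.ends e) (hfv : v ∈ G.ends f) : e = f := by
  have h1 := h v
  unfold dg at h1
  exact Finset.card_le_one.1 h1 e (by simp [he, hev]) f (by simp [hf, hfv])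

theorem enum {E : Type} [DecidableEq E] (K C : Finset E) (d c : ℕ) (hd : K.card = d)
    (hc : (K.filter (· ∈ C)).card = c) :
    ∃ ℓ : Fin d → E, Function.Injective ℓ ∧ (∀ e, e ∈ K ↔ ∃ j, e = ℓ j) ∧
      ∀ j, ℓ j ∈ C ↔ (j : ℕ) < c := by
  have hcd : c ≤ d := by
    rw [← hd, ← hc]
    exact Finset.card_filter_le _ _
  let φ : Fin d ≃ K := (Finset.equivFinOfCardEq hd).symm
  have h1 : Fintype.card {j : Fin d // (j : ℕ) < c} = c := by
    rw [Fintype.card_subtype, Fin.card_filter_val_lt]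
    omega
  have h2 : Fintype.card {j : Fin d // (φ j : E) ∈ C} = c := by
    rw [Fintype.card_subtype, ← hc]
    apply Finset.card_bij (fun j _ => (φ j : E))
    · intro j hj
      exact Finset.mem_filter.2 ⟨(φ j).2, (Finset.mem_filter.1 hj).2⟩
    · intro i _ j _ hij
      exact φ.injective (Subtype.ext hij)
    · intro e he
      obtain ⟨he1, he2⟩ := Finset.mem_filter.1 he
      refine ⟨φ.symm ⟨e, he1⟩, ?_, ?_⟩
      · simp [he2]
      · simp
  let σ : Equiv.Perm (Fin d) := (Fintype.equivOfCardEq (h1.trans h2.symm)).extendSubtype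
  refine ⟨fun j => (φ (σ j) : E), ?_, ?_, ?_⟩
  · intro i j hij
    exact σ.injective (φ.injective (Subtype.ext hij))
  · intro e
    constructor
    · intro he
      refine ⟨σ.symm (φ.symm ⟨e, he⟩), ?_⟩
      simp
    · rintro ⟨j, rfl⟩
      exact (φ (σ j)).2
  · intro j
    constructor
    · intro h
      by_contra h3
      exact Equiv.extendSubtype_not_mem (Fintype.equivOfCardEq (h1.trans h2.symm)) j h3 h
    · intro h
      exact Equiv.extendSubtype_mem (Fintype.equivOfCardEq (h1.trans h2.symm)) j h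

end LegsX54

theorem legsX : TLegsX := by
  intro V E _ _ _ _ G C X d c hd hc hdg
  have hC : (cut G univ X).filter (· ∈ C) = cut G C X := by
    ext e
    simp only [cut, Finset.mem_filter, Finset.mem_univ, true_and]
    tauto
  obtain ⟨ℓ, hinj, hcut, hlt⟩ := LegsX54.enum (cut G univ X) C d c hd (by rw [hC]; exact hc)
  have hm : ∀ j, ℓ j ∈ cut G univ X := fun j => (hcut _).2 ⟨j, rfl⟩
  choose y x hyx hy hx using fun j => LegsX54.ends_of G univ X (ℓ j) (hm j)
  refine ⟨y, x, ℓ, ⟨hyx, hy, hx, ?_, ?_, hcut⟩, hlt⟩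
  · intro i j hij
    apply hinj
    apply LegsX54.eq_of_dg G _ hdg (hm i) (hm j) (v := y i)
    · rw [hyx]; simp
    · rw [hyx, ← hij]; simp
  · intro i j hij
    apply hinj
    apply LegsX54.eq_of_dg G _ hdg (hm i) (hm j) (v := x i)
    · rw [hyx]; simp
    · rw [hyx, ← hij]; simp

end Pool.Agent.H10R3.SC
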