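import Pool.Agent.H10R3.SC.Stmts3
import Pool.Agent.H10R3.SC.Result
import Pool.Agent.H10R3.SC.TFind

set_option autoImplicit false
set_option linter.unusedSectionVars false

/-! Circuits are the minimal nonempty even sets (project H10-CX). -/

open Finset

namespace Pool.Agent.H10R3.SC.MinC

open Pool.Agent.Helper347.Sab
open Pool.Agent.H444.FA
open Pool.Agent.H10R3.SC

theorem minCirc : TMinCirc := by
  intro V E _ _ _ _ G D
  constructor
  · intro hD Z hZD hne hev
    obtain ⟨e, he⟩ := hne
    apply Subset.antisymm hZD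
    intro f hf
    have hstep : ∀ a b, a ∈ Z → b ∈ D → Touch G a b → b ∈ Z := by
      rintro a b ha hb ⟨v, hva, hvb⟩
      have h1 : 0 < dg G Z v := dg_pos_mem (G := G) ha hva
      have h2 : dg G Z v ≤ dg G D v := card_le_card (filter_subset_filter _ hZD)
      have h3 := hD.2.1 v
      obtain ⟨t, ht⟩ := hev v
      have h4 : dg G D v ≤ dg G Z v := by omega
      exact Find.filter_eq_of_le G hZD v h4 hb hvb
    have hchain : ∀ f, Relation.ReflTransGen (fun a b => b ∈ D ∧ Touch G a b) e f → f ∈ Z := by
      intro f hf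
      induction hf with
      | refl => exact he
      | tail _ h2 ih => exact hstep _ _ ih h2.1 h2.2
    exact hchain f (hD.2.2 e (hZD he) f hf)
  · intro hne hdeg hmin
    obtain ⟨X, hXD, hX, _⟩ := component G D hdeg hne
    have h1 := hmin X hXD hX.1 (circ_ev hX)
    rw [← h1]
    exact hX

end Pool.Agent.H10R3.SC.MinC
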