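import Pool.Agent.H10R3.SC.Stmts3

set_option autoImplicit false
set_option linter.unusedSectionVars false

open Finset

namespace Pool.Agent.H10R3.SC.PadT

open Pool.Agent.Helper347.Sab
open Pool.Agent.H444.FA
open Pool.Agent.H10R3.SC

theorem pad : TPad := by
  intro V E _ _ _ _ G C X d y n Z hZ P U f hPU hf hpat
  refine ⟨n + 3, Fin.append Z (fun _ : Fin 3 => (∅ : Finset E)), ⟨?_, ?_, ?_⟩, ?_⟩
  · intro c
    induction c using Fin.addCases with
    | left c => rw [Fin.append_left]; exact hZ.1 c
    | right c => rw [Fin.append_right]; exact empty_subset _
  · intro e he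
    rw [← hZ.2.1 e he]
    rw [card_filter, card_filter, Fin.sum_univ_add]
    simp
  · intro c v hv
    induction c using Fin.addCases with
    | left c => rw [Fin.append_left]; exact hZ.2.2 c v hv
    | right c =>
      rw [Fin.append_right]
      simp [dg]
  · refine ⟨⟨fun s => if s ∈ U then Fin.castAdd 3 (f s) else Fin.natAdd n s, ?_⟩, ?_⟩
    · intro s t hst
      simp only at hst
      by_cases hs : s ∈ U
      · by_cases ht : t ∈ U
        · rw [if_pos hs, if_pos ht] at hst
          exact hf s hs t ht (Fin.castAdd_injective n 3 hst)
        · rw [if_pos hs, if_neg ht] at hst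
          have := congrArg Fin.val hst
          simp at this
          omega
      · by_cases ht : t ∈ U
        · rw [if_neg hs, if_pos ht] at hst
          have := congrArg Fin.val hst
          simp at this
          omega
        · rw [if_neg hs, if_neg ht] at hst
          exact Fin.natAdd_injective 3 n hst
    · intro i
      ext c
      unfold pat
      rw [mem_filter, mem_map]
      induction c using Fin.addCases with
      | left c =>
        rw [Fin.append_left]
        have h1 : c ∈ pat G y Z i ↔ c ∈ (P i).image f := by rw [hpat i]
        unfold pat at h1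
        rw [mem_filter, mem_image] at h1
        constructor
        · rintro ⟨_, h2⟩
          obtain ⟨s, hs, hs2⟩ := h1.1 ⟨mem_univ _, h2⟩
          refine ⟨s, hs, ?_⟩
          show (if s ∈ U then Fin.castAdd 3 (f s) else Fin.natAdd n s) = Fin.castAdd 3 c
          rw [if_pos (hPU i hs), hs2]
        · rintro ⟨s, hs, hs2⟩
          refine ⟨mem_univ _, (h1.2 ⟨s, hs, ?_⟩).2⟩
          change (if s ∈ U then Fin.castAdd 3 (f s) else Fin.natAdd n s) = Fin.castAdd 3 c at hs2
          rw [if_pos (hPU i hs)] at hs2
          exact Fin.castAdd_injective n 3 hs2
      | right c =>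
        rw [Fin.append_right]
        constructor
        · rintro ⟨_, h2⟩
          simp [dg] at h2
        · rintro ⟨s, hs, hs2⟩
          change (if s ∈ U then Fin.castAdd 3 (f s) else Fin.natAdd n s) = Fin.natAdd n c at hs2
          rw [if_pos (hPU i hs)] at hs2
          have := congrArg Fin.val hs2
          simp at this
          omega

end Pool.Agent.H10R3.SC.PadT
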