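import Pool.Agent.H10R3.SC.Stmts3
import Pool.Agent.H444.FA.ExtL

set_option autoImplicit false
set_option linter.unusedSectionVars false

/-! The new graph has no one-element cuts (task CX2-brX). -/

open Finset

namespace Pool.Agent.H10R3.SC.BrX699

open Pool.Agent.Helper347.Sab
open Pool.Agent.H444.FA
open Pool.Agent.H10R3.SC

variable {V E : Type} [Fintype V] [DecidableEq V] [Fintype E] [DecidableEq E]

/-- the old vertices of `X` in `Y` -/
def zx (X : Finset V) {a : ℕ} (Y : Finset (V ⊕ Fin a)) : Finset V :=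
  X.filter fun v => (Sum.inl v : V ⊕ Fin a) ∈ Y

theorem mem_zx {X : Finset V} {a : ℕ} {Y : Finset (V ⊕ Fin a)} {v : V} :
    v ∈ zx X Y ↔ v ∈ X ∧ (Sum.inl v : V ⊕ Fin a) ∈ Y := by simp [zx]

theorem card_ext (G : MGraph V E) (X : Finset V) {a b : ℕ} (g : Fin b → Sym2 (V ⊕ Fin a))
    (hg : ∀ j, ¬ (g j).IsDiag) (Y : Finset (V ⊕ Fin a)) :
    (cut (ext G g hg) (inG (ins G univ X)) Y).card =
      (cut G (ins G univ X) (zx X Y)).card + crs g Y := by
  have h1 : cut (ext G g hg) (inG (ins G univ X)) Y =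
      (cut G (ins G univ X) (zx X Y)).map ⟨Sum.inl, Sum.inl_injective⟩ ∪
      (univ.filter fun k => (∃ u, u ∈ g k ∧ u ∈ Y) ∧ ∃ w, w ∈ g k ∧ w ∉ Y).map
        ⟨Sum.inr, Sum.inr_injective⟩ := by
    ext e
    rcases e with e | k
    · simp only [cut, mem_filter, inl_mem_inG, mem_union, mem_map, Function.Embedding.coeFn_mk,
        reduceCtorEq, and_false, exists_false, or_false, Sum.inl.injEq, exists_eq_right]
      constructor
      · rintro ⟨h1, ⟨u, hu, hu2⟩, ⟨w, hw, hw2⟩⟩
        have hX : ∀ v, v ∈ G.ends e → v ∈ X := (mem_filter.1 h1).2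
        refine ⟨h1, ?_, ?_⟩
        · rcases u with u | u
          · have hu' := (ext_inl_inl G g hg e u).1 hu
            exact ⟨u, hu', mem_zx.2 ⟨hX u hu', hu2⟩⟩
          · exact absurd hu (ext_inr_inl G g hg e u)
        · rcases w with w | w
          · have hw' := (ext_inl_inl G g hg e w).1 hw
            exact ⟨w, hw', fun h => hw2 (mem_zx.1 h).2⟩
          · exact absurd hw (ext_inr_inl G g hg e w)
      · rintro ⟨h1, ⟨u, hu, hu2⟩, ⟨w, hw, hw2⟩⟩
        have hX : ∀ v, v ∈ G.ends e → v ∈ X := (mem_filter.1 h1).2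
        exact ⟨h1, ⟨Sum.inl u, (ext_inl_inl G g hg e u).2 hu, (mem_zx.1 hu2).2⟩,
          ⟨Sum.inl w, (ext_inl_inl G g hg e w).2 hw, fun h => hw2 (mem_zx.2 ⟨hX w hw, h⟩)⟩⟩
    · simp only [cut, mem_filter, inr_mem_inG, true_and, mem_union, mem_map,
        Function.Embedding.coeFn_mk, reduceCtorEq, and_false, exists_false, false_or,
        Sum.inr.injEq, exists_eq_right, mem_univ, ext_inr]
  rw [h1, card_union_of_disjoint, card_map, card_map]
  · rfl
  · rw [disjoint_left]
    intro e h2 h3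
    simp only [mem_map, Function.Embedding.coeFn_mk] at h2 h3
    obtain ⟨e1, _, rfl⟩ := h2
    obtain ⟨j, _, h4⟩ := h3
    exact absurd h4 (by simp)

theorem leg_inj {G : MGraph V E} {X : Finset V} {d : ℕ} {y x : Fin d → V} {ℓ : Fin d → E}
    (hc : Cr G X y x ℓ) : Function.Injective ℓ := by
  intro i j h
  have h1 : s(y i, x i) = s(y j, x j) := by rw [← hc.ends, ← hc.ends, h]
  rcases Sym2.eq_iff.1 h1 with h2 | h2
  · exact hc.yinj h2.1
  · exact absurd (h2.1 ▸ hc.yin i) (hc.xout j)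

/-- edges leaving a subset of `X` -/
theorem card_sub {G : MGraph V E} {X : Finset V} {d : ℕ} {y x : Fin d → V} {ℓ : Fin d → E}
    (hc : Cr G X y x ℓ) (Z : Finset V) (hZ : Z ⊆ X) :
    (cut G univ Z).card = (cut G (ins G univ X) Z).card +
      (univ.filter fun j => y j ∈ Z).card := by
  have h1 : cut G univ Z = cut G (ins G univ X) Z ∪
      (univ.filter fun j => y j ∈ Z).map ⟨ℓ, leg_inj hc⟩ := by
    ext e
    simp only [mem_union, mem_map, Function.Embedding.coeFn_mk, mem_filter, mem_univ, true_and]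
    constructor
    · intro he
      obtain ⟨-, ⟨u, hu, hu2⟩, ⟨w, hw, hw2⟩⟩ := mem_filter.1 he
      by_cases hin : ∀ v, v ∈ G.ends e → v ∈ X
      · left
        exact mem_filter.2 ⟨mem_filter.2 ⟨mem_univ _, hin⟩, ⟨u, hu, hu2⟩, ⟨w, hw, hw2⟩⟩
      · right
        push Not at hin
        obtain ⟨v, hv, hv2⟩ := hin
        obtain ⟨j, rfl⟩ := (hc.cut e).1 (mem_filter.2 ⟨mem_univ _, ⟨u, hu, hZ hu2⟩, ⟨v, hv, hv2⟩⟩)
        refine ⟨j, ?_, rfl⟩
        rw [hc.ends, Sym2.mem_iff] at hu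
        rcases hu with rfl | rfl
        · exact hu2
        · exact absurd (hZ hu2) (hc.xout j)
    · rintro (he | ⟨j, hj, rfl⟩)
      · obtain ⟨-, h2⟩ := mem_filter.1 he
        exact mem_filter.2 ⟨mem_univ _, h2⟩
      · refine mem_filter.2 ⟨mem_univ _, ⟨y j, ?_, hj⟩, ⟨x j, ?_, fun h => hc.xout j (hZ h)⟩⟩
        · rw [hc.ends]; simp
        · rw [hc.ends]; simp
  rw [h1, card_union_of_disjoint, card_map]
  rw [disjoint_left]
  intro e h2 h3
  simp only [mem_map, Function.Embedding.coeFn_mk] at h3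
  obtain ⟨j, _, rfl⟩ := h3
  have h4 := (mem_filter.1 (mem_filter.1 h2).1).2 (x j) (by rw [hc.ends]; simp)
  exact hc.xout j h4

theorem card_compl {G : MGraph V E} {X : Finset V} (Z : Finset V) (hZ : Z ⊆ X) :
    cut G (ins G univ X) (X \ Z) = cut G (ins G univ X) Z := by
  ext e
  constructor
  · intro he
    obtain ⟨h1, ⟨u, hu, hu2⟩, ⟨w, hw, hw2⟩⟩ := mem_filter.1 he
    have hX := (mem_filter.1 h1).2
    refine mem_filter.2 ⟨h1, ⟨w, hw, ?_⟩, ⟨u, hu, (mem_sdiff.1 hu2).2⟩⟩
    by_contra h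
    exact hw2 (mem_sdiff.2 ⟨hX w hw, h⟩)
  · intro he
    obtain ⟨h1, ⟨u, hu, hu2⟩, ⟨w, hw, hw2⟩⟩ := mem_filter.1 he
    have hX := (mem_filter.1 h1).2
    exact mem_filter.2 ⟨h1, ⟨w, hw, mem_sdiff.2 ⟨hX w hw, hw2⟩⟩,
      ⟨u, hu, fun h => (mem_sdiff.1 h).2 hu2⟩⟩

end Pool.Agent.H10R3.SC.BrX699

namespace Pool.Agent.H10R3.SC

open Pool.Agent.Helper347.Sab
open Pool.Agent.H444.FA
open BrX699

theorem brX : TBrX := by
  intro V E _ _ _ _ G X d y x ℓ hc h1 h4 a b g hNB hg Y hY
  rw [card_ext] at hY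
  have hZ : zx X Y ⊆ X := filter_subset _ _
  have hK : (univ.filter fun j => y j ∈ zx X Y) = lg y Y := by
    ext j
    simp only [lg, mem_filter, mem_univ, true_and, mem_zx]
    exact ⟨fun h => h.2, fun h => ⟨hc.yin j, h⟩⟩
  have hK2 : (univ.filter fun j => y j ∈ X \ zx X Y).card + (lg y Y).card = d := by
    have : (univ.filter fun j => y j ∈ X \ zx X Y) = univ \ lg y Y := by
      ext j
      simp only [lg, mem_filter, mem_univ, true_and, mem_sdiff, mem_zx]
      exact ⟨fun h h2 => h.2 ⟨hc.yin j, h2⟩, fun h => ⟨hc.yin j, fun h2 => h h2.2⟩⟩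
    rw [this, card_sdiff_add_card_eq_card (subset_univ _)]
    simp
  have c1 := card_sub hc (zx X Y) hZ
  rw [hK] at c1
  have c2 := card_sub hc (X \ zx X Y) sdiff_subset
  rw [card_compl (zx X Y) hZ] at c2
  have n1 := h1 (zx X Y)
  have n2 := h1 (X \ zx X Y)
  have two : (lg y Y).card = 2 → d = 4 → (cut G univ (zx X Y)).card ≠ 3 := by
    intro hk hd h3
    rcases (h4 hd).2 _ h3 with h5 | h5
    · have h6 : (lg y Y).card ≤ (zx X Y).card := by
        rw [← card_image_of_injective (lg y Y) hc.yinj]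
        apply card_le_card
        intro v hv
        obtain ⟨j, hj, rfl⟩ := mem_image.1 hv
        exact mem_zx.2 ⟨hc.yin j, (mem_filter.1 hj).2⟩
      omega
    · have h6 : d ≤ ((zx X Y)ᶜ).card := by
        have : (univ.image x).card = d := by
          rw [card_image_of_injective _ hc.xinj]; simp
        rw [← this]
        apply card_le_card
        intro v hv
        obtain ⟨j, _, rfl⟩ := mem_image.1 hv
        exact mem_compl.2 fun h => hc.xout j (hZ h)
      omega
  by_cases hcr : crs g Y = 0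
  · rcases hNB.zero Y hcr with h | h | ⟨hd, h⟩
    · omega
    · omega
    · have := two h hd
      omega
  · have hcr1 : crs g Y = 1 := by omega
    rcases hNB.one Y hcr1 with h | h | ⟨hd, h⟩
    · omega
    · omega
    · have := (h4 hd).1 (zx X Y)
      omega

end Pool.Agent.H10R3.SC
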