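import Pool.Agent.H10R3.SC.Stmts3
import Pool.Agent.H10R3.SC.Min
import Pool.Agent.H10R3.SC.ExtFr

set_option autoImplicit false
set_option linter.unusedSectionVars false

/-!
Task TDegX of the project H10-CX: degrees and size of the new graph.
-/

open Finset

namespace Pool.Agent.H10R3.SC.DegX

open Pool.Agent.Helper347.Sab
open Pool.Agent.H444.FA

section

variable {V E : Type} [Fintype V] [DecidableEq V] [Fintype E] [DecidableEq E]
variable {G : MGraph V E} {X : Finset V} {d : ℕ} {y x : Fin d → V} {ℓ : Fin d → E}

theorem linj (h : Cr G X y x ℓ) : Function.Injective ℓ := by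
  intro i j hij
  apply h.yinj
  have h1 : y i ∈ G.ends (ℓ i) := by rw [h.ends]; simp
  rw [hij, h.ends, Sym2.mem_iff] at h1
  rcases h1 with h1 | h1
  · exact h1
  · exact absurd (h1 ▸ h.yin i) (h.xout j)

theorem card_cut (h : Cr G X y x ℓ) : (SC.cut G univ X).card = d := by
  have h1 : SC.cut G univ X = univ.image ℓ := by
    ext e
    rw [h.cut, mem_image]
    constructor
    · rintro ⟨j, rfl⟩
      exact ⟨j, mem_univ _, rfl⟩
    · rintro ⟨j, _, rfl⟩
      exact ⟨j, rfl⟩
  rw [h1, card_image_of_injective _ (linj h), card_univ, Fintype.card_fin]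

/-- the degree of a vertex of `X` -/
theorem dg_split (G : MGraph V E) (X : Finset V) {v : V} (hv : v ∈ X) :
    dg G univ v = dg G (ins G univ X) v + dg G (SC.cut G univ X) v := by
  unfold dg
  rw [← card_union_of_disjoint]
  · congr 1
    ext e
    unfold ins SC.cut
    rw [mem_filter, mem_union, mem_filter, mem_filter, mem_filter, mem_filter]
    constructor
    · rintro ⟨_, h2⟩
      by_cases h : ∀ w, w ∈ G.ends e → w ∈ X
      · exact Or.inl ⟨⟨mem_univ _, h⟩, h2⟩
      · push Not at h
        exact Or.inr ⟨⟨mem_univ _, ⟨v, h2, hv⟩, h⟩, h2⟩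
    · rintro (⟨_, h2⟩ | ⟨_, h2⟩)
      · exact ⟨mem_univ _, h2⟩
      · exact ⟨mem_univ _, h2⟩
  · rw [disjoint_left]
    intro e h1 h2
    unfold ins SC.cut at *
    rw [mem_filter, mem_filter] at h1 h2
    obtain ⟨⟨_, _, w, h3, h4⟩, _⟩ := h2
    exact h4 (h1.1.2 w h3)

theorem dg_cut_leg (h : Cr G X y x ℓ) (j : Fin d) : dg G (SC.cut G univ X) (y j) = 1 := by
  unfold dg
  rw [card_eq_one]
  refine ⟨ℓ j, ?_⟩
  ext e
  rw [mem_filter, mem_singleton, h.cut]
  constructor
  · rintro ⟨⟨i, rfl⟩, h2⟩
    rw [h.ends, Sym2.mem_iff] at h2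
    rcases h2 with h2 | h2
    · rw [h.yinj h2]
    · exact absurd (h2 ▸ h.yin j) (h.xout i)
  · rintro rfl
    refine ⟨⟨j, rfl⟩, ?_⟩
    rw [h.ends]
    simp

theorem dg_cut_other (h : Cr G X y x ℓ) {v : V} (hv : v ∈ X) (hy : ∀ j, v ≠ y j) :
    dg G (SC.cut G univ X) v = 0 := by
  unfold dg
  rw [card_eq_zero, filter_eq_empty_iff]
  intro e he hve
  obtain ⟨i, rfl⟩ := (h.cut e).1 he
  rw [h.ends, Sym2.mem_iff] at hve
  rcases hve with h2 | h2
  · exact hy i h2
  · exact h.xout i (h2 ▸ hv)

theorem dg_ins_out (G : MGraph V E) {X : Finset V} {v : V} (hv : v ∉ X) :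
    dg G (ins G univ X) v = 0 := by
  unfold dg
  rw [card_eq_zero, filter_eq_empty_iff]
  intro e he hve
  unfold ins at he
  rw [mem_filter] at he
  exact hv (he.2 v hve)

end

theorem degX : TDegX := by
  intro V E _ _ _ _ G hG X d y x ℓ h hd a b g hg hdiag
  constructor
  · rintro (v | w)
    · rw [dg_inG]
      by_cases hvX : v ∈ X
      · right
        have h1 := dg_split G X hvX
        rw [hG v] at h1
        by_cases hy : ∃ j, v = y j
        · obtain ⟨j, rfl⟩ := hy
          rw [dg_cut_leg h j] at h1
          have h2 := hg.leg j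
          omega
        · push Not at hy
          rw [dg_cut_other h hvX hy] at h1
          have h2 : (univ.filter fun j : Fin b => (Sum.inl v : V ⊕ Fin a) ∈ g j) = ∅ := by
            rw [filter_eq_empty_iff]
            intro k _ hk
            obtain ⟨j, hj⟩ := hg.old k v hk
            exact hy j hj
          rw [h2, card_empty]
          omega
      · left
        have h2 : (univ.filter fun j : Fin b => (Sum.inl v : V ⊕ Fin a) ∈ g j) = ∅ := by
          rw [filter_eq_empty_iff]
          intro k _ hk
          obtain ⟨j, hj⟩ := hg.old k v hk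
          exact hvX (hj ▸ h.yin j)
        rw [dg_ins_out G hvX, h2, card_empty]
    · right
      rw [dg_new]
      have h1 : (univ.filter fun j : Fin b => (Sum.inr j : E ⊕ Fin b) ∈
          (inG (ins G univ X) : Finset (E ⊕ Fin b)) ∧ (Sum.inr w : V ⊕ Fin a) ∈ g j) =
          univ.filter fun j : Fin b => (Sum.inr w : V ⊕ Fin a) ∈ g j := by
        ext j
        rw [mem_filter, mem_filter]
        exact ⟨fun hh => ⟨hh.1, hh.2.2⟩, fun hh => ⟨hh.1, inr_mem_inG _ j, hh.2⟩⟩
      rw [h1]
      exact hg.new w
  · have hcard : (inG (ins G univ X) : Finset (E ⊕ Fin b)).card = (ins G univ X).card + b := by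
      unfold inG inE
      rw [card_union_of_disjoint, card_map, card_map, card_univ, Fintype.card_fin]
      rw [disjoint_left]
      intro e h1 h2
      rw [mem_map] at h1 h2
      obtain ⟨u, _, rfl⟩ := h1
      obtain ⟨w, _, h3⟩ := h2
      exact absurd h3 (by simp)
    rw [hcard]
    have hb := hg.bd
    -- the complement
    have hc : (SC.cut G univ Xᶜ).card = d := by rw [ExtFr.cut_compl, card_cut h]
    have hs := sum_dg_le G univ Xᶜ
    rw [sum_congr rfl (fun v _ => hG v), sum_const, smul_eq_mul, hc] at hs
    have hx : d ≤ (Xᶜ).card := by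
      have : (univ.image x).card = d := by
        rw [card_image_of_injective _ h.xinj, card_univ, Fintype.card_fin]
      rw [← this]
      refine card_le_card ?_
      intro v hv
      rw [mem_image] at hv
      obtain ⟨j, _, rfl⟩ := hv
      rw [mem_compl]
      exact h.xout j
    have hE : (ins G univ X).card + d + (ins G univ Xᶜ).card ≤ Fintype.card E := by
      have h1 : Disjoint (ins G univ X) (SC.cut G univ X) := by
        rw [disjoint_left]
        intro e h1 h2
        unfold ins SC.cut at *
        rw [mem_filter] at h1 h2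
        obtain ⟨_, _, w, h3, h4⟩ := h2
        exact h4 (h1.2 w h3)
      have h2 : Disjoint (ins G univ X ∪ SC.cut G univ X) (ins G univ Xᶜ) := by
        rw [disjoint_left]
        intro e h1 h2
        unfold ins SC.cut at *
        rw [mem_union, mem_filter, mem_filter] at h1
        rw [mem_filter] at h2
        rcases h1 with h1 | h1
        · obtain ⟨u, v, _, huv⟩ := exists_ends G e
          have hu : u ∈ G.ends e := by rw [huv]; simp
          have := h2.2 u hu
          rw [mem_compl] at this
          exact this (h1.2 u hu)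
        · obtain ⟨_, ⟨u, h3, h4⟩, _⟩ := h1
          have := h2.2 u h3
          rw [mem_compl] at this
          exact this h4
      rw [← card_cut h, ← card_union_of_disjoint h1, ← card_union_of_disjoint h2]
      exact card_le_univ _
    omega

end Pool.Agent.H10R3.SC.DegX

namespace Pool.Agent.H10R3.SC

theorem degX : TDegX := DegX.degX

end Pool.Agent.H10R3.SC
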