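import Pool.Agent.H10R3.SC.Stmts3

set_option autoImplicit false
set_option linter.unusedSectionVars false

/-! Gluing two covers with the same pattern. -/

open Finset

namespace Pool.Agent.H10R3.SC.GlueX

open Pool.Agent.Helper347.Sab
open Pool.Agent.H444.FA

section

variable {V E : Type} [Fintype V] [DecidableEq V] [Fintype E] [DecidableEq E]

theorem dgA (G : MGraph V E) {W F : Finset E} {v : V}
    (h : ∀ e, v ∈ G.ends e → (e ∈ W ↔ e ∈ F)) : dg G W v = dg G F v := by
  unfold dg
  congr 1
  ext e
  simp only [mem_filter]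
  constructor
  · rintro ⟨h1, h2⟩
    exact ⟨(h e h2).1 h1, h2⟩
  · rintro ⟨h1, h2⟩
    exact ⟨(h e h2).2 h1, h2⟩

theorem dgB (G : MGraph V E) {W F : Finset E} {v : V} {e0 : E} (he0 : v ∈ G.ends e0)
    (hF : e0 ∉ F) (h : ∀ e, v ∈ G.ends e → (e ∈ W ↔ e ∈ F ∨ e = e0)) :
    dg G W v = dg G F v + 1 := by
  unfold dg
  have h1 : (W.filter fun e => v ∈ G.ends e) = insert e0 (F.filter fun e => v ∈ G.ends e) := by
    ext e
    simp only [mem_filter, mem_insert]
    constructor
    · rintro ⟨h1, h2⟩
      rcases (h e h2).1 h1 with h3 | h3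
      · exact Or.inr ⟨h3, h2⟩
      · exact Or.inl h3
    · rintro (rfl | ⟨h1, h2⟩)
      · exact ⟨(h e he0).2 (Or.inr rfl), he0⟩
      · exact ⟨(h e h2).2 (Or.inl h1), h2⟩
  rw [h1, card_insert_of_notMem]
  intro h2
  exact hF (mem_filter.1 h2).1

theorem dg_empty (G : MGraph V E) (v : V) : dg G ∅ v = 0 := by
  simp [dg]

theorem card_sum {α β : Type} [Fintype α] [Fintype β] (p : α ⊕ β → Prop) [DecidablePred p] :
    (univ.filter p).card = (univ.filter fun a => p (Sum.inl a)).card +
      (univ.filter fun b => p (Sum.inr b)).card := by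
  simp only [Finset.card_filter, Fintype.sum_sum_type]

theorem mem_ins (G : MGraph V E) (X : Finset V) (e : E) :
    e ∈ ins G univ X ↔ ∀ u, u ∈ G.ends e → u ∈ X := by
  simp [ins]

end

theorem glueX : TGlueX := by
  classical
  intro V E _ _ _ _ G C X d y x ℓ hCr P hP h1 h2
  obtain ⟨n1, Z1, ⟨h1a, h1b, h1c⟩, i1, hp1⟩ := h1
  obtain ⟨n2, Z2, ⟨h2a, h2b, h2c⟩, i2, hp2⟩ := h2
  have hmem : ∀ j u, u ∈ G.ends (ℓ j) ↔ u = y j ∨ u = x j := by
    intro j u
    rw [hCr.ends j, Sym2.mem_iff]
  have hyl : ∀ j, y j ∈ G.ends (ℓ j) := fun j => (hmem j _).2 (Or.inl rfl)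
  have hxl : ∀ j, x j ∈ G.ends (ℓ j) := fun j => (hmem j _).2 (Or.inr rfl)
  have hlinj : Function.Injective ℓ := by
    intro j j' h
    have h3 := hyl j
    rw [h, hmem] at h3
    rcases h3 with h3 | h3
    · exact hCr.yinj h3
    · exact absurd (h3 ▸ hCr.yin j) (hCr.xout j')
  have hlX : ∀ j, ℓ j ∉ ins G univ X := fun j h =>
    hCr.xout j ((mem_ins G X _).1 h _ (hxl j))
  have hlXc : ∀ j, ℓ j ∉ ins G univ Xᶜ := fun j h =>
    mem_compl.1 ((mem_ins G Xᶜ _).1 h _ (hyl j)) (hCr.yin j)
  have hZ1v : ∀ c e v, e ∈ Z1 c → v ∈ G.ends e → v ∈ X := fun c e v he hv =>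
    (mem_ins G X e).1 (h1a c he) v hv
  have hZ2v : ∀ c e v, e ∈ Z2 c → v ∈ G.ends e → v ∉ X := fun c e v he hv =>
    mem_compl.1 ((mem_ins G Xᶜ e).1 (h2a c he) v hv)
  have hne : ∀ e : E, ∃ u, u ∈ G.ends e := fun e => ⟨_, Sym2.out_fst_mem (G.ends e)⟩
  have htri : ∀ e, e ∈ ins G univ X ∨ e ∈ ins G univ Xᶜ ∨ ∃ j, e = ℓ j := by
    intro e
    by_cases ha : e ∈ ins G univ X
    · exact Or.inl ha
    by_cases hb : e ∈ ins G univ Xᶜ
    · exact Or.inr (Or.inl hb)
    · refine Or.inr (Or.inr ((hCr.cut e).1 ?_))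
      rw [mem_ins] at ha hb
      push Not at ha hb
      obtain ⟨w, hw, hw'⟩ := ha
      obtain ⟨u, hu, hu'⟩ := hb
      rw [mem_compl, not_not] at hu'
      unfold SC.cut
      rw [mem_filter]
      exact ⟨mem_univ _, ⟨u, hu, hu'⟩, w, hw, hw'⟩
  let W : Fin n1 ⊕ Fin n2 → Finset E := Sum.elim
    (fun c1 => univ.filter fun e => e ∈ Z1 c1 ∨ (∃ s, i1 s = c1 ∧ e ∈ Z2 (i2 s)) ∨
      ∃ j, e = ℓ j ∧ ∃ s ∈ P j, i1 s = c1)
    (fun c2 => univ.filter fun e => e ∈ Z2 c2 ∧ ∀ s, i2 s ≠ c2)
  have hWl : ∀ c1 e, e ∈ W (Sum.inl c1) ↔ (e ∈ Z1 c1 ∨ (∃ s, i1 s = c1 ∧ e ∈ Z2 (i2 s)) ∨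
      ∃ j, e = ℓ j ∧ ∃ s ∈ P j, i1 s = c1) := by
    intro c1 e
    simp only [W, Sum.elim_inl, mem_filter, mem_univ, true_and]
  have hWr : ∀ c2 e, e ∈ W (Sum.inr c2) ↔ (e ∈ Z2 c2 ∧ ∀ s, i2 s ≠ c2) := by
    intro c2 e
    simp only [W, Sum.elim_inr, mem_filter, mem_univ, true_and]
  -- counts
  have hcount : ∀ e, (univ.filter fun c => e ∈ W c).card = mS C e := by
    intro e
    rw [card_sum]
    simp only [hWl, hWr]
    rcases htri e with he | he | ⟨j, rfl⟩
    · obtain ⟨u, hu⟩ := hne e
      have huX := (mem_ins G X e).1 he u hu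
      have e1 : (univ.filter fun c1 => e ∈ Z1 c1 ∨ (∃ s, i1 s = c1 ∧ e ∈ Z2 (i2 s)) ∨
          ∃ j, e = ℓ j ∧ ∃ s ∈ P j, i1 s = c1) = univ.filter fun c1 => e ∈ Z1 c1 := by
        refine filter_congr fun c1 _ => ⟨?_, Or.inl⟩
        rintro (h | ⟨s, _, h⟩ | ⟨j, rfl, _⟩)
        · exact h
        · exact absurd huX (hZ2v _ _ _ h hu)
        · exact absurd he (hlX j)
      have e2 : (univ.filter fun c2 => e ∈ Z2 c2 ∧ ∀ s, i2 s ≠ c2) = ∅ := by
        refine filter_eq_empty_iff.2 fun c2 _ h => ?_
        exact hZ2v _ _ _ h.1 hu huX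
      rw [e1, e2, card_empty, add_zero]
      exact h1b e he
    · obtain ⟨u, hu⟩ := hne e
      have huX := mem_compl.1 ((mem_ins G Xᶜ e).1 he u hu)
      have e1 : (univ.filter fun c1 => e ∈ Z1 c1 ∨ (∃ s, i1 s = c1 ∧ e ∈ Z2 (i2 s)) ∨
          ∃ j, e = ℓ j ∧ ∃ s ∈ P j, i1 s = c1) = (univ.filter fun s => e ∈ Z2 (i2 s)).map i1 := by
        ext c1
        simp only [mem_filter, mem_univ, true_and, mem_map]
        constructor
        · rintro (h | ⟨s, hs, h⟩ | ⟨j, rfl, _⟩)
          · exact absurd (hZ1v _ _ _ h hu) huX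
          · exact ⟨s, h, hs⟩
          · exact absurd he (hlXc j)
        · rintro ⟨s, h, hs⟩
          exact Or.inr (Or.inl ⟨s, hs, h⟩)
      have e2 : (univ.filter fun c2 => e ∈ Z2 c2 ∧ ∀ s, i2 s ≠ c2) =
          (univ.filter fun c2 => e ∈ Z2 c2).filter fun c2 => ¬ ∃ s, i2 s = c2 := by
        rw [filter_filter]
        refine filter_congr fun c2 _ => and_congr Iff.rfl ?_
        rw [not_exists]
      have e3 : ((univ.filter fun c2 => e ∈ Z2 c2).filter fun c2 => ∃ s, i2 s = c2) =
          (univ.filter fun s => e ∈ Z2 (i2 s)).map i2 := by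
        ext c2
        simp only [mem_filter, mem_univ, true_and, mem_map]
        constructor
        · rintro ⟨h, s, rfl⟩
          exact ⟨s, h, rfl⟩
        · rintro ⟨s, h, rfl⟩
          exact ⟨h, s, rfl⟩
      have e4 := card_filter_add_card_filter_not (s := univ.filter fun c2 => e ∈ Z2 c2)
        (fun c2 => ∃ s, i2 s = c2)
      rw [e3, card_map] at e4
      rw [e1, e2, card_map, e4]
      exact h2b e he
    · have e1 : (univ.filter fun c1 => ℓ j ∈ Z1 c1 ∨ (∃ s, i1 s = c1 ∧ ℓ j ∈ Z2 (i2 s)) ∨
          ∃ j', ℓ j = ℓ j' ∧ ∃ s ∈ P j', i1 s = c1) = (P j).map i1 := by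
        ext c1
        simp only [mem_filter, mem_univ, true_and, mem_map]
        constructor
        · rintro (h | ⟨s, hs, h⟩ | ⟨j', hj, h⟩)
          · exact absurd (h1a _ h) (hlX j)
          · exact absurd (h2a _ h) (hlXc j)
          · rw [hlinj hj]
            exact h
        · intro h
          exact Or.inr (Or.inr ⟨j, rfl, h⟩)
      have e2 : (univ.filter fun c2 => ℓ j ∈ Z2 c2 ∧ ∀ s, i2 s ≠ c2) = ∅ := by
        refine filter_eq_empty_iff.2 fun c2 _ h => ?_
        exact hlXc j (h2a _ h.1)
      rw [e1, e2, card_empty, add_zero, card_map]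
      exact hP j
  -- parities
  have hodd1 : ∀ j c, Odd (dg G (Z1 c) (y j)) ↔ ∃ s ∈ P j, i1 s = c := by
    intro j c
    have h3 : c ∈ pat G y Z1 j ↔ Odd (dg G (Z1 c) (y j)) := by
      simp [pat]
    rw [← h3, hp1 j, mem_map]
  have hodd2 : ∀ j c, Odd (dg G (Z2 c) (x j)) ↔ ∃ s ∈ P j, i2 s = c := by
    intro j c
    have h3 : c ∈ pat G x Z2 j ↔ Odd (dg G (Z2 c) (x j)) := by
      simp [pat]
    rw [← h3, hp2 j, mem_map]
  have hpar : ∀ c v, Even (dg G (W c) v) := by
    intro c v
    by_cases hv : v ∈ X
    · rcases c with c1 | c2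
      · by_cases hj : ∃ j, v = y j
        · obtain ⟨j0, rfl⟩ := hj
          by_cases hc : ∃ s ∈ P j0, i1 s = c1
          · have h4 : dg G (W (Sum.inl c1)) (y j0) = dg G (Z1 c1) (y j0) + 1 := by
              refine dgB G (hyl j0) (fun h => hlX j0 (h1a _ h)) fun e he => ?_
              rw [hWl]
              constructor
              · rintro (h | ⟨s, _, h⟩ | ⟨j, rfl, _⟩)
                · exact Or.inl h
                · exact absurd hv (hZ2v _ _ _ h he)
                · rcases (hmem j _).1 he with h5 | h5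
                  · exact Or.inr (congrArg ℓ (hCr.yinj h5.symm))
                  · exact absurd (h5 ▸ hv) (hCr.xout j)
              · rintro (h | rfl)
                · exact Or.inl h
                · exact Or.inr (Or.inr ⟨j0, rfl, hc⟩)
            rw [h4]
            exact ((hodd1 j0 c1).2 hc).add_one
          · have h4 : dg G (W (Sum.inl c1)) (y j0) = dg G (Z1 c1) (y j0) := by
              refine dgA G fun e he => ?_
              rw [hWl]
              refine ⟨?_, Or.inl⟩
              rintro (h | ⟨s, _, h⟩ | ⟨j, rfl, h⟩)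
              · exact h
              · exact absurd hv (hZ2v _ _ _ h he)
              · rcases (hmem j _).1 he with h5 | h5
                · rw [← hCr.yinj h5] at h
                  exact absurd h hc
                · exact absurd (h5 ▸ hv) (hCr.xout j)
            rw [h4, ← Nat.not_odd_iff_even, hodd1]
            exact hc
        · push Not at hj
          have h4 : dg G (W (Sum.inl c1)) v = dg G (Z1 c1) v := by
            refine dgA G fun e he => ?_
            rw [hWl]
            refine ⟨?_, Or.inl⟩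
            rintro (h | ⟨s, _, h⟩ | ⟨j, rfl, h⟩)
            · exact h
            · exact absurd hv (hZ2v _ _ _ h he)
            · rcases (hmem j _).1 he with h5 | h5
              · exact absurd h5 (hj j)
              · exact absurd (h5 ▸ hv) (hCr.xout j)
          rw [h4]
          exact h1c c1 v hj
      · have h4 : dg G (W (Sum.inr c2)) v = dg G ∅ v := by
          refine dgA G fun e he => ?_
          rw [hWr]
          exact iff_of_false (fun h => hZ2v _ _ _ h.1 he hv) (notMem_empty e)
        rw [h4, dg_empty]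
        exact Even.zero
    · rcases c with c1 | c2
      · by_cases hs : ∃ s, i1 s = c1
        · obtain ⟨s, rfl⟩ := hs
          by_cases hj : ∃ j, v = x j
          · obtain ⟨j0, rfl⟩ := hj
            by_cases hc : s ∈ P j0
            · have h4 : dg G (W (Sum.inl (i1 s))) (x j0) = dg G (Z2 (i2 s)) (x j0) + 1 := by
                refine dgB G (hxl j0) (fun h => hlXc j0 (h2a _ h)) fun e he => ?_
                rw [hWl]
                constructor
                · rintro (h | ⟨s', hs', h⟩ | ⟨j, rfl, _⟩)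
                  · exact absurd (hZ1v _ _ _ h he) hv
                  · rw [i1.injective hs'] at h
                    exact Or.inl h
                  · rcases (hmem j _).1 he with h5 | h5
                    · exact absurd (h5 ▸ hCr.yin j) hv
                    · exact Or.inr (congrArg ℓ (hCr.xinj h5.symm))
                · rintro (h | rfl)
                  · exact Or.inr (Or.inl ⟨s, rfl, h⟩)
                  · exact Or.inr (Or.inr ⟨j0, rfl, s, hc, rfl⟩)
              rw [h4]
              exact ((hodd2 j0 (i2 s)).2 ⟨s, hc, rfl⟩).add_one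
            · have h4 : dg G (W (Sum.inl (i1 s))) (x j0) = dg G (Z2 (i2 s)) (x j0) := by
                refine dgA G fun e he => ?_
                rw [hWl]
                constructor
                · rintro (h | ⟨s', hs', h⟩ | ⟨j, rfl, s', hs', h⟩)
                  · exact absurd (hZ1v _ _ _ h he) hv
                  · rw [i1.injective hs'] at h
                    exact h
                  · rcases (hmem j _).1 he with h5 | h5
                    · exact absurd (h5 ▸ hCr.yin j) hv
                    · rw [i1.injective h, ← hCr.xinj h5] at hs'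
                      exact absurd hs' hc
                · intro h
                  exact Or.inr (Or.inl ⟨s, rfl, h⟩)
              rw [h4, ← Nat.not_odd_iff_even, hodd2]
              rintro ⟨s', hs', h⟩
              rw [i2.injective h] at hs'
              exact hc hs'
          · push Not at hj
            have h4 : dg G (W (Sum.inl (i1 s))) v = dg G (Z2 (i2 s)) v := by
              refine dgA G fun e he => ?_
              rw [hWl]
              constructor
              · rintro (h | ⟨s', hs', h⟩ | ⟨j, rfl, s', hs', h⟩)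
                · exact absurd (hZ1v _ _ _ h he) hv
                · rw [i1.injective hs'] at h
                  exact h
                · rcases (hmem j _).1 he with h5 | h5
                  · exact absurd (h5 ▸ hCr.yin j) hv
                  · exact absurd h5 (hj j)
              · intro h
                exact Or.inr (Or.inl ⟨s, rfl, h⟩)
            rw [h4]
            exact h2c (i2 s) v hj
        · have h4 : dg G (W (Sum.inl c1)) v = dg G ∅ v := by
            refine dgA G fun e he => ?_
            rw [hWl]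
            refine iff_of_false ?_ (notMem_empty e)
            rintro (h | ⟨s, h, _⟩ | ⟨j, _, s, _, h⟩)
            · exact hv (hZ1v _ _ _ h he)
            · exact hs ⟨s, h⟩
            · exact hs ⟨s, h⟩
          rw [h4, dg_empty]
          exact Even.zero
      · by_cases hs : ∃ s, i2 s = c2
        · have h4 : dg G (W (Sum.inr c2)) v = dg G ∅ v := by
            refine dgA G fun e he => ?_
            rw [hWr]
            obtain ⟨s, hs⟩ := hs
            exact iff_of_false (fun h => h.2 s hs) (notMem_empty e)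
          rw [h4, dg_empty]
          exact Even.zero
        · have h4 : dg G (W (Sum.inr c2)) v = dg G (Z2 c2) v := by
            refine dgA G fun e he => ?_
            rw [hWr]
            exact ⟨fun h => h.1, fun h => ⟨h, fun s h' => hs ⟨s, h'⟩⟩⟩
          rw [h4]
          by_cases hj : ∃ j, v = x j
          · obtain ⟨j0, rfl⟩ := hj
            rw [← Nat.not_odd_iff_even, hodd2]
            rintro ⟨s, _, h⟩
            exact hs ⟨s, h⟩
          · push Not at hj
            exact h2c c2 v hj
  refine ⟨n1 + n2, fun c => W (finSumFinEquiv.symm c), fun _ => subset_univ _, fun e _ => ?_,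
    fun c v => hpar _ v⟩
  rw [← hcount e]
  exact Finset.card_equiv finSumFinEquiv.symm (by simp)

end Pool.Agent.H10R3.SC.GlueX

namespace Pool.Agent.H10R3.SC

theorem glueX : TGlueX := GlueX.glueX

end Pool.Agent.H10R3.SC
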