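import Pool.Agent.H10R3.SC.Stmts3

set_option autoImplicit false
set_option linter.unusedSectionVars false

/-!
Types from the edge and the claw (project H10-CX, part 11).
-/

open Finset

namespace Pool.Agent.H10R3.SC

open Pool.Agent.Helper347.Sab
open Pool.Agent.H444.FA

theorem tyA (h1 : TRead) (h2 : TPad) : TTyA := by
  intro V E _ _ _ _ G C X
  constructor
  · intro y x ℓ hc hd hg hgood
    obtain ⟨n, Z, p, hPC, hcard, hpat, -⟩ := h1 V E G C X 2 y x ℓ hc 0 1 (gEdge y) hd hg {0} hgood
    have h0 : (p 0).card = 1 := by
      rw [hcard 0]; simp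
    obtain ⟨c, hc0⟩ := card_eq_one.mp h0
    have hp0 : pat G y Z 0 = p 0 := hpat 0 0 (by simp [gEdge])
    have hp1 : pat G y Z 1 = p 0 := hpat 1 0 (by simp [gEdge])
    refine h2 V E G C X 2 y n Z hPC P2 {0} (fun _ => c) ?_ ?_ ?_
    · intro i
      fin_cases i <;> simp [P2]
    · intro s hs t ht _
      rw [mem_singleton] at hs ht
      rw [hs, ht]
    · intro i
      fin_cases i
      · simp only [Fin.zero_eta, P2]
        rw [hp0, hc0]
        simp
      · simp only [Fin.mk_one, P2]
        rw [hp1, hc0]
        simp
  · intro y x ℓ hc hd hg hgood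
    obtain ⟨n, Z, p, hPC, hcard, hpat, hev⟩ :=
      h1 V E G C X 3 y x ℓ hc 1 3 (gClaw y) hd hg {0, 1} hgood
    have h0 : (p 0).card = 1 := by
      rw [hcard 0]; simp
    have h1' : (p 1).card = 1 := by
      rw [hcard 1]; simp
    have h2' : (p 2).card = 2 := by
      rw [hcard 2]; simp
    obtain ⟨a, ha⟩ := card_eq_one.mp h0
    obtain ⟨b, hb⟩ := card_eq_one.mp h1'
    have hp0 : pat G y Z 0 = p 0 := hpat 0 0 (by simp [gClaw])
    have hp1 : pat G y Z 1 = p 1 := hpat 1 1 (by simp [gClaw])
    have hp2 : pat G y Z 2 = p 2 := hpat 2 2 (by simp [gClaw])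
    have hmem : ∀ k : Fin 3, (Sum.inr 0 : V ⊕ Fin 1) ∈ gClaw y k := by
      intro k
      fin_cases k <;> simp [gClaw]
    have hsub : p 2 ⊆ {a, b} := by
      intro c hc2
      by_contra hne
      simp only [mem_insert, mem_singleton, not_or] at hne
      have hE := hev 0 c
      have hf : (univ.filter fun k => (Sum.inr 0 : V ⊕ Fin 1) ∈ gClaw y k ∧ c ∈ p k) =
          {(2 : Fin 3)} := by
        ext k
        simp only [mem_filter, mem_univ, true_and, mem_singleton, hmem]
        fin_cases k
        · simp [ha, hne.1]
        · simp [hb, hne.2]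
        · simpa using hc2
      rw [hf, card_singleton] at hE
      exact absurd hE (by decide)
    have hab : a ≠ b := by
      rintro rfl
      have h3 := card_le_card hsub
      simp at h3
      omega
    have hp2' : p 2 = {a, b} := by
      apply eq_of_subset_of_card_le hsub
      rw [h2', card_pair hab]
    refine h2 V E G C X 3 y n Z hPC P3 {0, 1} ![a, b, a] ?_ ?_ ?_
    · intro i
      fin_cases i <;> simp [P3]
    · intro s hs t ht hst
      rw [mem_insert, mem_singleton] at hs ht
      rcases hs with rfl | rfl <;> rcases ht with rfl | rfl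
      · rfl
      · exact absurd hst hab
      · exact absurd hst.symm hab
      · rfl
    · intro i
      fin_cases i
      · simp only [Fin.zero_eta, P3]
        rw [hp0, ha]
        simp
      · simp only [Fin.mk_one, P3]
        rw [hp1, hb]
        simp
      · simp only [Fin.reduceFinMk, P3]
        rw [hp2, hp2']
        simp [image_insert]

end Pool.Agent.H10R3.SC
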