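import Pool.Agent.H10R3.SC.Stmts3

set_option autoImplicit false
set_option linter.unusedSectionVars false

/-!
Project H10-CX, part 14: types from two parallel edges which belong to the new circuit.
-/

open Finset

namespace Pool.Agent.H10R3.SC

open Pool.Agent.Helper347.Sab
open Pool.Agent.H444.FA

lemma tyD_cases (i k l l' : Fin 4) (hk : k ≠ 0) (hl : l ≠ 0) (hl' : l' ≠ 0) (hkl : k ≠ l)
    (hkl' : k ≠ l') (hll' : l ≠ l') : i = 0 ∨ i = k ∨ i = l ∨ i = l' := by
  revert i k l l'
  decide

/-- 14: types from two parallel edges which belong to the new circuit -/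
theorem tyD (h1 : TRead) (h2 : TPad) : TTyD := by
  intro V E _ _ _ _ G C X y x ℓ hC k l l' hk hl hl' hkl hkl' hll' hG hg hGood
  obtain ⟨n, Z, p, hPC, hcard, hpat, -⟩ :=
    h1 V E G C X 4 y x ℓ hC 0 2 (gPar y k l l') hG hg univ hGood
  obtain ⟨c0, hc0⟩ := Finset.card_eq_one.mp (by simpa using hcard 0)
  obtain ⟨c1, hc1⟩ := Finset.card_eq_one.mp (by simpa using hcard 1)
  have e0 : pat G y Z 0 = {c0} := by
    rw [hpat 0 0 (by simp [gPar]), hc0]
  have ek : pat G y Z k = {c0} := by
    rw [hpat k 0 (by simp [gPar]), hc0]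
  have el : pat G y Z l = {c1} := by
    rw [hpat l 1 (by simp [gPar]), hc1]
  have el' : pat G y Z l' = {c1} := by
    rw [hpat l' 1 (by simp [gPar]), hc1]
  by_cases hcc : c0 = c1
  · left
    refine h2 V E G C X 4 y n Z hPC PO {0} (fun _ => c0) (fun i => by simp [PO]) ?_ ?_
    · intro s hs t ht _
      rw [Finset.mem_singleton.mp hs, Finset.mem_singleton.mp ht]
    · intro i
      rcases tyD_cases i k l l' hk hl hl' hkl hkl' hll' with h | h | h | h
      · subst h; rw [e0]; simp [PO]
      · subst h; rw [ek]; simp [PO]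
      · subst h; rw [el]; simp [PO, hcc]
      · subst h; rw [el']; simp [PO, hcc]
  · right
    refine h2 V E G C X 4 y n Z hPC (PM k) {0, 1} ![c0, c1, c0] ?_ ?_ ?_
    · intro i
      unfold PM
      split_ifs <;> simp
    · intro s hs t ht hst
      simp only [Finset.mem_insert, Finset.mem_singleton] at hs ht
      rcases hs with hs | hs <;> rcases ht with ht | ht <;> subst hs <;> subst ht
      · rfl
      · exact absurd (by simpa using hst) hcc
      · exact absurd (by simpa using hst.symm) hcc
      · rfl
    · intro i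
      rcases tyD_cases i k l l' hk hl hl' hkl hkl' hll' with h | h | h | h
      · subst h; rw [e0]; simp [PM]
      · subst h; rw [ek]; simp [PM]
      · subst h; rw [el]; simp [PM, hl, hkl.symm]
      · subst h; rw [el']; simp [PM, hl', hkl'.symm]

end Pool.Agent.H10R3.SC
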