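import Pool.Agent.H10R3.SC.Stmts2

set_option autoImplicit false
set_option linter.unusedSectionVars false

/-!
Task TCdcGood of project H10-MC (by helper857).
-/

open Finset

namespace Pool.Agent.H10R3.SC

open Pool.Agent.Helper347.Sab
open Pool.Agent.H444.FA

theorem cnt_get {E : Type} [DecidableEq E] (l : List (Finset E)) (e : E) :
    (univ.filter fun c : Fin l.length => e ∈ l.get c).card =
      Multiset.countP (fun X => e ∈ X) (l : Multiset (Finset E)) := by
  have h : (univ : Finset (Fin l.length)).val.map l.get = (l : Multiset (Finset E)) := by
    rw [Fin.univ_val_map, List.ofFn_get]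
  rw [← h, Multiset.countP_map]
  rfl

theorem cdcGood : TCdcGood := by
  intro V E _ _ _ _ G C F hF hC
  obtain ⟨F1, rfl⟩ := Multiset.exists_cons_of_mem hC
  induction F1 using Quotient.inductionOn with
  | h l =>
    refine ⟨l.length, l.get, fun _ => subset_univ _, ?_, ?_⟩
    · intro e _
      rw [cnt_get]
      have h := hF.2 e
      rw [Multiset.countP_cons] at h
      unfold mS
      change Multiset.countP (fun X => e ∈ X) (l : Multiset (Finset E)) +
        (if e ∈ C then 1 else 0) = 2 at h
      split_ifs at h ⊢ <;> omega
    · intro c v
      have h := (hF.1 (l.get c) (Multiset.mem_cons_of_mem (by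
        change l.get c ∈ (l : Multiset (Finset E))
        rw [Multiset.mem_coe]
        exact List.get_mem l c))).2.1 v
      rcases h with h | h <;> rw [h] <;> decide

end Pool.Agent.H10R3.SC
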