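import Pool.Agent.H10R3.SC.Stmts2

set_option autoImplicit false
set_option linter.unusedSectionVars false

/-! M1: the subgraph with edge set `H` as a graph of its own. -/

open Finset

namespace Pool.Agent.H10R3.SC

open Pool.Agent.Helper347.Sab

theorem SubG_pos {V E : Type} [Fintype V] [DecidableEq V] [Fintype E] [DecidableEq E]
    (G : MGraph V E) (H : Finset E) {e : E} (he : e ∈ H) {v : V} (hv : v ∈ G.ends e) :
    dg G H v ≠ 0 := by
  unfold dg
  rw [Finset.card_ne_zero]
  exact ⟨e, by simp [he, hv]⟩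

theorem subG : TSubG := by
  intro V E _ _ _ _ G H
  have key : ∀ e' : {e // e ∈ H}, ∃ a b : {v // dg G H v ≠ 0},
      a ≠ b ∧ G.ends e'.1 = s(a.1, b.1) := by
    intro e'
    obtain ⟨a, b, h⟩ : ∃ a b, G.ends e'.1 = s(a, b) := by
      induction G.ends e'.1 using Sym2.ind with
      | _ a b => exact ⟨a, b, rfl⟩
    refine ⟨⟨a, SubG_pos G H e'.2 (by rw [h]; simp)⟩, ⟨b, SubG_pos G H e'.2 (by rw [h]; simp)⟩, ?_, h⟩
    intro hab
    have hab' : a = b := congrArg Subtype.val hab
    apply G.loopless e'.1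
    rw [h, hab']
    simp
  choose ca cb hab hends using key
  refine ⟨{v // dg G H v ≠ 0}, {e // e ∈ H}, inferInstance, inferInstance, inferInstance,
    inferInstance, ⟨fun e' => s(ca e', cb e'), ?_⟩, Subtype.val, Subtype.val,
    Subtype.val_injective, Subtype.val_injective, ?_, ?_, ?_, ?_⟩
  · intro e' h
    rw [Sym2.mk_isDiag_iff] at h
    exact hab e' h
  · intro e
    constructor
    · intro he
      exact ⟨⟨e, he⟩, rfl⟩
    · rintro ⟨e', rfl⟩
      exact e'.2
  · intro e' v'
    show v' ∈ s(ca e', cb e') ↔ v'.1 ∈ G.ends e'.1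
    rw [hends e']
    simp [Subtype.ext_iff]
  · intro v
    constructor
    · intro hv
      exact ⟨⟨v, hv⟩, rfl⟩
    · rintro ⟨v', rfl⟩
      exact v'.2
  · simp

end Pool.Agent.H10R3.SC
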