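import Pool.Agent.H10R3.SC.Stmts2
import Pool.Agent.H10R3.SC.TCutBr
import Pool.Agent.Helper347.SabGraph

set_option autoImplicit false
set_option linter.unusedSectionVars false

/-!
Strong circuit double covers (project H10-MC): task TCutCirc (helper498).
-/

open Finset

namespace Pool.Agent.H10R3.SC

open Pool.Agent.Helper347.Sab
open Pool.Agent.H444.FA

/-- M3: without one-element cuts every edge lies on a circuit -/
theorem cutCirc : TCutCirc := by
  classical
  intro V E _ _ _ _ G h3 hcut e
  obtain ⟨Z, _, heZ, hEv⟩ := cutBr V E G univ hcut e (mem_univ e)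
  have hdeg : ∀ v, dg G Z v = 0 ∨ dg G Z v = 2 := by
    intro v
    have h1 : dg G Z v ≤ dg G univ v := by
      unfold dg
      exact card_le_card (filter_subset_filter _ (subset_univ Z))
    have h2 := h3 v
    obtain ⟨k, hk⟩ := hEv v
    omega
  obtain ⟨M, hM, hc⟩ := decompose G Z.card Z le_rfl hdeg
  have h4 := hc e
  rw [if_pos heZ] at h4
  have h5 : 0 < M.countP (e ∈ ·) := by rw [h4]; exact Nat.one_pos
  obtain ⟨X, hX, heX⟩ := Multiset.countP_pos.1 h5
  exact ⟨X, hM X hX, heX⟩

end Pool.Agent.H10R3.SC
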