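import Pool.Agent.H10R3.SC.CXMain5
import Pool.Agent.H181R5.MC.SmallGood
import Pool.Agent.H10R3.SC.SubG
import Pool.Agent.H10R3.SC.CdcGood
import Pool.Agent.H10R3.SC.TCutCirc
import Pool.Agent.H10R3.SC.CXglueX
import Pool.Agent.H10R3.SC.CXbrX
import Pool.Agent.H28R3.CX.NB
import Pool.Agent.H10R3.SC.CXdegX
import Pool.Agent.H10R3.SC.CXMinCirc
import Pool.Agent.H10R3.SC.CXCirc2
import Pool.Agent.H410R3.CX.Circ4
import Pool.Agent.H397R3.CX.Pair
import Pool.Agent.H10R3.SC.CXRead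
import Pool.Agent.H10R3.SC.CXPad
import Pool.Agent.H10R3.SC.CXtyA
import Pool.Agent.H568R3.SC.CXtyB
import Pool.Agent.H218R3.CX13
import Pool.Agent.H10R3.SC.CXtyD
import Pool.Agent.H894R3.CX15
import Pool.Agent.H10R3.SC.CXLegsX
import Pool.Agent.H10R3.SC.CXErase

set_option autoImplicit false

/-! All parts together (projects H10-MC and H10-CX). -/

namespace Pool.Agent.H10R3.SC

theorem parts : Parts where
  glueX := glueX
  brX := brX
  nb := Pool.Agent.H28R3.CX.nb
  degX := degX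
  circ2 := circ2 MinC.minCirc
  circ4 := Pool.Agent.H410R3.CX.circ4 MinC.minCirc
  pair := Pool.Agent.H397R3.CX.pair MinC.minCirc
  tyA := tyA ReadT.read PadT.pad
  tyB := Pool.Agent.H568R3.SC.tyB ReadT.read PadT.pad
  tyC := Pool.Agent.H218R3.CX13.tyC ReadT.read PadT.pad
  tyD := tyD ReadT.read PadT.pad
  tyE := Pool.Agent.H894R3.CX.tyE ReadT.read PadT.pad
  legsX := legsX
  erase := Erase.erase
  small := Pool.Agent.H181R5.MC.smallGood subG cdcGood cutCirc

end Pool.Agent.H10R3.SC
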