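import Pool.Agent.H10R3.SC.Stmts2

set_option autoImplicit false
set_option linter.unusedSectionVars false

/-!
Smallest counterexamples to the strong circuit double cover conjecture are cyclically
5-edge-connected: statements of the parts (project H10-CX).

Idea. Let `X` be left by few edges `ℓ j = y j x j`. The circuit `C` crosses the cut. Both sides are
completed by gadgets attached at the `y j` (at the `x j`) to smaller graphs with a circuit `newD`
which consists of the part of `C` in this side and of gadget edges `T`. Covers of the smaller graphs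
give patterns at the legs (`TRead`, `TTy..`); both sides have a common pattern and the covers are
glued (`TGlueX`).
-/

open Finset

namespace Pool.Agent.H10R3.SC

open Pool.Agent.Helper347.Sab
open Pool.Agent.H444.FA

section

variable {V E : Type} [Fintype V] [DecidableEq V] [Fintype E] [DecidableEq E]

/-- `X` is left exactly by the edges `ℓ j` with distinct ends `y j` in `X` and distinct ends `x j`
off `X` -/
structure Cr (G : MGraph V E) (X : Finset V) {d : ℕ} (y x : Fin d → V) (ℓ : Fin d → E) :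
    Prop where
  ends : ∀ j, G.ends (ℓ j) = s(y j, x j)
  yin : ∀ j, y j ∈ X
  xout : ∀ j, x j ∉ X
  yinj : Function.Injective y
  xinj : Function.Injective x
  cut : ∀ e, e ∈ cut G univ X ↔ ∃ j, e = ℓ j

/-- the pattern `P` is realised by a cover of the edges inside `X` (edges of `C` once, the others
twice) -/
def RX (G : MGraph V E) (C : Finset E) (X : Finset V) {d : ℕ} (y : Fin d → V)
    (P : Fin d → Finset (Fin 3)) : Prop :=
  ∃ (n : ℕ) (Z : Fin n → Finset E), PC G (ins G univ X) (mS C) y Z ∧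
    ∃ ι : Fin 3 ↪ Fin n, ∀ i, pat G y Z i = (P i).map ι

/-- the new circuit: the part of `C` inside `X` and the gadget edges `T` -/
def newD (G : MGraph V E) (C : Finset E) (X : Finset V) {b : ℕ} (T : Finset (Fin b)) :
    Finset (E ⊕ Fin b) :=
  inE (C ∩ ins G univ X) ∪ T.map ⟨Sum.inr, Sum.inr_injective⟩

/-- the number of gadget edges between `Y` and its complement -/
def crs {a b : ℕ} (g : Fin b → Sym2 (V ⊕ Fin a)) (Y : Finset (V ⊕ Fin a)) : ℕ :=
  (univ.filter fun k => (∃ u, u ∈ g k ∧ u ∈ Y) ∧ ∃ w, w ∈ g k ∧ w ∉ Y).card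

/-- the legs in `Y` -/
def lg {d a : ℕ} (y : Fin d → V) (Y : Finset (V ⊕ Fin a)) : Finset (Fin d) :=
  univ.filter fun j => (Sum.inl (y j) : V ⊕ Fin a) ∈ Y

/-- the gadget makes no bridges -/
structure NB {d a b : ℕ} (y : Fin d → V) (g : Fin b → Sym2 (V ⊕ Fin a)) : Prop where
  zero : ∀ Y : Finset (V ⊕ Fin a), crs g Y = 0 →
    (lg y Y).card = 0 ∨ (lg y Y).card = d ∨ (d = 4 ∧ (lg y Y).card = 2)
  one : ∀ Y : Finset (V ⊕ Fin a), crs g Y = 1 →
    (lg y Y).card = 1 ∨ (lg y Y).card + 1 = d ∨ (d = 4 ∧ (lg y Y).card = 2)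

end

/-- 1: gluing two covers with the same pattern -/
def TGlueX : Prop :=
  ∀ (V E : Type) [Fintype V] [DecidableEq V] [Fintype E] [DecidableEq E] (G : MGraph V E)
    (C : Finset E) (X : Finset V) (d : ℕ) (y x : Fin d → V) (ℓ : Fin d → E), Cr G X y x ℓ →
    ∀ P : Fin d → Finset (Fin 3), (∀ j, (P j).card = mS C (ℓ j)) → RX G C X y P →
    RX G C Xᶜ x P → Good G univ C

/-- 2: the new graph has no one-element cuts -/
def TBrX : Prop :=
  ∀ (V E : Type) [Fintype V] [DecidableEq V] [Fintype E] [DecidableEq E] (G : MGraph V E)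
    (X : Finset V) (d : ℕ) (y x : Fin d → V) (ℓ : Fin d → E), Cr G X y x ℓ →
    (∀ Y : Finset V, (cut G univ Y).card ≠ 1) →
    (d = 4 → (∀ Y : Finset V, (cut G univ Y).card ≠ 2) ∧
      ∀ Y : Finset V, (cut G univ Y).card = 3 → Y.card ≤ 1 ∨ Yᶜ.card ≤ 1) →
    ∀ (a b : ℕ) (g : Fin b → Sym2 (V ⊕ Fin a)), NB y g → ∀ hg : ∀ j, ¬ (g j).IsDiag,
    ∀ Y, (cut (ext G g hg) (inG (ins G univ X)) Y).card ≠ 1

/-- 3: the gadgets make no bridges -/
def TNB : Prop :=
  ∀ (V : Type) [Fintype V] [DecidableEq V],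
    (∀ y : Fin 4 → V, Function.Injective y → ∀ (k l l' : Fin 4), k ≠ 0 → l ≠ 0 → l' ≠ 0 →
      k ≠ l → k ≠ l' → l ≠ l' → NB y (gPar y k l l') ∧ NB y (gTree y k l l')) ∧
    (∀ y : Fin 3 → V, Function.Injective y → NB y (gClaw y)) ∧
    (∀ y : Fin 2 → V, Function.Injective y → NB y (gEdge y))

/-- 4: degrees and size of the new graph -/
def TDegX : Prop :=
  ∀ (V E : Type) [Fintype V] [DecidableEq V] [Fintype E] [DecidableEq E] (G : MGraph V E),
    IsCubic G → ∀ (X : Finset V) (d : ℕ) (y x : Fin d → V) (ℓ : Fin d → E), Cr G X y x ℓ →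
    2 ≤ d → ∀ (a b : ℕ) (g : Fin b → Sym2 (V ⊕ Fin a)), Gdt y g → ∀ hg : ∀ j, ¬ (g j).IsDiag,
    (∀ v, dg (ext G g hg) (inG (ins G univ X)) v = 0 ∨
      dg (ext G g hg) (inG (ins G univ X)) v = 3) ∧
    (inG (ins G univ X) : Finset (E ⊕ Fin b)).card < Fintype.card E

/-- 5: circuits are the minimal nonempty even sets (for degrees 0 and 2) -/
def TMinCirc : Prop :=
  ∀ (V E : Type) [Fintype V] [DecidableEq V] [Fintype E] [DecidableEq E] (G : MGraph V E)
    (D : Finset E),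
    (IsCircuit G D → ∀ Z, Z ⊆ D → Z.Nonempty → Ev G Z → Z = D) ∧
    (D.Nonempty → (∀ v, dg G D v = 0 ∨ dg G D v = 2) →
      (∀ Z, Z ⊆ D → Z.Nonempty → Ev G Z → Z = D) → IsCircuit G D)

/-- 6: the new circuit if `C` crosses the cut twice -/
def TCirc2 : Prop :=
  ∀ (V E : Type) [Fintype V] [DecidableEq V] [Fintype E] [DecidableEq E] (G : MGraph V E)
    (C : Finset E), IsCircuit G C → ∀ (X : Finset V) (d : ℕ) (y x : Fin d → V) (ℓ : Fin d → E),
    Cr G X y x ℓ → ∀ i0 i1 : Fin d, i0 ≠ i1 → (∀ j, ℓ j ∈ C ↔ j = i0 ∨ j = i1) →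
    ∀ (a b : ℕ) (g : Fin b → Sym2 (V ⊕ Fin a)), Gdt y g → ∀ hg : ∀ j, ¬ (g j).IsDiag,
    ∀ T : Finset (Fin b),
    (∀ j, (T.filter fun k => (Sum.inl (y j) : V ⊕ Fin a) ∈ g k).card =
      if j = i0 ∨ j = i1 then 1 else 0) →
    (∀ w : Fin a, (T.filter fun k => (Sum.inr w : V ⊕ Fin a) ∈ g k).card = 0 ∨
      (T.filter fun k => (Sum.inr w : V ⊕ Fin a) ∈ g k).card = 2) →
    (∀ T0, T0 ⊆ T → (∀ w : Fin a, Even (T0.filter fun k => (Sum.inr w : V ⊕ Fin a) ∈ g k).card) →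
      T0 = ∅ ∨ T0 = T) → IsCircuit (ext G g hg) (newD G C X T)

/-- 7: the new circuit if `C` crosses the cut four times; `P` is the part of `C` inside `X` between
`y 0` and `y m` -/
def TCirc4 : Prop :=
  ∀ (V E : Type) [Fintype V] [DecidableEq V] [Fintype E] [DecidableEq E] (G : MGraph V E)
    (C : Finset E), IsCircuit G C → ∀ (X : Finset V) (y x : Fin 4 → V) (ℓ : Fin 4 → E),
    Cr G X y x ℓ → (∀ j, ℓ j ∈ C) → ∀ m k : Fin 4, m ≠ 0 → k ≠ 0 → m ≠ k →
    (∃ P, P ⊆ C ∩ ins G univ X ∧ ∀ v, Odd (dg G P v) ↔ (v = y 0 ∨ v = y m)) →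
    ∀ (a b : ℕ) (g : Fin b → Sym2 (V ⊕ Fin a)), Gdt y g → ∀ hg : ∀ j, ¬ (g j).IsDiag,
    ∀ T T1 T2 : Finset (Fin b), T1 ⊆ T → T2 = T \ T1 →
    (∀ j, (T.filter fun k' => (Sum.inl (y j) : V ⊕ Fin a) ∈ g k').card = 1) →
    (∀ j, (T1.filter fun k' => (Sum.inl (y j) : V ⊕ Fin a) ∈ g k').card =
      if j = 0 ∨ j = k then 1 else 0) →
    (∀ w : Fin a, (T.filter fun k' => (Sum.inr w : V ⊕ Fin a) ∈ g k').card = 0 ∨
      (T.filter fun k' => (Sum.inr w : V ⊕ Fin a) ∈ g k').card = 2) →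
    (∀ T0, T0 ⊆ T → (∀ w : Fin a, Even (T0.filter fun k' => (Sum.inr w : V ⊕ Fin a) ∈ g k').card) →
      T0 = ∅ ∨ T0 = T1 ∨ T0 = T2 ∨ T0 = T) → IsCircuit (ext G g hg) (newD G C X T)

/-- 8: the two sides pair the legs differently -/
def TPair : Prop :=
  ∀ (V E : Type) [Fintype V] [DecidableEq V] [Fintype E] [DecidableEq E] (G : MGraph V E)
    (C : Finset E), IsCircuit G C → ∀ (X : Finset V) (y x : Fin 4 → V) (ℓ : Fin 4 → E),
    Cr G X y x ℓ → (∀ j, ℓ j ∈ C) → ∃ m m' : Fin 4, m ≠ 0 ∧ m' ≠ 0 ∧ m ≠ m' ∧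
    (∃ P, P ⊆ C ∩ ins G univ X ∧ ∀ v, Odd (dg G P v) ↔ (v = y 0 ∨ v = y m)) ∧
    (∃ P, P ⊆ C ∩ ins G univ Xᶜ ∧ ∀ v, Odd (dg G P v) ↔ (v = x 0 ∨ v = x m'))

/-- 9: reading off the patterns; `p k` is the set of classes containing the gadget edge `k` -/
def TRead : Prop :=
  ∀ (V E : Type) [Fintype V] [DecidableEq V] [Fintype E] [DecidableEq E] (G : MGraph V E)
    (C : Finset E) (X : Finset V) (d : ℕ) (y x : Fin d → V) (ℓ : Fin d → E), Cr G X y x ℓ →
    ∀ (a b : ℕ) (g : Fin b → Sym2 (V ⊕ Fin a)), Gdt y g → ∀ hg : ∀ j, ¬ (g j).IsDiag,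
    ∀ T : Finset (Fin b), Good (ext G g hg) (inG (ins G univ X)) (newD G C X T) →
    ∃ (n : ℕ) (Z : Fin n → Finset E) (p : Fin b → Finset (Fin n)),
      PC G (ins G univ X) (mS C) y Z ∧ (∀ k, (p k).card = if k ∈ T then 1 else 2) ∧
      (∀ j k, (Sum.inl (y j) : V ⊕ Fin a) ∈ g k → pat G y Z j = p k) ∧
      ∀ (w : Fin a) (c : Fin n),
        Even (univ.filter fun k => (Sum.inr w : V ⊕ Fin a) ∈ g k ∧ c ∈ p k).card

/-- 10: from patterns to `RX` (adding empty classes) -/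
def TPad : Prop :=
  ∀ (V E : Type) [Fintype V] [DecidableEq V] [Fintype E] [DecidableEq E] (G : MGraph V E)
    (C : Finset E) (X : Finset V) (d : ℕ) (y : Fin d → V) (n : ℕ) (Z : Fin n → Finset E),
    PC G (ins G univ X) (mS C) y Z → ∀ (P : Fin d → Finset (Fin 3)) (U : Finset (Fin 3))
    (f : Fin 3 → Fin n), (∀ i, P i ⊆ U) → (∀ s ∈ U, ∀ t ∈ U, f s = f t → s = t) →
    (∀ i, pat G y Z i = (P i).image f) → RX G C X y P

/-- the pattern for two legs -/
def P2 : Fin 2 → Finset (Fin 3) := ![{0}, {0}]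

/-- the pattern for three legs, `C` uses legs 0 and 1 -/
def P3 : Fin 3 → Finset (Fin 3) := ![{0}, {1}, {0, 1}]

/-- patterns for four legs, `C` uses legs 0 and 1 -/
def PS : Fin 4 → Finset (Fin 3) := ![{0}, {0}, {0, 1}, {0, 1}]
def PQ : Fin 4 → Finset (Fin 3) := ![{0}, {1}, {0, 2}, {1, 2}]
def PR : Fin 4 → Finset (Fin 3) := ![{0}, {1}, {1, 2}, {0, 2}]

/-- patterns for four legs, `C` uses all of them -/
def PO : Fin 4 → Finset (Fin 3) := fun _ => {0}
def PM (m : Fin 4) : Fin 4 → Finset (Fin 3) := fun j => if j = 0 ∨ j = m then {0} else {1}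

/-- 11: types from the edge and the claw -/
def TTyA : Prop :=
  ∀ (V E : Type) [Fintype V] [DecidableEq V] [Fintype E] [DecidableEq E] (G : MGraph V E)
    (C : Finset E) (X : Finset V),
    (∀ (y x : Fin 2 → V) (ℓ : Fin 2 → E), Cr G X y x ℓ → Gdt y (gEdge y) → ∀ hg,
      Good (ext G (gEdge y) hg) (inG (ins G univ X)) (newD G C X {0}) → RX G C X y P2) ∧
    (∀ (y x : Fin 3 → V) (ℓ : Fin 3 → E), Cr G X y x ℓ → Gdt y (gClaw y) → ∀ hg,
      Good (ext G (gClaw y) hg) (inG (ins G univ X)) (newD G C X {0, 1}) → RX G C X y P3)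

/-- 12: types from the trees whose edges 0, 2, 3 belong to the new circuit -/
def TTyB : Prop :=
  ∀ (V E : Type) [Fintype V] [DecidableEq V] [Fintype E] [DecidableEq E] (G : MGraph V E)
    (C : Finset E) (X : Finset V) (y x : Fin 4 → V) (ℓ : Fin 4 → E), Cr G X y x ℓ →
    (Gdt y (gTree y 2 1 3) → ∀ hg,
      Good (ext G (gTree y 2 1 3) hg) (inG (ins G univ X)) (newD G C X {0, 2, 3}) →
      RX G C X y PS ∨ RX G C X y PQ) ∧
    (Gdt y (gTree y 3 1 2) → ∀ hg,
      Good (ext G (gTree y 3 1 2) hg) (inG (ins G univ X)) (newD G C X {0, 2, 3}) →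
      RX G C X y PS ∨ RX G C X y PR)

/-- 13: types from the tree whose edges 0, 1 belong to the new circuit -/
def TTyC : Prop :=
  ∀ (V E : Type) [Fintype V] [DecidableEq V] [Fintype E] [DecidableEq E] (G : MGraph V E)
    (C : Finset E) (X : Finset V) (y x : Fin 4 → V) (ℓ : Fin 4 → E), Cr G X y x ℓ →
    Gdt y (gTree y 1 2 3) → ∀ hg,
      Good (ext G (gTree y 1 2 3) hg) (inG (ins G univ X)) (newD G C X {0, 1}) →
      RX G C X y PQ ∨ RX G C X y PR

/-- 14: types from two parallel edges which belong to the new circuit -/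
def TTyD : Prop :=
  ∀ (V E : Type) [Fintype V] [DecidableEq V] [Fintype E] [DecidableEq E] (G : MGraph V E)
    (C : Finset E) (X : Finset V) (y x : Fin 4 → V) (ℓ : Fin 4 → E), Cr G X y x ℓ →
    ∀ (k l l' : Fin 4), k ≠ 0 → l ≠ 0 → l' ≠ 0 → k ≠ l → k ≠ l' → l ≠ l' →
    Gdt y (gPar y k l l') → ∀ hg,
      Good (ext G (gPar y k l l') hg) (inG (ins G univ X)) (newD G C X univ) →
      RX G C X y PO ∨ RX G C X y (PM k)

/-- 15: types from the tree whose edges 0, 1, 3, 4 belong to the new circuit -/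
def TTyE : Prop :=
  ∀ (V E : Type) [Fintype V] [DecidableEq V] [Fintype E] [DecidableEq E] (G : MGraph V E)
    (C : Finset E) (X : Finset V) (y x : Fin 4 → V) (ℓ : Fin 4 → E), Cr G X y x ℓ →
    ∀ (k l l' : Fin 4), k ≠ 0 → l ≠ 0 → l' ≠ 0 → k ≠ l → k ≠ l' → l ≠ l' →
    Gdt y (gTree y k l l') → ∀ hg,
      Good (ext G (gTree y k l l') hg) (inG (ins G univ X)) (newD G C X {0, 1, 3, 4}) →
      RX G C X y (PM l) ∨ RX G C X y (PM l')

/-- 16: the legs, those in `C` first -/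
def TLegsX : Prop :=
  ∀ (V E : Type) [Fintype V] [DecidableEq V] [Fintype E] [DecidableEq E] (G : MGraph V E)
    (C : Finset E) (X : Finset V) (d c : ℕ), (cut G univ X).card = d → (cut G C X).card = c →
    (∀ v, dg G (cut G univ X) v ≤ 1) →
    ∃ (y x : Fin d → V) (ℓ : Fin d → E), Cr G X y x ℓ ∧ ∀ j, ℓ j ∈ C ↔ (j : ℕ) < c

/-- 17: moving a vertex to the other side -/
def TErase : Prop :=
  ∀ (V E : Type) [Fintype V] [DecidableEq V] [Fintype E] [DecidableEq E] (G : MGraph V E),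
    IsCubic G → ∀ (X : Finset V) (v : V), v ∈ X →
    (cut G univ (X.erase v)).card + 2 * dg G (cut G univ X) v = (cut G univ X).card + 3

end Pool.Agent.H10R3.SC
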