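import Pool.Agent.H10R3.SC.Min2
import Pool.Agent.H10R3.SC.Stmts3

set_option autoImplicit false
set_option linter.unusedSectionVars false

/-!
Smallest counterexamples to the strong circuit double cover conjecture are cyclically
5-edge-connected: assembly (project H10-CX).
-/

open Finset

namespace Pool.Agent.H10R3.SC

open Pool.Agent.Helper347.Sab
open Pool.Agent.H444.FA

/-- the parts -/
structure Parts : Prop where
  glueX : TGlueX
  brX : TBrX
  nb : TNB
  degX : TDegX
  circ2 : TCirc2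
  circ4 : TCirc4
  pair : TPair
  tyA : TTyA
  tyB : TTyB
  tyC : TTyC
  tyD : TTyD
  tyE : TTyE
  legsX : TLegsX
  erase : TErase
  small : TSmallGood

section

variable {V E : Type} [Fintype V] [DecidableEq V] [Fintype E] [DecidableEq E]

/-- a smallest counterexample -/
structure MinCE (G : MGraph V E) (C : Finset E) : Prop where
  cub : IsCubic G
  bri : ∀ e : E, ∃ X : Finset E, IsCircuit G X ∧ e ∈ X
  circ : IsCircuit G C
  no : ¬ ∃ F : Multiset (Finset E), IsCDC G F ∧ C ∈ F
  min : MinEdges (Fintype.card E)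

theorem MinCE.br {G : MGraph V E} {C : Finset E} (h : MinCE G C) :
    ∀ Y : Finset V, (cut G univ Y).card ≠ 1 :=
  (frUniv evCut G h.cub h.bri C h.circ).br

theorem Cr.symm {G : MGraph V E} {X : Finset V} {d : ℕ} {y x : Fin d → V} {ℓ : Fin d → E}
    (h : Cr G X y x ℓ) : Cr G Xᶜ x y ℓ where
  ends j := by rw [h.ends j, Sym2.eq_swap]
  yin j := mem_compl.2 (h.xout j)
  xout j := by rw [mem_compl, not_not]; exact h.yin j
  yinj := h.xinj
  xinj := h.yinj
  cut e := by rw [ExtFr.cut_compl]; exact h.cut e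

theorem offside (hp : Parts) {G : MGraph V E} {C : Finset E} (h : MinCE G C) (Y : Finset V)
    (h1 : Y.Nonempty) (h2 : Yᶜ.Nonempty) (h3 : cut G C Y = ∅) :
    Nat.min (Y.card + 2) 5 ≤ (cut G univ Y).card ∨
      Nat.min (Yᶜ.card + 2) 5 ≤ (cut G univ Y).card := by
  rcases side V E G C Y h.circ h3 with h4 | h4
  · right
    have h5 := five' hp.small _ h.min G h.cub h.bri C h.circ h.no rfl Yᶜ (fun v hv => by
      rcases h.circ.2.1 v with h6 | h6
      · exact h6
      · exact absurd (h4 v h6) (mem_compl.1 hv)) h2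
    rw [ExtFr.cut_compl] at h5
    exact h5
  · left
    exact five' hp.small _ h.min G h.cub h.bri C h.circ h.no rfl Y (fun v hv => by
      rcases h.circ.2.1 v with h6 | h6
      · exact h6
      · exact absurd hv (h4 v h6)) h1

/-- the conditions on small cuts needed for four legs -/
def N23 (G : MGraph V E) : Prop :=
  (∀ Y : Finset V, (cut G univ Y).card ≠ 2) ∧
    ∀ Y : Finset V, (cut G univ Y).card = 3 → Y.card ≤ 1 ∨ Yᶜ.card ≤ 1

theorem redGood (hp : Parts) {G : MGraph V E} {C : Finset E} (h : MinCE G C) {X : Finset V}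
    {d : ℕ} {y x : Fin d → V} {ℓ : Fin d → E} (hc : Cr G X y x ℓ) (hd : 2 ≤ d)
    (hN : d = 4 → N23 G) {a b : ℕ} {g : Fin b → Sym2 (V ⊕ Fin a)} (hg1 : Gdt y g) (hg2 : NB y g)
    (hg : ∀ j, ¬ (g j).IsDiag) (T : Finset (Fin b))
    (hD : IsCircuit (ext G g hg) (newD G C X T)) :
    Good (ext G g hg) (inG (ins G univ X)) (newD G C X T) := by
  obtain ⟨h1, h2⟩ := hp.degX V E G h.cub X d y x ℓ hc hd a b g hg1 hg
  refine hp.small _ h.min _ _ _ _ _ ?_ hD h1
    (hp.brX V E G X d y x ℓ hc h.br hN a b g hg2 hg) h2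
  rintro (e | k) he
  · rw [inl_mem_inG]
    unfold newD at he
    rw [mem_union, mem_inE, mem_map] at he
    rcases he with he | ⟨k, _, hk⟩
    · exact (mem_inter.1 he).2
    · exact absurd hk (by simp)
  · exact inr_mem_inG _ _

/-- a set of classes of `C`-legs for the two-leg case -/
theorem sideE (hp : Parts) {G : MGraph V E} {C : Finset E} (h : MinCE G C) {X : Finset V}
    {y x : Fin 2 → V} {ℓ : Fin 2 → E} (hc : Cr G X y x ℓ) (hl : ∀ j, ℓ j ∈ C) :
    RX G C X y P2 := by
  have g1 := (TGadF.gad V).2.2 y hc.yinj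
  have hg := edge_diag y hc.yinj
  refine (hp.tyA V E G C X).1 y x ℓ hc g1 hg ?_
  refine redGood hp h hc (le_refl _) (fun h => absurd h (by norm_num)) g1
    ((hp.nb V).2.2 y hc.yinj) hg _ ?_
  refine hp.circ2 V E G C h.circ X 2 y x ℓ hc 0 1 (by decide) ?_ _ _ _ g1 hg {0} ?_ ?_ ?_
  · intro j
    fin_cases j
    · simp [hl]
    · simp [hl]
  · intro j
    rw [filter_singleton]
    fin_cases j
    · simp [gEdge]
    · simp [gEdge]
  · intro w
    exact w.elim0
  · intro T0 hT0 _
    rcases subset_singleton_iff.1 hT0 with h | h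
    · exact Or.inl h
    · exact Or.inr h

theorem sideC (hp : Parts) {G : MGraph V E} {C : Finset E} (h : MinCE G C) {X : Finset V}
    {y x : Fin 3 → V} {ℓ : Fin 3 → E} (hc : Cr G X y x ℓ) (hl : ∀ j, ℓ j ∈ C ↔ (j : ℕ) < 2) :
    RX G C X y P3 := by
  have g1 := (TGadF.gad V).2.1 y hc.yinj
  have hg := claw_diag y
  have hy := hc.yinj
  refine (hp.tyA V E G C X).2 y x ℓ hc g1 hg ?_
  refine redGood hp h hc (by norm_num) (fun h => absurd h (by norm_num)) g1
    ((hp.nb V).2.1 y hc.yinj) hg _ ?_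
  refine hp.circ2 V E G C h.circ X 3 y x ℓ hc 0 1 (by decide) ?_ _ _ _ g1 hg {0, 1} ?_ ?_ ?_
  · intro j
    rw [hl]
    fin_cases j <;> simp
  · intro j
    rw [filter_insert, filter_singleton]
    fin_cases j <;> simp [gClaw, hy.eq_iff]
  · intro w
    right
    rw [filter_insert, filter_singleton]
    fin_cases w
    simp [gClaw]
  · intro T0 hT0 hev
    have h0 := hev 0
    revert h0
    have : ∀ T0 : Finset (Fin 3), T0 ⊆ {0, 1} → Even T0.card → T0 = ∅ ∨ T0 = {0, 1} := by decide
    intro h0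
    apply this T0 hT0
    rwa [filter_true_of_mem] at h0
    intro k hk
    fin_cases k <;> simp [gClaw]

end

end Pool.Agent.H10R3.SC
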