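import Pool.Agent.H10R3.SC.CXMain

set_option autoImplicit false
set_option linter.unusedSectionVars false

/-!
Smallest counterexamples to the strong circuit double cover conjecture are cyclically
5-edge-connected: the sides of a cut with four edges (project H10-CX).
-/

open Finset

namespace Pool.Agent.H10R3.SC

open Pool.Agent.Helper347.Sab
open Pool.Agent.H444.FA

section

variable {V E : Type} [Fintype V] [DecidableEq V] [Fintype E] [DecidableEq E]

theorem decT1 : ∀ T0 : Finset (Fin 5), T0 ⊆ {0, 2, 3} →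
    Even (T0.filter fun k => k = 0 ∨ k = 1 ∨ k = 2).card →
    Even (T0.filter fun k => k = 2 ∨ k = 3 ∨ k = 4).card → T0 = ∅ ∨ T0 = {0, 2, 3} := by decide

theorem decT2 : ∀ T0 : Finset (Fin 5), T0 ⊆ {0, 1} →
    Even (T0.filter fun k => k = 0 ∨ k = 1 ∨ k = 2).card → T0 = ∅ ∨ T0 = {0, 1} := by decide

theorem decT3 : ∀ T0 : Finset (Fin 5), T0 ⊆ {0, 1, 3, 4} →
    Even (T0.filter fun k => k = 0 ∨ k = 1 ∨ k = 2).card →
    Even (T0.filter fun k => k = 2 ∨ k = 3 ∨ k = 4).card →
    T0 = ∅ ∨ T0 = {0, 1} ∨ T0 = {3, 4} ∨ T0 = {0, 1, 3, 4} := by decide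

theorem decP : ∀ T0 : Finset (Fin 2), T0 = ∅ ∨ T0 = {0} ∨ T0 = {1} ∨ T0 = univ := by decide

theorem decA : ∀ k l l' : Fin 4, k ≠ 0 → l ≠ 0 → l' ≠ 0 → k ≠ l → k ≠ l' → l ≠ l' → ∀ j : Fin 4,
    (({0, 1, 3, 4} : Finset (Fin 5)).filter fun x =>
      x = 0 ∧ j = 0 ∨ x = 1 ∧ j = k ∨ x = 3 ∧ j = l ∨ x = 4 ∧ j = l').card = 1 := by decide

theorem decB : ∀ k l l' : Fin 4, k ≠ 0 → ∀ j : Fin 4,
    (({0, 1} : Finset (Fin 5)).filter fun x =>
      x = 0 ∧ j = 0 ∨ x = 1 ∧ j = k ∨ x = 3 ∧ j = l ∨ x = 4 ∧ j = l').card =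
      if j = 0 ∨ j = k then 1 else 0 := by decide

theorem tree_inr0 (y : Fin 4 → V) (k l l' : Fin 4) (j : Fin 5) :
    (Sum.inr 0 : V ⊕ Fin 2) ∈ gTree y k l l' j ↔ (j = 0 ∨ j = 1 ∨ j = 2) := by
  fin_cases j <;> simp [gTree]

theorem tree_inr1 (y : Fin 4 → V) (k l l' : Fin 4) (j : Fin 5) :
    (Sum.inr 1 : V ⊕ Fin 2) ∈ gTree y k l l' j ↔ (j = 2 ∨ j = 3 ∨ j = 4) := by
  fin_cases j <;> simp [gTree]

theorem tree_inl (y : Fin 4 → V) (hy : Function.Injective y) (k l l' i : Fin 4) (j : Fin 5) :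
    (Sum.inl (y i) : V ⊕ Fin 2) ∈ gTree y k l l' j ↔
      ((j = 0 ∧ i = 0) ∨ (j = 1 ∧ i = k) ∨ (j = 3 ∧ i = l) ∨ (j = 4 ∧ i = l')) := by
  fin_cases j <;> simp [gTree, hy.eq_iff]

theorem sideT1 (hp : Parts) {G : MGraph V E} {C : Finset E} (h : MinCE G C) (hN : N23 G)
    {X : Finset V} {y x : Fin 4 → V} {ℓ : Fin 4 → E} (hc : Cr G X y x ℓ)
    (hl : ∀ j, ℓ j ∈ C ↔ (j : ℕ) < 2) :
    (RX G C X y PS ∨ RX G C X y PQ) ∧ (RX G C X y PS ∨ RX G C X y PR) ∧
      (RX G C X y PQ ∨ RX G C X y PR) := by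
  have hy := hc.yinj
  have hl' : ∀ j : Fin 4, ℓ j ∈ C ↔ j = 0 ∨ j = 1 := by
    intro j
    rw [hl]
    revert j
    decide
  refine ⟨?_, ?_, ?_⟩
  · have g1 := ((TGadF.gad V).1 y hy 2 1 3 (by decide) (by decide) (by decide) (by decide)
      (by decide) (by decide)).2
    have hg := tree_diag y 2 1 3
    refine (hp.tyB V E G C X y x ℓ hc).1 g1 hg ?_
    refine redGood hp h hc (by norm_num) (fun _ => hN) g1
      ((hp.nb V).1 y hy 2 1 3 (by decide) (by decide) (by decide) (by decide)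
      (by decide) (by decide)).2 hg _ ?_
    refine hp.circ2 V E G C h.circ X 4 y x ℓ hc 0 1 (by decide) hl' _ _ _ g1 hg {0, 2, 3} ?_ ?_ ?_
    · intro j
      simp only [tree_inl y hy]
      revert j
      decide
    · intro w
      fin_cases w
      · right
        simp only [Fin.zero_eta, tree_inr0]
        decide
      · right
        simp only [Fin.mk_one, tree_inr1]
        decide
    · intro T0 hT0 hev
      have h0 := hev 0
      have h1 := hev 1
      simp only [tree_inr0, tree_inr1] at h0 h1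
      exact decT1 T0 hT0 h0 h1
  · have g1 := ((TGadF.gad V).1 y hy 3 1 2 (by decide) (by decide) (by decide) (by decide)
      (by decide) (by decide)).2
    have hg := tree_diag y 3 1 2
    refine (hp.tyB V E G C X y x ℓ hc).2 g1 hg ?_
    refine redGood hp h hc (by norm_num) (fun _ => hN) g1
      ((hp.nb V).1 y hy 3 1 2 (by decide) (by decide) (by decide) (by decide)
      (by decide) (by decide)).2 hg _ ?_
    refine hp.circ2 V E G C h.circ X 4 y x ℓ hc 0 1 (by decide) hl' _ _ _ g1 hg {0, 2, 3} ?_ ?_ ?_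
    · intro j
      simp only [tree_inl y hy]
      revert j
      decide
    · intro w
      fin_cases w
      · right
        simp only [Fin.zero_eta, tree_inr0]
        decide
      · right
        simp only [Fin.mk_one, tree_inr1]
        decide
    · intro T0 hT0 hev
      have h0 := hev 0
      have h1 := hev 1
      simp only [tree_inr0, tree_inr1] at h0 h1
      exact decT1 T0 hT0 h0 h1
  · have g1 := ((TGadF.gad V).1 y hy 1 2 3 (by decide) (by decide) (by decide) (by decide)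
      (by decide) (by decide)).2
    have hg := tree_diag y 1 2 3
    refine hp.tyC V E G C X y x ℓ hc g1 hg ?_
    refine redGood hp h hc (by norm_num) (fun _ => hN) g1
      ((hp.nb V).1 y hy 1 2 3 (by decide) (by decide) (by decide) (by decide)
      (by decide) (by decide)).2 hg _ ?_
    refine hp.circ2 V E G C h.circ X 4 y x ℓ hc 0 1 (by decide) hl' _ _ _ g1 hg {0, 1} ?_ ?_ ?_
    · intro j
      simp only [tree_inl y hy]
      revert j
      decide
    · intro w
      fin_cases w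
      · right
        simp only [Fin.zero_eta, tree_inr0]
        decide
      · left
        simp only [Fin.mk_one, tree_inr1]
        decide
    · intro T0 hT0 hev
      have h0 := hev 0
      simp only [tree_inr0] at h0
      exact decT2 T0 hT0 h0

/-- all four legs in `C` -/
theorem sideT4 (hp : Parts) {G : MGraph V E} {C : Finset E} (h : MinCE G C) (hN : N23 G)
    {X : Finset V} {y x : Fin 4 → V} {ℓ : Fin 4 → E} (hc : Cr G X y x ℓ)
    (hl : ∀ j, ℓ j ∈ C) {m : Fin 4} (hm : m ≠ 0)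
    (hP : ∃ P, P ⊆ C ∩ ins G univ X ∧ ∀ v, Odd (dg G P v) ↔ (v = y 0 ∨ v = y m))
    (k l l' : Fin 4) (hk : k ≠ 0) (hl1 : l ≠ 0) (hl2 : l' ≠ 0) (h1 : k ≠ l) (h2 : k ≠ l')
    (h3 : l ≠ l') (hmk : m ≠ k) :
    (RX G C X y PO ∨ RX G C X y (PM k)) ∧ (RX G C X y (PM l) ∨ RX G C X y (PM l')) := by
  have hy := hc.yinj
  refine ⟨?_, ?_⟩
  · have g1 := ((TGadF.gad V).1 y hy k l l' hk hl1 hl2 h1 h2 h3).1
    have hg := par_diag y hy k l l' hk h3
    refine hp.tyD V E G C X y x ℓ hc k l l' hk hl1 hl2 h1 h2 h3 g1 hg ?_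
    refine redGood hp h hc (by norm_num) (fun _ => hN) g1
      ((hp.nb V).1 y hy k l l' hk hl1 hl2 h1 h2 h3).1 hg _ ?_
    refine hp.circ4 V E G C h.circ X y x ℓ hc hl m k hm hk hmk hP _ _ _ g1 hg univ {0} {1}
      (subset_univ _) (by decide) ?_ ?_ ?_ ?_
    · intro j
      rw [← g1.leg j]
    · intro j
      rw [filter_singleton]
      simp only [gPar, Matrix.cons_val_zero, Sym2.mem_iff, Sum.inl.injEq, hy.eq_iff]
      split_ifs <;> rfl
    · intro w
      exact w.elim0
    · intro T0 _ _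
      exact decP T0
  · have g1 := ((TGadF.gad V).1 y hy k l l' hk hl1 hl2 h1 h2 h3).2
    have hg := tree_diag y k l l'
    refine hp.tyE V E G C X y x ℓ hc k l l' hk hl1 hl2 h1 h2 h3 g1 hg ?_
    refine redGood hp h hc (by norm_num) (fun _ => hN) g1
      ((hp.nb V).1 y hy k l l' hk hl1 hl2 h1 h2 h3).2 hg _ ?_
    refine hp.circ4 V E G C h.circ X y x ℓ hc hl m k hm hk hmk hP _ _ _ g1 hg {0, 1, 3, 4} {0, 1}
      {3, 4} (by decide) (by decide) ?_ ?_ ?_ ?_
    · intro j
      simp only [tree_inl y hy]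
      exact decA k l l' hk hl1 hl2 h1 h2 h3 j
    · intro j
      simp only [tree_inl y hy]
      exact decB k l l' hk j
    · intro w
      fin_cases w
      · right
        simp only [Fin.zero_eta, tree_inr0]
        decide
      · right
        simp only [Fin.mk_one, tree_inr1]
        decide
    · intro T0 hT0 hev
      have h0 := hev 0
      have h1 := hev 1
      simp only [tree_inr0, tree_inr1] at h0 h1
      exact decT3 T0 hT0 h0 h1

end

end Pool.Agent.H10R3.SC
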