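import Pool.Agent.H10R3.SC.CXMain2

set_option autoImplicit false
set_option linter.unusedSectionVars false

/-!
Smallest counterexamples to the strong circuit double cover conjecture are cyclically
5-edge-connected: the cuts with 0, 2, 3 and 4 edges (project H10-CX).
-/

open Finset

namespace Pool.Agent.H10R3.SC

open Pool.Agent.Helper347.Sab
open Pool.Agent.H444.FA

section

variable {V E : Type} [Fintype V] [DecidableEq V] [Fintype E] [DecidableEq E]

theorem cut_empty (G : MGraph V E) (H : Finset E) : cut G H ∅ = ∅ := by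
  unfold cut
  rw [filter_eq_empty_iff]
  rintro e _ ⟨⟨u, _, hu⟩, _⟩
  exact absurd hu (notMem_empty u)

theorem nonempty_of {G : MGraph V E} {Y : Finset V} (h : (cut G univ Y).card ≠ 0) :
    Y.Nonempty ∧ Yᶜ.Nonempty := by
  constructor
  · rw [nonempty_iff_ne_empty]
    rintro rfl
    rw [cut_empty, card_empty] at h
    exact h rfl
  · rw [nonempty_iff_ne_empty]
    intro h1
    rw [← ExtFr.cut_compl, h1, cut_empty, card_empty] at h
    exact h rfl

theorem conn (hp : Parts) {G : MGraph V E} {C : Finset E} (h : MinCE G C) (Y : Finset V)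
    (h1 : Y.Nonempty) (h2 : Yᶜ.Nonempty) : (cut G univ Y).card ≠ 0 := by
  intro h0
  have h3 : cut G C Y = ∅ := by
    have h4 := card_le_card (cut_mono (G := G) (subset_univ C) Y)
    rw [h0] at h4
    exact card_eq_zero.1 (Nat.le_zero.1 h4)
  have h5 : 0 < Y.card := card_pos.2 h1
  have h6 : 0 < Yᶜ.card := card_pos.2 h2
  rcases offside hp h Y h1 h2 h3 with h7 | h7
  · change min (Y.card + 2) 5 ≤ _ at h7
    omega
  · change min (Yᶜ.card + 2) 5 ≤ _ at h7
    omega

/-- distinct ends from a bound on the degrees on both sides -/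
theorem dgcut (hp : Parts) {G : MGraph V E} {C : Finset E} (h : MinCE G C) (Y : Finset V)
    (hd : ∀ X : Finset V, (X = Y ∨ X = Yᶜ) → ∀ v ∈ X,
      2 ≤ dg G (cut G univ Y) v →
      (cut G univ (X.erase v)).card + 2 * dg G (cut G univ Y) v = (cut G univ Y).card + 3 →
      False) : ∀ v, dg G (cut G univ Y) v ≤ 1 := by
  intro v
  by_contra hlt
  by_cases hv : v ∈ Y
  · exact hd Y (Or.inl rfl) v hv (by omega) (hp.erase V E G h.cub Y v hv)
  · have h1 := hp.erase V E G h.cub Yᶜ v (mem_compl.2 hv)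
    rw [ExtFr.cut_compl] at h1
    exact hd Yᶜ (Or.inr rfl) v (mem_compl.2 hv) (by omega) h1

theorem evenC {G : MGraph V E} {C : Finset E} (h : MinCE G C) (Y : Finset V) :
    Even (cut G C Y).card :=
  evCut V E G C Y (circ_ev h.circ)

theorem cutC_le {G : MGraph V E} {C : Finset E} (Y : Finset V) :
    (cut G C Y).card ≤ (cut G univ Y).card :=
  card_le_card (cut_mono (G := G) (subset_univ C) Y)

/-- no cut with two edges -/
theorem no2 (hp : Parts) {G : MGraph V E} {C : Finset E} (h : MinCE G C) (Y : Finset V) :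
    (cut G univ Y).card ≠ 2 := by
  intro h2
  obtain ⟨n1, n2⟩ := nonempty_of (G := G) (Y := Y) (by omega)
  have c1 : 0 < Y.card := card_pos.2 n1
  have c2 : 0 < Yᶜ.card := card_pos.2 n2
  obtain ⟨t, ht⟩ := evenC h Y
  have hle := cutC_le (G := G) (C := C) Y
  by_cases h0 : (cut G C Y).card = 0
  · rcases offside hp h Y n1 n2 (card_eq_zero.1 h0) with h7 | h7
    · change min (Y.card + 2) 5 ≤ _ at h7
      omega
    · change min (Yᶜ.card + 2) 5 ≤ _ at h7
      omega
  have hc2 : (cut G C Y).card = 2 := by omega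
  have hd := dgcut hp h Y (fun X _ v _ q1 q2 => by
    have := h.br (X.erase v)
    omega)
  obtain ⟨y, x, ℓ, hc, hl⟩ := hp.legsX V E G C Y 2 2 h2 hc2 hd
  have hl' : ∀ j, ℓ j ∈ C := fun j => (hl j).2 j.isLt
  apply h.no
  apply goodCdc G h.cub C h.circ
  refine hp.glueX V E G C Y 2 y x ℓ hc P2 ?_ (sideE hp h hc hl') (sideE hp h hc.symm hl')
  intro j
  unfold mS
  rw [if_pos (hl' j)]
  revert j
  decide

/-- cuts with three edges are trivial -/
theorem no3 (hp : Parts) {G : MGraph V E} {C : Finset E} (h : MinCE G C) (Y : Finset V)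
    (h3 : (cut G univ Y).card = 3) : Y.card ≤ 1 ∨ Yᶜ.card ≤ 1 := by
  by_contra hcon
  push Not at hcon
  obtain ⟨k1, k2⟩ := hcon
  obtain ⟨n1, n2⟩ := nonempty_of (G := G) (Y := Y) (by omega)
  obtain ⟨t, ht⟩ := evenC h Y
  have hle := cutC_le (G := G) (C := C) Y
  by_cases h0 : (cut G C Y).card = 0
  · rcases offside hp h Y n1 n2 (card_eq_zero.1 h0) with h7 | h7
    · change min (Y.card + 2) 5 ≤ _ at h7
      omega
    · change min (Yᶜ.card + 2) 5 ≤ _ at h7
      omega
  have hc2 : (cut G C Y).card = 2 := by omega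
  have hd := dgcut hp h Y (fun X hX v hv q1 q2 => by
    have e1 := no2 hp h (X.erase v)
    have e2 : (cut G univ (X.erase v)).card ≠ 0 := by
      apply conn hp h
      · have : 1 < X.card := by
          rcases hX with rfl | rfl
          · exact k1
          · exact k2
        rw [← card_pos, card_erase_of_mem hv]
        omega
      · exact ⟨v, by rw [mem_compl]; exact notMem_erase v X⟩
    omega)
  obtain ⟨y, x, ℓ, hc, hl⟩ := hp.legsX V E G C Y 3 2 h3 hc2 hd
  apply h.no
  apply goodCdc G h.cub C h.circ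
  refine hp.glueX V E G C Y 3 y x ℓ hc P3 ?_ (sideC hp h hc hl) (sideC hp h hc.symm hl)
  intro j
  unfold mS
  simp only [hl]
  revert j
  decide

theorem decM : ∀ m m' : Fin 4, m ≠ 0 → m' ≠ 0 → m ≠ m' → ∃ k : Fin 4, k ≠ 0 ∧ k ≠ m ∧ k ≠ m' := by
  decide

/-- cuts with four edges have a side with at most two vertices -/
theorem no4 (hp : Parts) {G : MGraph V E} {C : Finset E} (h : MinCE G C) (Y : Finset V)
    (h4 : (cut G univ Y).card = 4) : Y.card ≤ 2 ∨ Yᶜ.card ≤ 2 := by
  by_contra hcon
  push Not at hcon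
  obtain ⟨k1, k2⟩ := hcon
  obtain ⟨n1, n2⟩ := nonempty_of (G := G) (Y := Y) (by omega)
  obtain ⟨t, ht⟩ := evenC h Y
  have hle := cutC_le (G := G) (C := C) Y
  have hN : N23 G := ⟨no2 hp h, no3 hp h⟩
  by_cases h0 : (cut G C Y).card = 0
  · rcases offside hp h Y n1 n2 (card_eq_zero.1 h0) with h7 | h7
    · change min (Y.card + 2) 5 ≤ _ at h7
      omega
    · change min (Yᶜ.card + 2) 5 ≤ _ at h7
      omega
  have hd := dgcut hp h Y (fun X hX v hv q1 q2 => by
    have e1 := h.br (X.erase v)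
    have e2 : (cut G univ (X.erase v)).card ≠ 3 := by
      intro h5
      have h6 := card_erase_of_mem hv
      have h8 : (X.erase v)ᶜ.card + (X.erase v).card = Fintype.card V := by
        rw [add_comm]; exact card_add_card_compl _
      have h9 : Y.card + Yᶜ.card = Fintype.card V := card_add_card_compl _
      have h10 : X.card = Y.card ∨ X.card = Yᶜ.card := by
        rcases hX with rfl | rfl
        · exact Or.inl rfl
        · exact Or.inr rfl
      rcases no3 hp h (X.erase v) h5 with h7 | h7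
      · omega
      · omega
    omega)
  apply h.no
  apply goodCdc G h.cub C h.circ
  by_cases hc2 : (cut G C Y).card = 2
  · obtain ⟨y, x, ℓ, hc, hl⟩ := hp.legsX V E G C Y 4 2 h4 hc2 hd
    have hcard : ∀ P : Fin 4 → Finset (Fin 3), (P = PS ∨ P = PQ ∨ P = PR) →
        ∀ j, (P j).card = mS C (ℓ j) := by
      intro P hP j
      unfold mS
      simp only [hl]
      rcases hP with rfl | rfl | rfl
      · revert j
        decide
      · revert j
        decide
      · revert j
        decide
    obtain ⟨a1, a2, a3⟩ := sideT1 hp h hN hc hl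
    obtain ⟨b1, b2, b3⟩ := sideT1 hp h hN hc.symm hl
    have glue : ∀ P : Fin 4 → Finset (Fin 3), (P = PS ∨ P = PQ ∨ P = PR) → RX G C Y y P →
        RX G C Yᶜ x P → Good G univ C := fun P hP q1 q2 =>
      hp.glueX V E G C Y 4 y x ℓ hc P (hcard P hP) q1 q2
    by_cases s1 : RX G C Y y PS
    · by_cases s2 : RX G C Yᶜ x PS
      · exact glue PS (Or.inl rfl) s1 s2
      · have t1 := b1.resolve_left s2
        have t2 := b2.resolve_left s2
        rcases a3 with u | u
        · exact glue PQ (Or.inr (Or.inl rfl)) u t1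
        · exact glue PR (Or.inr (Or.inr rfl)) u t2
    · have t1 := a1.resolve_left s1
      have t2 := a2.resolve_left s1
      rcases b3 with u | u
      · exact glue PQ (Or.inr (Or.inl rfl)) t1 u
      · exact glue PR (Or.inr (Or.inr rfl)) t2 u
  · have hc4 : (cut G C Y).card = 4 := by omega
    obtain ⟨y, x, ℓ, hc, hl⟩ := hp.legsX V E G C Y 4 4 h4 hc4 hd
    have hl' : ∀ j, ℓ j ∈ C := fun j => (hl j).2 j.isLt
    obtain ⟨m, m', hm, hm', hmm, hP, hP'⟩ := hp.pair V E G C h.circ Y y x ℓ hc hl'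
    obtain ⟨k, hk, hkm, hkm'⟩ := decM m m' hm hm' hmm
    have glue : ∀ P : Fin 4 → Finset (Fin 3), (P = PO ∨ ∃ r, P = PM r) → RX G C Y y P →
        RX G C Yᶜ x P → Good G univ C := by
      intro P hP q1 q2
      refine hp.glueX V E G C Y 4 y x ℓ hc P ?_ q1 q2
      intro j
      unfold mS
      rw [if_pos (hl' j)]
      rcases hP with rfl | ⟨r, rfl⟩
      · rfl
      · unfold PM
        split_ifs <;> rfl
    -- the side Y
    obtain ⟨a1, a2⟩ := sideT4 hp h hN hc hl' hm hP m' m k hm' hm hk hmm.symm hkm'.symm hkm.symm hmm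
    obtain ⟨a3, a4⟩ := sideT4 hp h hN hc hl' hm hP k m m' hk hm hm' hkm hkm' hmm hkm.symm
    obtain ⟨b1, b2⟩ := sideT4 hp h hN hc.symm hl' hm' hP' m m' k hm hm' hk hmm hkm.symm hkm'.symm
      hmm.symm
    obtain ⟨b3, b4⟩ := sideT4 hp h hN hc.symm hl' hm' hP' k m m' hk hm hm' hkm hkm' hmm hkm'.symm
    by_cases s1 : RX G C Y y PO
    · by_cases s2 : RX G C Yᶜ x PO
      · exact glue PO (Or.inl rfl) s1 s2
      · have t1 := b1.resolve_left s2
        have t2 := b3.resolve_left s2
        -- b: PM m, PM k;  a2 : PM m ∨ PM k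
        rcases a2 with u | u
        · exact glue _ (Or.inr ⟨_, rfl⟩) u t1
        · exact glue _ (Or.inr ⟨_, rfl⟩) u t2
    · have t1 := a1.resolve_left s1
      have t2 := a3.resolve_left s1
      -- a: PM m', PM k; b2 : PM m' ∨ PM k
      rcases b2 with u | u
      · exact glue _ (Or.inr ⟨_, rfl⟩) t1 u
      · exact glue _ (Or.inr ⟨_, rfl⟩) t2 u

/-- all cuts -/
theorem cuts (hp : Parts) {G : MGraph V E} {C : Finset E} (h : MinCE G C) (Y : Finset V)
    (h1 : Y.Nonempty) (h2 : Yᶜ.Nonempty) :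
    min (min Y.card Yᶜ.card) 3 + 2 ≤ (cut G univ Y).card := by
  have e0 := conn hp h Y h1 h2
  have e1 := h.br Y
  have e2 := no2 hp h Y
  have e3 := no3 hp h Y
  have e4 := no4 hp h Y
  omega

end

end Pool.Agent.H10R3.SC
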