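import Pool.Agent.H10R3.SC.CXMain3

set_option autoImplicit false
set_option linter.unusedSectionVars false

/-!
Smallest counterexamples to the strong circuit double cover conjecture: critical subgraphs off `C`
(projects H10-MC and H10-CX).
-/

open Finset

namespace Pool.Agent.H10R3.SC

open Pool.Agent.Helper347.Sab
open Pool.Agent.H444.FA
open Pool.Agent.H10R3.SC.Find (filter_eq_of_le)

section

variable {V E : Type} [Fintype V] [DecidableEq V] [Fintype E] [DecidableEq E]

/-- the vertices of a critical set are left by at most as many edges as it has vertices of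
degree 2 -/
theorem critCut (G : MGraph V E) (H B : Finset E) (hBH : B ⊆ H) (hle : ∀ v, dg G H v ≤ 3)
    (hd1 : ∀ v, dg G B v ≠ 1) :
    (cut G H (univ.filter fun v => dg G B v ≠ 0)).card ≤
      (univ.filter fun v => dg G B v = 2).card := by
  set X := univ.filter fun v => dg G B v ≠ 0 with hX
  set N2 := univ.filter fun v => dg G B v = 2 with hN2
  have hmem : ∀ v, v ∈ X ↔ dg G B v ≠ 0 := by
    intro v
    simp [hX]
  have hsub : cut G H X ⊆ N2.biUnion (fun u => (H \ B).filter (fun e => u ∈ G.ends e)) := by
    intro e he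
    obtain ⟨heH, ⟨u, hu, huX⟩, w, hw, hwX⟩ := mem_filter.1 he
    have heB : e ∉ B := by
      intro heB
      apply hwX
      rw [hmem]
      exact (card_pos.2 ⟨e, mem_filter.2 ⟨heB, hw⟩⟩).ne'
    have hu2 : u ∈ N2 := by
      have h1 := (hmem u).1 huX
      have h2 := hd1 u
      have h3 : dg G B u ≤ 3 := (card_le_card (filter_subset_filter _ hBH)).trans (hle u)
      by_cases h4 : dg G B u = 2
      · simp [hN2, h4]
      · exfalso
        have h5 : dg G B u = 3 := by omega
        exact heB (filter_eq_of_le G hBH u (by rw [h5]; exact hle u) heH hu)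
    exact mem_biUnion.2 ⟨u, hu2, mem_filter.2 ⟨mem_sdiff.2 ⟨heH, heB⟩, hu⟩⟩
  refine (card_le_card hsub).trans ?_
  have := card_biUnion_le_card_mul N2
    (fun u => (H \ B).filter (fun e => u ∈ G.ends e)) 1 (by
      intro u hu
      have hu2 : dg G B u = 2 := by simpa [hN2] using hu
      have hsd : (H \ B).filter (fun e => u ∈ G.ends e) =
          H.filter (fun e => u ∈ G.ends e) \ B.filter (fun e => u ∈ G.ends e) := by
        ext e
        simp only [mem_filter, mem_sdiff]
        tauto
      show ((H \ B).filter (fun e => u ∈ G.ends e)).card ≤ 1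
      rw [hsd, card_sdiff_of_subset (filter_subset_filter _ hBH)]
      have h3 := hle u
      unfold dg at h3 hu2
      omega)
  simpa using this

/-- critical edge sets off `C` -/
theorem critBig (hp : Parts) {G : MGraph V E} {C : Finset E} (h : MinCE G C) (B : Finset E)
    (hB : ∀ e ∈ B, ∀ v ∈ G.ends e, dg G C v = 0) (hn : ¬ Clb G B)
    (hm : ∀ B', B' ⊂ B → Clb G B') :
    5 ≤ (univ.filter fun v => dg G B v = 2).card ∧
      10 ≤ (univ.filter fun v => dg G B v = 3).card := by
  have hle : ∀ v, dg G B v ≤ 3 := fun v =>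
    (card_le_card (filter_subset_filter _ (subset_univ B))).trans (h.cub v).le
  obtain ⟨hd1, hB4, hcount⟩ := crit kempe V E G B hle hn hm
  have h1 := critCut G univ B (subset_univ _) (fun v => (h.cub v).le) hd1
  have h2 := five hp.small _ h.min G h.cub h.bri C h.circ h.no rfl
    (univ.filter fun v => dg G B v ≠ 0) (by
      intro v hv
      rw [mem_filter] at hv
      obtain ⟨e, he⟩ := card_pos.1 (Nat.pos_of_ne_zero hv.2)
      rw [mem_filter] at he
      exact hB e he.1 v he.2) (by
      refine le_trans (by omega : 2 ≤ B.card) (card_le_card ?_)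
      intro e he
      unfold ins
      rw [mem_filter]
      refine ⟨mem_univ _, fun u hu => ?_⟩
      rw [mem_filter]
      exact ⟨mem_univ _, (card_pos.2 ⟨e, mem_filter.2 ⟨he, hu⟩⟩).ne'⟩)
  constructor
  · omega
  · omega

/-- the graph off `C` is not colourable -/
theorem offNot {G : MGraph V E} {C : Finset E} (h : MinCE G C) :
    ¬ Clb G (univ.filter fun e => ∀ v ∈ G.ends e, dg G C v = 0) := by
  intro hc
  apply h.no
  apply goodCdc G h.cub C h.circ
  have hF := frUniv evCut G h.cub h.bri C h.circ
  refine base V E G univ C hF.sub hF.le3 hF.circ.2.1 (tLoc V E G univ C Unit _ hF ?_)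
  rintro ⟨⟩
  rw [clsUniv G h.cub]
  refine hc.mono ?_
  intro e he
  unfold ins at he
  rw [mem_filter] at he ⊢
  exact ⟨mem_univ _, fun v hv => (mem_filter.1 (he.2 v hv)).2⟩

end

end Pool.Agent.H10R3.SC
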