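import Pool.Agent.H10R3.SC.CXMain4

set_option autoImplicit false
set_option linter.unusedSectionVars false

/-!
Smallest counterexamples among connected graphs are smallest among all graphs (project H10-CX).
-/

open Finset

namespace Pool.Agent.H10R3.SC

open Pool.Agent.Helper347.Sab
open Pool.Agent.H444.FA

/-- some edge leaves every proper nonempty vertex set -/
def ConnG {V E : Type} [Fintype V] [DecidableEq V] [Fintype E] [DecidableEq E] (G : MGraph V E) :
    Prop :=
  ∀ X : Finset V, X.Nonempty → Xᶜ.Nonempty → (cut G univ X).Nonempty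

theorem minAll (hp : Parts) (n : ℕ)
    (hmin : ∀ (V' E' : Type) [Fintype V'] [DecidableEq V'] [Fintype E'] [DecidableEq E']
      (G' : MGraph V' E'), IsCubic G' → ConnG G' →
      (∀ e : E', ∃ X : Finset E', IsCircuit G' X ∧ e ∈ X) →
      ∀ C' : Finset E', IsCircuit G' C' → (¬ ∃ F : Multiset (Finset E'), IsCDC G' F ∧ C' ∈ F) →
      n ≤ Fintype.card E') : MinEdges n := by
  classical
  by_contra hcon
  have hex : ∃ m : ℕ, m < n ∧ ∃ (V' E' : Type) (_ : Fintype V') (_ : DecidableEq V')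
      (_ : Fintype E') (_ : DecidableEq E') (G' : MGraph V' E') (C' : Finset E'), IsCubic G' ∧
      (∀ e : E', ∃ X : Finset E', IsCircuit G' X ∧ e ∈ X) ∧ IsCircuit G' C' ∧
      (¬ ∃ F : Multiset (Finset E'), IsCDC G' F ∧ C' ∈ F) ∧ Fintype.card E' = m := by
    unfold MinEdges at hcon
    push Not at hcon
    obtain ⟨V', E', i1, i2, i3, i4, G', h1, h2, C', h3, h4, h5⟩ := hcon
    refine ⟨_, h5, V', E', i1, i2, i3, i4, G', C', h1, h2, h3, ?_, rfl⟩
    rintro ⟨F, hF1, hF2⟩
    exact h4 F hF1 hF2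
  obtain ⟨hlt, V', E', i1, i2, i3, i4, G', C', h1, h2, h3, h4, h5⟩ := Nat.find_spec hex
  have hM : MinCE G' C' := by
    refine ⟨h1, h2, h3, h4, ?_⟩
    intro V2 E2 j1 j2 j3 j4 G2 q1 q2 C2 q3 q4
    by_contra hlt2
    have h6 := Nat.find_min hex (m := Fintype.card E2) (by omega)
    apply h6
    exact ⟨by omega, V2, E2, j1, j2, j3, j4, G2, C2, q1, q2, q3, q4, rfl⟩
  have h7 := hmin V' E' G' h1 (fun X n1 n2 => card_pos.1 (Nat.pos_of_ne_zero (conn hp hM X n1 n2)))
    h2 C' h3 h4
  omega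

end Pool.Agent.H10R3.SC
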