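import Pool.Agent.H10R3.SC.Stmts3
import Pool.Agent.H444.FA.StepE

set_option autoImplicit false
set_option linter.unusedSectionVars false

/-! Reading off the patterns (project H10-CX). -/

open Finset

namespace Pool.Agent.H10R3.SC.ReadT

open Pool.Agent.Helper347.Sab
open Pool.Agent.H444.FA
open Pool.Agent.H10R3.SC

theorem inl_newD {V E : Type} [Fintype V] [DecidableEq V] [Fintype E] [DecidableEq E]
    (G : MGraph V E) (C : Finset E) (X : Finset V) {b : ℕ} (T : Finset (Fin b)) (e : E) :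
    (Sum.inl e : E ⊕ Fin b) ∈ newD G C X T ↔ e ∈ C ∧ e ∈ ins G univ X := by
  unfold newD
  rw [mem_union, mem_inE, mem_map, mem_inter]
  constructor
  · rintro (h | ⟨k, _, hk⟩)
    · exact h
    · exact absurd hk (by simp)
  · exact Or.inl

theorem inr_newD {V E : Type} [Fintype V] [DecidableEq V] [Fintype E] [DecidableEq E]
    (G : MGraph V E) (C : Finset E) (X : Finset V) {b : ℕ} (T : Finset (Fin b)) (k : Fin b) :
    (Sum.inr k : E ⊕ Fin b) ∈ newD G C X T ↔ k ∈ T := by
  unfold newD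
  rw [mem_union, mem_map]
  constructor
  · rintro (h | ⟨k', h, hk⟩)
    · exact absurd h (inr_notMem_inE _ k)
    · have : k' = k := Sum.inr_injective hk
      rw [← this]
      exact h
  · exact fun h => Or.inr ⟨k, h, rfl⟩

theorem read : TRead := by
  intro V E _ _ _ _ G C X d y x ℓ hc a b g hGd hg T hgood
  obtain ⟨n, W, hW1, hW2, hW3⟩ := hgood
  refine ⟨n, fun c => oldP (W c), fun k => univ.filter fun c => (Sum.inr k : E ⊕ Fin b) ∈ W c,
    ⟨?_, ?_, ?_⟩, ?_, ?_, ?_⟩
  · intro c e he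
    rw [mem_oldP] at he
    exact (inl_mem_inG _ _).1 (hW1 c he)
  · intro e he
    have h1 := hW2 (Sum.inl e) ((inl_mem_inG _ _).2 he)
    have h2 : (univ.filter fun c => e ∈ oldP (W c)) = univ.filter fun c => Sum.inl e ∈ W c := by
      ext c
      rw [mem_filter, mem_filter, mem_oldP]
    rw [h2, h1]
    unfold mS
    by_cases hC : e ∈ C
    · rw [if_pos hC, if_pos ((inl_newD G C X T e).2 ⟨hC, he⟩)]
    · rw [if_neg hC, if_neg fun h => hC ((inl_newD G C X T e).1 h).1]
  · intro c v hv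
    have h1 := hW3 c (Sum.inl v)
    rw [dg_old] at h1
    have h2 : (univ.filter fun j : Fin b => (Sum.inr j : E ⊕ Fin b) ∈ W c ∧
        (Sum.inl v : V ⊕ Fin a) ∈ g j) = ∅ := by
      rw [filter_eq_empty_iff]
      rintro k _ ⟨_, hk⟩
      obtain ⟨j, hj⟩ := hGd.old k v hk
      exact hv j hj
    rw [h2, card_empty, add_zero] at h1
    exact h1
  · intro k
    have h1 := hW2 (Sum.inr k) (inr_mem_inG _ _)
    rw [h1]
    unfold mS
    by_cases hk : k ∈ T
    · rw [if_pos hk, if_pos ((inr_newD G C X T k).2 hk)]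
    · rw [if_neg hk, if_neg fun h => hk ((inr_newD G C X T k).1 h)]
  · intro j k hk
    have huniq : ∀ k', (Sum.inl (y j) : V ⊕ Fin a) ∈ g k' → k' = k := by
      intro k' hk'
      obtain ⟨k0, hk0⟩ := card_eq_one.1 (hGd.leg j)
      have e1 : k' ∈ (univ.filter fun k => (Sum.inl (y j) : V ⊕ Fin a) ∈ g k) :=
        mem_filter.2 ⟨mem_univ _, hk'⟩
      have e2 : k ∈ (univ.filter fun k => (Sum.inl (y j) : V ⊕ Fin a) ∈ g k) :=
        mem_filter.2 ⟨mem_univ _, hk⟩
      rw [hk0, mem_singleton] at e1 e2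
      rw [e1, e2]
    ext c
    unfold pat
    rw [mem_filter, mem_filter]
    have h1 := hW3 c (Sum.inl (y j))
    rw [dg_old] at h1
    by_cases hin : (Sum.inr k : E ⊕ Fin b) ∈ W c
    · have h2 : (univ.filter fun j' : Fin b => (Sum.inr j' : E ⊕ Fin b) ∈ W c ∧
          (Sum.inl (y j) : V ⊕ Fin a) ∈ g j') = {k} := by
        ext k'
        rw [mem_filter, mem_singleton]
        constructor
        · rintro ⟨_, _, h⟩
          exact huniq k' h
        · rintro rfl
          exact ⟨mem_univ _, hin, hk⟩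
      rw [h2, card_singleton] at h1
      have h3 : Odd (dg G (oldP (W c)) (y j)) := by
        obtain ⟨t, ht⟩ := h1
        rw [Nat.odd_iff]
        omega
      exact ⟨fun _ => ⟨mem_univ _, hin⟩, fun _ => ⟨mem_univ _, h3⟩⟩
    · have h2 : (univ.filter fun j' : Fin b => (Sum.inr j' : E ⊕ Fin b) ∈ W c ∧
          (Sum.inl (y j) : V ⊕ Fin a) ∈ g j') = ∅ := by
        rw [filter_eq_empty_iff]
        rintro k' _ ⟨h3, h4⟩
        rw [huniq k' h4] at h3
        exact hin h3
      rw [h2, card_empty, add_zero] at h1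
      constructor
      · rintro ⟨_, h⟩
        exact absurd h (Nat.not_odd_iff_even.2 h1)
      · rintro ⟨_, h⟩
        exact absurd h hin
  · intro w c
    have h1 := hW3 c (Sum.inr w)
    rw [dg_new] at h1
    have h2 : (univ.filter fun k : Fin b => (Sum.inr w : V ⊕ Fin a) ∈ g k ∧
        c ∈ univ.filter fun c => (Sum.inr k : E ⊕ Fin b) ∈ W c) =
        univ.filter fun j : Fin b => (Sum.inr j : E ⊕ Fin b) ∈ W c ∧
          (Sum.inr w : V ⊕ Fin a) ∈ g j := by
      ext k
      rw [mem_filter, mem_filter, mem_filter]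
      constructor
      · rintro ⟨_, h3, _, h4⟩
        exact ⟨mem_univ _, h4, h3⟩
      · rintro ⟨_, h3, h4⟩
        exact ⟨mem_univ _, h4, mem_univ _, h3⟩
    rw [h2]
    exact h1

end Pool.Agent.H10R3.SC.ReadT
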