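import Pool.Agent.H10R3.SC.Stmts3
import Pool.Agent.Helper347.SabGraph
import Pool.Agent.Helper347.SabSmith

set_option autoImplicit false
set_option linter.unusedSectionVars false

/-!
Circuits are the minimal nonempty even sets (for degrees 0 and 2): task CX5 of project H10-CX.
-/

open Finset

namespace Pool.Agent.H10R3.SC

open Pool.Agent.Helper347.Sab
open Pool.Agent.H444.FA

theorem minCirc : TMinCirc := by
  intro V E _ _ _ _ G D
  refine ⟨fun hD Z hZD hZ hEv => circuit_minimal G D Z hD hEv hZD hZ, fun hne hdeg hmin => ?_⟩
  obtain ⟨X, hXD, hXc, -⟩ := component G D hdeg hne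
  have hXe : Ev G X := by
    intro v
    rcases hXc.2.1 v with h | h
    · rw [h]; exact Even.zero
    · rw [h]; exact even_two
  have := hmin X hXD hXc.1 hXe
  rw [← this]
  exact hXc

end Pool.Agent.H10R3.SC
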