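import Pool.Agent.Helper347.SabDefs

set_option autoImplicit false
set_option linter.unusedSectionVars false

/-!
Strong circuit double covers: definitions and the colouring statement (project H10-SC).
-/

open Finset

namespace Pool.Agent.H10R3.SC

open Pool.Agent.Helper347.Sab

section

variable {V E : Type} [Fintype V] [DecidableEq V] [Fintype E] [DecidableEq E]

/-- the edge set `B` has a proper colouring with three colours -/
def Clb (G : MGraph V E) (B : Finset E) : Prop :=
  ∃ col : E → Fin 3, ∀ (v : V) (e f : E), e ∈ B → f ∈ B → v ∈ G.ends e → v ∈ G.ends f → e ≠ f →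
    col e ≠ col f

/-- the edges of `H` with one end in `Y` and one end outside -/
def cut (G : MGraph V E) (H : Finset E) (Y : Finset V) : Finset E :=
  H.filter fun e => (∃ u, u ∈ G.ends e ∧ u ∈ Y) ∧ ∃ w, w ∈ G.ends e ∧ w ∉ Y

/-- the edges of `H` with an end in `X` -/
def tou (G : MGraph V E) (H : Finset E) (X : Finset V) : Finset E :=
  H.filter fun e => ∃ u, u ∈ G.ends e ∧ u ∈ X

/-- the edges of `H` with both ends in `X` -/
def ins (G : MGraph V E) (H : Finset E) (X : Finset V) : Finset E :=
  H.filter fun e => ∀ u, u ∈ G.ends e → u ∈ X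

end

/-- A1: in a non-3-edge-colourable `B` all of whose proper subsets are colourable (maximum degree
at most 3) no vertex has two edges whose other ends have degree 2. -/
def TKempe : Prop :=
  ∀ (V E : Type) [Fintype V] [DecidableEq V] [Fintype E] [DecidableEq E] (G : MGraph V E)
    (B : Finset E), (∀ v, dg G B v ≤ 3) → ¬ Clb G B → (∀ B', B' ⊂ B → Clb G B') →
    ∀ (v y1 y2 : V) (e1 e2 : E), e1 ∈ B → e2 ∈ B → e1 ≠ e2 → G.ends e1 = s(v, y1) →
      G.ends e2 = s(v, y2) → dg G B y1 = 2 → dg G B y2 = 2 → False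

/-- A2: the counting lemma for critical edge sets -/
def TCrit : Prop :=
  ∀ (V E : Type) [Fintype V] [DecidableEq V] [Fintype E] [DecidableEq E] (G : MGraph V E)
    (B : Finset E), (∀ v, dg G B v ≤ 3) → ¬ Clb G B → (∀ B', B' ⊂ B → Clb G B') →
    (∀ v, dg G B v ≠ 1) ∧ 4 ≤ B.card ∧
      2 * (univ.filter fun v => dg G B v = 2).card ≤ (univ.filter fun v => dg G B v = 3).card

end Pool.Agent.H10R3.SC
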