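import Pool.Agent.H10R3.SC.Stmts
import Pool.Agent.H444.FA.All

set_option autoImplicit false
set_option linter.unusedSectionVars false

/-!
Assembly of the parts (project H10-SC).
-/

open Finset

namespace Pool.Agent.H10R3.SC

open Pool.Agent.Helper347.Sab
open Pool.Agent.H444.FA
open Pool.Agent.Helper998.Near (Rch)

section

variable {V E : Type} [Fintype V] [DecidableEq V] [Fintype E] [DecidableEq E]

/-- an edge of `H` with an end in `X` and an end outside is a leg -/
theorem Lg.uniq {G : MGraph V E} {H : Finset E} {X : Finset V} {d : ℕ} {x : Fin d → V}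
    {ℓ : Fin d → E} (hL : Lg G H X x ℓ) {e : E} (he : e ∈ H) {u v : V} (hu : u ∈ G.ends e)
    (huX : u ∈ X) (hv : v ∈ G.ends e) (hvX : v ∉ X) : ∃ j, e = ℓ j ∧ v = x j := by
  have h1 : e ∈ SC.cut G H X := by
    unfold SC.cut
    rw [mem_filter]
    exact ⟨he, ⟨u, hu, huX⟩, v, hv, hvX⟩
  obtain ⟨j, rfl⟩ := (hL.cut e).1 h1
  refine ⟨j, rfl, ?_⟩
  by_contra hne
  have h2 : G.ends (ℓ j) = s(v, x j) := (Sym2.mem_and_mem_iff hne).1 ⟨hv, hL.mem j⟩
  rw [h2, Sym2.mem_iff] at hu
  rcases hu with rfl | rfl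
  · exact hvX huX
  · exact hL.xout j huX

theorem Lg.cutmem {G : MGraph V E} {H : Finset E} {X : Finset V} {d : ℕ} {x : Fin d → V}
    {ℓ : Fin d → E} (hL : Lg G H X x ℓ) (j : Fin d) :
    ℓ j ∈ H ∧ ∃ u, u ∈ G.ends (ℓ j) ∧ u ∈ X := by
  have h1 := (hL.cut (ℓ j)).2 ⟨j, rfl⟩
  unfold SC.cut at h1
  rw [mem_filter] at h1
  exact ⟨h1.1, h1.2.1⟩

theorem Lg.one {G : MGraph V E} {H : Finset E} {X : Finset V} {d : ℕ} {x : Fin d → V}
    {ℓ : Fin d → E} (hL : Lg G H X x ℓ) (j : Fin d) : dg G (tou G H X) (x j) = 1 := by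
  unfold dg
  rw [card_eq_one]
  refine ⟨ℓ j, ?_⟩
  ext f
  rw [mem_filter, mem_singleton]
  unfold tou
  rw [mem_filter]
  constructor
  · rintro ⟨⟨h1, u, h2, h3⟩, h4⟩
    obtain ⟨j', rfl, h5⟩ := hL.uniq h1 h2 h3 h4 (hL.xout j)
    rw [hL.xinj h5]
  · rintro rfl
    exact ⟨hL.cutmem j, hL.mem j⟩

theorem touCover (hcb : TCutBr) (G : MGraph V E) (H : Finset E) (hle : ∀ v, dg G H v ≤ 3)
    (hbr : ∀ Y : Finset V, (cut G H Y).card ≠ 1) (X : Finset V) {d : ℕ} (x : Fin d → V)
    (ℓ : Fin d → E) (hL : Lg G H X x ℓ) :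
    ∃ Y : T3 → Finset E, PC G (tou G H X) (fun _ => 2) x Y := by
  have hsub : tou G H X ⊆ H := filter_subset _ _
  refine cov V E G (tou G H X) d x (fun v => (dg_mono hsub v).trans (hle v)) ?_
  intro e he
  obtain ⟨Z, hZH, heZ, hZ⟩ := hcb V E G H hbr e (hsub he)
  refine ⟨Z ∩ tou G H X, inter_subset_right, mem_inter.2 ⟨heZ, he⟩, fun v hv => ?_⟩
  by_cases hvX : v ∈ X
  · have h1 : ((Z ∩ tou G H X).filter fun f => v ∈ G.ends f) = Z.filter fun f => v ∈ G.ends f := by
      ext f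
      unfold tou
      rw [mem_filter, mem_filter, mem_inter, mem_filter]
      constructor
      · rintro ⟨⟨h1, -⟩, h2⟩
        exact ⟨h1, h2⟩
      · rintro ⟨h1, h2⟩
        exact ⟨⟨h1, hZH h1, v, h2, hvX⟩, h2⟩
    have h2 := hZ v
    unfold dg at h2 ⊢
    rw [h1]
    exact h2
  · have h1 : ((Z ∩ tou G H X).filter fun f => v ∈ G.ends f) = ∅ := by
      rw [filter_eq_empty_iff]
      intro f hf hvf
      rw [mem_inter] at hf
      unfold tou at hf
      rw [mem_filter] at hf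
      obtain ⟨-, h2, u, h3, h4⟩ := hf
      obtain ⟨j, -, h5⟩ := hL.uniq h2 h3 h4 hvf hvX
      exact hv j h5
    unfold dg
    rw [h1]
    simp

theorem card_tou (G : MGraph V E) (H : Finset E) (X : Finset V) :
    (tou G H X).card = (ins G H X).card + (cut G H X).card := by
  rw [← card_union_of_disjoint]
  · congr 1
    ext e
    unfold tou ins cut
    rw [mem_union, mem_filter, mem_filter, mem_filter]
    constructor
    · rintro ⟨h1, u, h2, h3⟩
      by_cases h : ∀ w, w ∈ G.ends e → w ∈ X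
      · exact Or.inl ⟨h1, h⟩
      · push Not at h
        exact Or.inr ⟨h1, ⟨u, h2, h3⟩, h⟩
    · rintro (⟨h1, h2⟩ | ⟨h1, h2, -⟩)
      · obtain ⟨a, b, _, hab⟩ := exists_ends G e
        have ha : a ∈ G.ends e := by rw [hab]; simp
        exact ⟨h1, a, ha, h2 a ha⟩
      · exact ⟨h1, h2⟩
  · rw [disjoint_left]
    intro e h1 h2
    unfold ins at h1
    unfold cut at h2
    rw [mem_filter] at h1 h2
    obtain ⟨-, -, w, h3, h4⟩ := h2
    exact h4 (h1.2 w h3)

theorem card_inG {b : ℕ} (A : Finset E) : (inG A : Finset (E ⊕ Fin b)).card = A.card + b := by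
  unfold inG inE
  rw [card_union_of_disjoint, card_map, card_map, card_univ, Fintype.card_fin]
  rw [disjoint_left]
  intro e h1 h2
  rw [mem_map] at h1 h2
  obtain ⟨u, _, rfl⟩ := h1
  obtain ⟨w, _, h3⟩ := h2
  exact absurd h3 (by simp)

end

theorem mainThm (hcb : TCutBr) (hloc : TLoc) (hfind : TFind) (hlegs : TLegs) (hgad : TGad)
    (hfr : TExtFr) (hok : TExtOk) : TMain := by
  intro n
  induction n using Nat.strong_induction_on with
  | _ n ih =>
  intro V E _ _ _ _ G H D ι _ κ hF hO hn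
  by_cases hall : ∀ i, Clb G (ins G H (cls G H D κ i))
  · exact base V E G H D hF.sub hF.le3 hF.circ.2.1 (hloc V E G H D ι κ hF hall)
  rw [not_forall] at hall
  obtain ⟨i, hi⟩ := hall
  obtain ⟨X0, h1, h2, h3, h4, h5⟩ := hfind V E G H D ι κ hF i (hO i) hi
  obtain ⟨X, hX0X, hX⟩ : ∃ X, X0 ⊆ X ∧ Mx G H D κ i X := by
    obtain ⟨X, hX, hmax⟩ := ((cls G H D κ i).powerset.filter fun X =>
      X0 ⊆ X ∧ (cut G H X).card ≤ 4).exists_max_image card
      ⟨X0, by rw [mem_filter, mem_powerset]; exact ⟨h1, Subset.refl _, h2⟩⟩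
    rw [mem_filter, mem_powerset] at hX
    refine ⟨X, hX.2.1, hX.1, hX.2.2, fun X' hXX' hX' => ?_⟩
    by_contra hlt
    have h6 := hmax X' (by
      rw [mem_filter, mem_powerset]
      exact ⟨hX', hX.2.1.trans hXX'.1, by omega⟩)
    have h7 := card_lt_card hXX'
    omega
  have hX2 : 2 ≤ X.card := h4.trans (card_le_card hX0X)
  have hX4 : 4 ≤ (ins G H X).card := by
    refine h3.trans (card_le_card ?_)
    intro e he
    unfold ins at he ⊢
    rw [mem_filter] at he ⊢
    exact ⟨he.1, fun u hu => hX0X (he.2 u hu)⟩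
  have hX5 : 2 ≤ (X ∩ inn G H D κ i).card ∨ X = cls G H D κ i := by
    rcases h5 with h | h
    · exact Or.inl (h.trans (card_le_card (inter_subset_inter hX0X (Subset.refl _))))
    · right
      exact Subset.antisymm hX.sub (h ▸ hX0X)
  obtain ⟨F, hFdef⟩ : ∃ F, F = tou G H X := ⟨_, rfl⟩
  have hFH : F ⊆ H := by rw [hFdef]; exact filter_subset _ _
  have hDA : D ⊆ H \ F := by
    intro e he
    rw [mem_sdiff]
    refine ⟨hF.sub he, fun h => ?_⟩
    rw [hFdef] at h
    unfold tou at h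
    rw [mem_filter] at h
    obtain ⟨-, u, hu, huX⟩ := h
    have h6 := hX.sub huX
    unfold cls at h6
    rw [mem_filter] at h6
    have h7 := dg_pos_of_mem (G := G) he hu
    omega
  have hcardF : (ins G H X).card + (cut G H X).card = F.card := by rw [hFdef, card_tou]
  have hcardA : (H \ F).card + F.card = n := by
    rw [← hn]; exact card_sdiff_add_card_eq_card hFH
  have hunion : H \ F ∪ F = H := sdiff_union_of_subset hFH
  -- the induction hypothesis for a gadget
  have key : ∀ (d : ℕ), (cut G H X).card = d → ∀ (x : Fin d → V) (ℓ : Fin d → E),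
      Lg G H X x ℓ → ∀ (a b : ℕ) (g : Fin b → Sym2 (V ⊕ Fin a)), Gdt x g →
      ∀ hg : ∀ j, ¬ (g j).IsDiag, Good (ext G g hg) (inG (H \ F)) (inE D) := by
    intro d hd x ℓ hL a b g hG hg
    have e1 := hfr V E G H D ι κ hF i X hX d x ℓ hL a b g hG hg
    have e2 := hok V E G H D ι κ hF i X hX d x ℓ hL a b g hG hg hO hi hX2 hX5
    rw [← hFdef] at e1 e2
    refine ih _ ?_ (V ⊕ Fin a) (E ⊕ Fin b) (ext G g hg) (inG (H \ F)) (inE D) ι _ e1 e2 rfl
    rw [card_inG]
    have := hG.bd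
    omega
  have hd4 := hX.four
  have hd1 := hF.br X
  have hd : (cut G H X).card = 0 ∨ (cut G H X).card = 2 ∨ (cut G H X).card = 3 ∨
      (cut G H X).card = 4 := by omega
  have hle : ∀ v, dg G F v ≤ 3 := fun v => (dg_mono hFH v).trans (hF.le3 v)
  rw [← hunion]
  rcases hd with hd | hd | hd | hd
  · obtain ⟨x, ℓ, hL⟩ := hlegs V E G H D ι κ hF i X hX 0 hd
    obtain ⟨Y, hY⟩ := touCover hcb G H hF.le3 hF.br X x ℓ hL
    rw [← hFdef] at hY
    have hG : Gdt x (fun k : Fin 0 => (Fin.elim0 k : Sym2 (V ⊕ Fin 0))) :=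
      ⟨by norm_num, by norm_num, fun k => Fin.elim0 k, fun j => Fin.elim0 j, fun w => Fin.elim0 w,
        fun Y _ => by simp⟩
    have hgood := key 0 hd x ℓ hL 0 0 _ hG (fun k => Fin.elim0 k)
    obtain ⟨m, Z, hZ, -⟩ := good_pat G (H \ F) D x _ _ (fun k => Fin.elim0 k)
      (fun j => Fin.elim0 j) (fun j => Fin.elim0 j) hgood
    exact glue V E G (H \ F) F D sdiff_disjoint hDA 0 x (Fin m) Z hZ Y hY
      (Fin 0) ⟨Fin.elim0, fun i => Fin.elim0 i⟩ ⟨Fin.elim0, fun i => Fin.elim0 i⟩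
      (fun i => Fin.elim0 i) (fun i => Fin.elim0 i) (fun i => Fin.elim0 i)
  · obtain ⟨x, ℓ, hL⟩ := hlegs V E G H D ι κ hF i X hX 2 hd
    have hcovY := touCover hcb G H hF.le3 hF.br X x ℓ hL
    have hone := hL.one
    rw [← hFdef] at hcovY hone
    exact core2 glue patEven V E G (H \ F) F D sdiff_disjoint hDA x hL.xinj hone hcovY
      (edge V E G (H \ F) D hDA x hL.xinj (edge_diag x hL.xinj)
        (key 2 hd x ℓ hL _ _ _ ((hgad V).2.2 x hL.xinj) (edge_diag x hL.xinj)))
  · obtain ⟨x, ℓ, hL⟩ := hlegs V E G H D ι κ hF i X hX 3 hd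
    have hcovY := touCover hcb G H hF.le3 hF.br X x ℓ hL
    have hone := hL.one
    rw [← hFdef] at hcovY hone
    exact core3 glue patEven V E G (H \ F) F D sdiff_disjoint hDA x hL.xinj hone hcovY
      (claw V E G (H \ F) D hDA x hL.xinj (claw_diag x)
        (key 3 hd x ℓ hL _ _ _ ((hgad V).2.1 x hL.xinj) (claw_diag x)))
  · obtain ⟨x, ℓ, hL⟩ := hlegs V E G H D ι κ hF i X hX 4 hd
    have hcovY := touCover hcb G H hF.le3 hF.br X x ℓ hL
    have hone := hL.one
    rw [← hFdef] at hcovY hone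
    have hinj := hL.xinj
    have hP : ∀ k l l' : Fin 4, k ≠ 0 → l ≠ 0 → l' ≠ 0 → k ≠ l → k ≠ l' → l ≠ l' →
        ∃ (n : ℕ) (X : Fin n → Finset E), PC G (H \ F) (mS D) x X ∧
          (∀ i, (pat G x X i).card = 2) ∧ pat G x X 0 = pat G x X k := by
      intro k l l' hk hl hl' hkl hkl' hll'
      exact par V E G (H \ F) D hDA x hinj k l l' hk hl hl' hkl hkl' hll'
        (par_diag x hinj k l l' hk hll')
        (key 4 hd x ℓ hL _ _ _ ((hgad V).1 x hinj k l l' hk hl hl' hkl hkl' hll').1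
          (par_diag x hinj k l l' hk hll'))
    have hT : ∀ k l l' : Fin 4, k ≠ 0 → l ≠ 0 → l' ≠ 0 → k ≠ l → k ≠ l' → l ≠ l' →
        ∃ (n : ℕ) (X : Fin n → Finset E), PC G (H \ F) (mS D) x X ∧
          (∀ i, (pat G x X i).card = 2) ∧ (pat G x X 0 ∩ pat G x X k).card = 1 := by
      intro k l l' hk hl hl' hkl hkl' hll'
      exact tree V E G (H \ F) D hDA x hinj k l l' hk hl hl' hkl hkl' hll'
        (tree_diag x k l l')
        (key 4 hd x ℓ hL _ _ _ ((hgad V).1 x hinj k l l' hk hl hl' hkl hkl' hll').2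
          (tree_diag x k l l'))
    have f4 : ∀ k : Fin 4, k = 0 ∨ k = 1 ∨ k = 2 ∨ k = 3 := by decide
    refine all_core4 V E G (H \ F) F D sdiff_disjoint hDA hle x hinj hone hcovY ?_ ?_
    · intro k hk
      rcases f4 k with rfl | rfl | rfl | rfl
      · exact absurd rfl hk
      · exact hP 1 2 3 (by decide) (by decide) (by decide) (by decide) (by decide) (by decide)
      · exact hP 2 1 3 (by decide) (by decide) (by decide) (by decide) (by decide) (by decide)
      · exact hP 3 1 2 (by decide) (by decide) (by decide) (by decide) (by decide) (by decide)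
    · intro k hk
      rcases f4 k with rfl | rfl | rfl | rfl
      · exact absurd rfl hk
      · exact hT 1 2 3 (by decide) (by decide) (by decide) (by decide) (by decide) (by decide)
      · exact hT 2 1 3 (by decide) (by decide) (by decide) (by decide) (by decide) (by decide)
      · exact hT 3 1 2 (by decide) (by decide) (by decide) (by decide) (by decide) (by decide)

end Pool.Agent.H10R3.SC
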