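import Pool.Agent.H10R3.SC.Min

set_option autoImplicit false
set_option linter.unusedSectionVars false

/-!
Smallest counterexamples to the strong circuit double cover conjecture (project H10-MC).
-/

open Finset

namespace Pool.Agent.H10R3.SC

open Pool.Agent.Helper347.Sab
open Pool.Agent.H444.FA

section

variable {V E : Type} [Fintype V] [DecidableEq V] [Fintype E] [DecidableEq E]

theorem frUniv (h3 : TEvCut) (G : MGraph V E) (hG : IsCubic G)
    (hbr : ∀ e : E, ∃ X : Finset E, IsCircuit G X ∧ e ∈ X) (C : Finset E) (hC : IsCircuit G C) :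
    Fr G univ C (fun _ : V => ()) := by
  refine ⟨subset_univ _, hC, fun v => (hG v).le, fun v _ => Or.inr (hG v),
    fun _ _ _ _ _ _ _ _ => rfl, ?_⟩
  intro Y hY
  obtain ⟨e, he⟩ := card_eq_one.mp hY
  obtain ⟨X, hX, heX⟩ := hbr e
  have h4 : cut G X Y ⊆ {e} := he ▸ cut_mono (subset_univ _) Y
  have h5 : e ∈ cut G X Y := by
    have h6 : e ∈ cut G univ Y := by rw [he]; exact mem_singleton_self e
    rw [mem_cut] at h6 ⊢
    exact ⟨heX, h6.2⟩
  have h6 : cut G X Y = {e} := subset_antisymm h4 (singleton_subset_iff.mpr h5)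
  have h7 := h3 V E G X Y (circ_ev hX)
  rw [h6, card_singleton] at h7
  exact absurd h7 (by decide)

theorem clsUniv (G : MGraph V E) (hG : IsCubic G) (C : Finset E) :
    cls G univ C (fun _ : V => ()) () = univ.filter fun v => dg G C v = 0 := by
  ext v
  unfold cls
  rw [mem_filter, mem_filter]
  constructor
  · rintro ⟨h1, h2, -⟩
    exact ⟨h1, h2⟩
  · rintro ⟨h1, h2⟩
    exact ⟨h1, h2, by rw [hG v]; norm_num, rfl⟩

theorem goodCdc (G : MGraph V E) (hG : IsCubic G) (C : Finset E) (hC : IsCircuit G C)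
    (hgood : Good G univ C) : ∃ F : Multiset (Finset E), IsCDC G F ∧ C ∈ F := by
  obtain ⟨F, h1, h2, h3⟩ := Pool.Agent.H444.FA.cdc V E G univ C (subset_univ _)
    (fun v => (hG v).le) hC.2.1 hgood
  exact ⟨F, ⟨h1, fun e => by rw [h2 e, if_pos (mem_univ e)]⟩, h3 C hC (Subset.refl _)⟩

/-- every set `X` off `C` with at least two edges inside is left by at least five edges -/
theorem five (hsmall : TSmallGood) (n : ℕ) (hmin : MinEdges n) (G : MGraph V E) (hG : IsCubic G)
    (hbr : ∀ e : E, ∃ X : Finset E, IsCircuit G X ∧ e ∈ X) (C : Finset E) (hC : IsCircuit G C)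
    (hno : ¬ ∃ F : Multiset (Finset E), IsCDC G F ∧ C ∈ F) (hn : Fintype.card E = n)
    (X0 : Finset V) (hX0 : ∀ v ∈ X0, dg G C v = 0) (h2 : 2 ≤ (ins G univ X0).card) :
    5 ≤ (cut G univ X0).card := by
  by_contra hlt
  have hF := frUniv evCut G hG hbr C hC
  obtain ⟨X, hX0X, hX⟩ : ∃ X, X0 ⊆ X ∧ Mx G univ C (fun _ : V => ()) () X := by
    obtain ⟨X, hX, hmax⟩ := ((cls G univ C (fun _ : V => ()) ()).powerset.filter fun X =>
      X0 ⊆ X ∧ (cut G univ X).card ≤ 4).exists_max_image card
      ⟨X0, by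
        rw [mem_filter, mem_powerset]
        refine ⟨fun v hv => ?_, Subset.refl _, by omega⟩
        rw [clsUniv G hG, mem_filter]
        exact ⟨mem_univ _, hX0 v hv⟩⟩
    rw [mem_filter, mem_powerset] at hX
    refine ⟨X, hX.2.1, hX.1, hX.2.2, fun X' hXX' hX' => ?_⟩
    by_contra hlt
    have h6 := hmax X' (by
      rw [mem_filter, mem_powerset]
      exact ⟨hX', hX.2.1.trans hXX'.1, by omega⟩)
    have h7 := card_lt_card hXX'
    omega
  have hX2 : 2 ≤ (ins G univ X).card := by
    refine h2.trans (card_le_card ?_)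
    intro e he
    unfold ins at he ⊢
    rw [mem_filter] at he ⊢
    exact ⟨he.1, fun u hu => hX0X (he.2 u hu)⟩
  apply hno
  apply goodCdc G hG C hC
  refine step cutBr legs TGadF.gad V E G univ C Unit (fun _ => ()) hF () X hX ?_
  intro d hd x ℓ hL a b g hGd hg
  have e1 := extFr cnt side evCut V E G univ C Unit (fun _ => ()) hF () X hX d x ℓ hL a b g hGd hg
  refine hsmall n hmin _ _ _ _ _ e1.sub e1.circ ?_ e1.br ?_
  · have hleg0 : ∀ v, (∀ j, v ≠ x j) →
        (univ.filter fun k => (Sum.inl v : V ⊕ Fin a) ∈ g k).card = 0 := by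
      intro v hv
      rw [card_eq_zero, filter_eq_empty_iff]
      intro k _ hk
      obtain ⟨j, hj⟩ := hGd.old k v hk
      exact hv j hj
    rintro (v | w)
    · rw [dg_inG]
      by_cases hv : v ∈ X
      · left
        rw [ExtFr.dgA_in hv, hleg0 v fun j hj => hL.xout j (hj ▸ hv)]
      · right
        by_cases hj : ∃ j, v = x j
        · obtain ⟨j, rfl⟩ := hj
          rw [hGd.leg j, ExtFr.dgA_leg hL]
          exact hG _
        · push Not at hj
          rw [hleg0 v hj, ExtFr.dgA_out hL hv hj, add_zero]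
          exact hG _
    · right
      rw [dg_new, ← hGd.new w]
      congr 1
      ext k
      simp [inr_mem_inG]
  · rw [card_inG]
    have h3 := card_tou G univ X
    have h4 : ((univ : Finset E) \ tou G univ X).card + (tou G univ X).card = Fintype.card E := by
      rw [card_sdiff_add_card_eq_card (subset_univ _), card_univ]
    have h5 := hGd.bd
    omega

theorem ends_ne (G : MGraph V E) (v : V) (e : E) (he : ∀ u, u ∈ G.ends e → u = v) : False := by
  obtain ⟨a, b, hab, hE⟩ := exists_ends G e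
  apply hab
  rw [he a (by rw [hE]; exact Sym2.mem_mk_left _ _), he b (by rw [hE]; exact Sym2.mem_mk_right _ _)]

/-- the same in terms of the number of vertices -/
theorem five' (hsmall : TSmallGood) (n : ℕ) (hmin : MinEdges n) (G : MGraph V E) (hG : IsCubic G)
    (hbr : ∀ e : E, ∃ X : Finset E, IsCircuit G X ∧ e ∈ X) (C : Finset E) (hC : IsCircuit G C)
    (hno : ¬ ∃ F : Multiset (Finset E), IsCDC G F ∧ C ∈ F) (hn : Fintype.card E = n)
    (X : Finset V) (hX : ∀ v ∈ X, dg G C v = 0) (h2 : X.Nonempty) :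
    min (X.card + 2) 5 ≤ (cut G univ X).card := by
  have h1 := sum_dg_le G univ X
  have h3 : ∑ v ∈ X, dg G univ v = 3 * X.card := by
    rw [sum_congr rfl fun v _ => hG v, sum_const, smul_eq_mul, mul_comm]
  rw [h3] at h1
  have h4 : 0 < X.card := card_pos.2 h2
  have h5 := five hsmall n hmin G hG hbr C hC hno hn X hX
  by_cases hc : X.card = 1
  · obtain ⟨v, rfl⟩ := card_eq_one.1 hc
    have h6 : (ins G univ {v}).card = 0 := by
      rw [card_eq_zero]
      unfold ins
      rw [filter_eq_empty_iff]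
      intro e _ he
      exact ends_ne G v e fun u hu => mem_singleton.1 (he u hu)
    omega
  · omega

end

end Pool.Agent.H10R3.SC
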