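import Pool.Agent.H10R3.SC.Defs
import Pool.Agent.H444.FA.Stm

set_option autoImplicit false
set_option linter.unusedSectionVars false

/-!
Strong circuit double covers for circuits `D` such that every component of `G - V(D)` is
3-edge-colourable, or sends at most four edges to `D`, or has at most 14 vertices, or has at most 9
vertices without neighbour on `D`. Statements of the parts (project H10-SC).
-/

open Finset

namespace Pool.Agent.H10R3.SC

open Pool.Agent.Helper347.Sab
open Pool.Agent.H444.FA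
open Pool.Agent.Helper998.Near (Rch)

section

variable {V E : Type} [Fintype V] [DecidableEq V] [Fintype E] [DecidableEq E]

/-- the vertices off `D` of positive degree with label `i` -/
def cls (G : MGraph V E) (H D : Finset E) {ι : Type} [DecidableEq ι] (κ : V → ι) (i : ι) :
    Finset V :=
  univ.filter fun v => dg G D v = 0 ∧ dg G H v ≠ 0 ∧ κ v = i

/-- those of them all of whose neighbours are off `D` -/
def inn (G : MGraph V E) (H D : Finset E) {ι : Type} [DecidableEq ι] (κ : V → ι) (i : ι) :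
    Finset V :=
  (cls G H D κ i).filter fun v => ∀ e, e ∈ H → v ∈ G.ends e → ∀ w, w ∈ G.ends e → dg G D w = 0

/-- the condition on the label class `i` -/
def Ok (G : MGraph V E) (H D : Finset E) {ι : Type} [DecidableEq ι] (κ : V → ι) (i : ι) : Prop :=
  Clb G (ins G H (cls G H D κ i)) ∨ (cut G H (cls G H D κ i)).card ≤ 4 ∨
    (cls G H D κ i).card ≤ 14 ∨ (inn G H D κ i).card ≤ 9

/-- the general situation: `D` is a circuit of the subcubic bridgeless graph `H`; vertices off `D`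
have degree 0 or 3; edges with both ends off `D` respect the labels `κ` -/
structure Fr (G : MGraph V E) (H D : Finset E) {ι : Type} (κ : V → ι) : Prop where
  sub : D ⊆ H
  circ : IsCircuit G D
  le3 : ∀ v, dg G H v ≤ 3
  off : ∀ v, dg G D v = 0 → dg G H v = 0 ∨ dg G H v = 3
  lab : ∀ e, e ∈ H → ∀ u w, u ∈ G.ends e → w ∈ G.ends e → dg G D u = 0 → dg G D w = 0 → κ u = κ w
  br : ∀ Y : Finset V, (cut G H Y).card ≠ 1

/-- `X` is a set of vertices of class `i` with at most 4 leaving edges, and no larger subset of the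
class is one -/
structure Mx (G : MGraph V E) (H D : Finset E) {ι : Type} [DecidableEq ι] (κ : V → ι) (i : ι)
    (X : Finset V) : Prop where
  sub : X ⊆ cls G H D κ i
  four : (cut G H X).card ≤ 4
  max : ∀ X', X ⊂ X' → X' ⊆ cls G H D κ i → 5 ≤ (cut G H X').card

/-- the legs `ℓ j` of `X` with their outer ends `x j` -/
structure Lg (G : MGraph V E) (H : Finset E) (X : Finset V) {d : ℕ} (x : Fin d → V)
    (ℓ : Fin d → E) : Prop where
  xinj : Function.Injective x
  xout : ∀ j, x j ∉ X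
  linj : Function.Injective ℓ
  mem : ∀ j, x j ∈ G.ends (ℓ j)
  cut : ∀ e, e ∈ cut G H X ↔ ∃ j, e = ℓ j

/-- a gadget with `a` new vertices and `b` new edges for the legs with outer ends `x j` -/
structure Gdt {d a b : ℕ} (x : Fin d → V) (g : Fin b → Sym2 (V ⊕ Fin a)) : Prop where
  a2 : a ≤ 2
  bd : b ≤ d + 1
  old : ∀ (k : Fin b) (u : V), (Sum.inl u : V ⊕ Fin a) ∈ g k → ∃ j, u = x j
  leg : ∀ j, (univ.filter fun k => (Sum.inl (x j) : V ⊕ Fin a) ∈ g k).card = 1
  new : ∀ w : Fin a, (univ.filter fun k => (Sum.inr w : V ⊕ Fin a) ∈ g k).card = 3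
  nocut : ∀ Y : Finset (V ⊕ Fin a), (∀ j, (Sum.inl (x j) : V ⊕ Fin a) ∉ Y) →
    (univ.filter fun k => (∃ u, u ∈ g k ∧ u ∈ Y) ∧ ∃ w, w ∈ g k ∧ w ∉ Y).card ≠ 1

end

/-- B: from colourings of all label classes to local nowhere-zero 4-flows -/
def TLoc : Prop :=
  ∀ (V E : Type) [Fintype V] [DecidableEq V] [Fintype E] [DecidableEq E] (G : MGraph V E)
    (H D : Finset E) (ι : Type) [DecidableEq ι] (κ : V → ι), Fr G H D κ →
    (∀ i, Clb G (ins G H (cls G H D κ i))) → ∀ v, Loc G H D v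

/-- C1: without one-element cuts every edge lies in an even set -/
def TCutBr : Prop :=
  ∀ (V E : Type) [Fintype V] [DecidableEq V] [Fintype E] [DecidableEq E] (G : MGraph V E)
    (H : Finset E), (∀ Y : Finset V, (cut G H Y).card ≠ 1) → ∀ e ∈ H, ∃ Z, Z ⊆ H ∧ e ∈ Z ∧ Ev G Z

/-- C2: even sets cross every cut evenly -/
def TEvCut : Prop :=
  ∀ (V E : Type) [Fintype V] [DecidableEq V] [Fintype E] [DecidableEq E] (G : MGraph V E)
    (Z : Finset E) (Y : Finset V), Ev G Z → Even (cut G Z Y).card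

/-- C3: a circuit that does not cross a cut is on one side -/
def TSide : Prop :=
  ∀ (V E : Type) [Fintype V] [DecidableEq V] [Fintype E] [DecidableEq E] (G : MGraph V E)
    (D : Finset E) (Y : Finset V), IsCircuit G D → cut G D Y = ∅ →
    (∀ v, dg G D v = 2 → v ∈ Y) ∨ (∀ v, dg G D v = 2 → v ∉ Y)

/-- D: a small cut in a class that is not colourable -/
def TFind : Prop :=
  ∀ (V E : Type) [Fintype V] [DecidableEq V] [Fintype E] [DecidableEq E] (G : MGraph V E)
    (H D : Finset E) (ι : Type) [DecidableEq ι] (κ : V → ι), Fr G H D κ → ∀ i, Ok G H D κ i →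
    ¬ Clb G (ins G H (cls G H D κ i)) →
    ∃ X0, X0 ⊆ cls G H D κ i ∧ (cut G H X0).card ≤ 4 ∧ 4 ≤ (ins G H X0).card ∧ 2 ≤ X0.card ∧
      (2 ≤ (X0 ∩ inn G H D κ i).card ∨ X0 = cls G H D κ i)

/-- E: the legs of a maximal set -/
def TLegs : Prop :=
  ∀ (V E : Type) [Fintype V] [DecidableEq V] [Fintype E] [DecidableEq E] (G : MGraph V E)
    (H D : Finset E) (ι : Type) [DecidableEq ι] (κ : V → ι), Fr G H D κ → ∀ i X,
    Mx G H D κ i X → ∀ d, (cut G H X).card = d → ∃ (x : Fin d → V) (ℓ : Fin d → E), Lg G H X x ℓ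

/-- F: counting cuts -/
def TCnt : Prop :=
  ∀ (V E : Type) [Fintype V] [DecidableEq V] [Fintype E] [DecidableEq E] (G : MGraph V E)
    (H : Finset E) (X : Finset V) (d : ℕ) (x : Fin d → V) (ℓ : Fin d → E), Lg G H X x ℓ →
    ∀ Y : Finset V, Disjoint X Y →
    (cut G H Y).card = (cut G (H \ tou G H X) Y).card + (univ.filter fun j => x j ∈ Y).card ∧
    (cut G H (X ∪ Y)).card =
      (cut G (H \ tou G H X) Y).card + (univ.filter fun j => x j ∉ Y).card

/-- G: the four gadgets -/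
def TGad : Prop :=
  ∀ (V : Type) [Fintype V] [DecidableEq V],
    (∀ x : Fin 4 → V, Function.Injective x → ∀ (k l l' : Fin 4), k ≠ 0 → l ≠ 0 → l' ≠ 0 →
      k ≠ l → k ≠ l' → l ≠ l' → Gdt x (gPar x k l l') ∧ Gdt x (gTree x k l l')) ∧
    (∀ x : Fin 3 → V, Function.Injective x → Gdt x (gClaw x)) ∧
    (∀ x : Fin 2 → V, Function.Injective x → Gdt x (gEdge x))

/-- H: the new graph satisfies the general conditions -/
def TExtFr : Prop :=
  ∀ (V E : Type) [Fintype V] [DecidableEq V] [Fintype E] [DecidableEq E] (G : MGraph V E)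
    (H D : Finset E) (ι : Type) [DecidableEq ι] (κ : V → ι), Fr G H D κ → ∀ i X,
    Mx G H D κ i X → ∀ (d : ℕ) (x : Fin d → V) (ℓ : Fin d → E), Lg G H X x ℓ →
    ∀ (a b : ℕ) (g : Fin b → Sym2 (V ⊕ Fin a)), Gdt x g → ∀ hg : ∀ j, ¬ (g j).IsDiag,
    Fr (ext G g hg) (inG (H \ tou G H X)) (inE D) (Sum.elim κ fun _ => i)

/-- I: the label classes of the new graph are good again -/
def TExtOk : Prop :=
  ∀ (V E : Type) [Fintype V] [DecidableEq V] [Fintype E] [DecidableEq E] (G : MGraph V E)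
    (H D : Finset E) (ι : Type) [DecidableEq ι] (κ : V → ι), Fr G H D κ → ∀ i X,
    Mx G H D κ i X → ∀ (d : ℕ) (x : Fin d → V) (ℓ : Fin d → E), Lg G H X x ℓ →
    ∀ (a b : ℕ) (g : Fin b → Sym2 (V ⊕ Fin a)), Gdt x g → ∀ hg : ∀ j, ¬ (g j).IsDiag,
    (∀ i', Ok G H D κ i') → ¬ Clb G (ins G H (cls G H D κ i)) → 2 ≤ X.card →
    (2 ≤ (X ∩ inn G H D κ i).card ∨ X = cls G H D κ i) →
    ∀ i', Ok (ext G g hg) (inG (H \ tou G H X)) (inE D) (Sum.elim κ fun _ => i) i'

/-- K: everything together -/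
def TMain : Prop :=
  ∀ (n : ℕ) (V E : Type) [Fintype V] [DecidableEq V] [Fintype E] [DecidableEq E] (G : MGraph V E)
    (H D : Finset E) (ι : Type) [DecidableEq ι] (κ : V → ι), Fr G H D κ →
    (∀ i, Ok G H D κ i) → H.card = n → Good G H D

/-- `u` lies in the component of `v` in `G - V(D)` (for `v` off `D`) -/
def SameComp {V E : Type} [Fintype V] [DecidableEq V] [Fintype E] [DecidableEq E]
    (G : MGraph V E) (D : Finset E) (v u : V) : Prop :=
  Relation.ReflTransGen (fun x y => dg G D y = 0 ∧ ∃ e, G.ends e = s(x, y)) v u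

/-- L: the final theorem -/
def TResult : Prop :=
  ∀ (V E : Type) [Fintype V] [DecidableEq V] [Fintype E] [DecidableEq E] (G : MGraph V E),
    IsCubic G → (∀ e : E, ∃ X : Finset E, IsCircuit G X ∧ e ∈ X) →
    ∀ C : Finset E, IsCircuit G C → ∀ D : Finset E, IsCircuit G D →
    (∀ v, dg G C v = 2 → dg G D v = 2) →
    (∀ v, dg G D v = 0 → ∀ K : Finset V, (∀ u, u ∈ K ↔ SameComp G D v u) →
      Clb G (ins G univ K) ∨ (cut G univ K).card ≤ 4 ∨ K.card ≤ 14 ∨
        (K.filter fun u => ∀ e, u ∈ G.ends e → ∀ w, w ∈ G.ends e → dg G D w = 0).card ≤ 9) →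
    ∃ F : Multiset (Finset E), IsCDC G F ∧ C ∈ F

end Pool.Agent.H10R3.SC
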